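import Pool.Agent.Lib.MP_405d56_lc.O2.W8a

/-!
# MP_405d56_lc, outer process, row W8b: the constants
-/

open Set

namespace Pool.MP405d56

section W8

/-- the size of the lumps, from the two separations of the level below -/
def W8b_L (j w s : ℕ) : ℕ := max (L0 j (2 * w + 9)) (L0 j (s + 3))

/-- the new weak separation -/
def W8b_w (j w s : ℕ) : ℕ := T1 j (2 * w + 9) (W8b_L j w s) + 3

/-- the new strong separation -/
def W8b_s (j w s : ℕ) : ℕ :=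
  T1 j (s + 3) (W8b_L j w s) + T0 (j + 1) (2 * W8b_w j w s + 9) + 3

/-- the sequence of pairs -/
def W8b_f : ℕ → ℕ × ℕ
  | 0 => (3, 3 + T0 1 (2 * 3 + 9))
  | j + 1 => (W8b_w (j + 1) (W8b_f j).1 (W8b_f j).2, W8b_s (j + 1) (W8b_f j).1 (W8b_f j).2)

theorem W8b_three (j : ℕ) : 3 ≤ (W8b_f j).1 ∧ 3 ≤ (W8b_f j).2 := by
  cases j with
  | zero => exact ⟨le_refl 3, Nat.le_add_right 3 _⟩
  | succ j => exact ⟨Nat.le_add_left 3 _, Nat.le_add_left 3 _⟩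

theorem W8b_T0 (j : ℕ) : T0 (j + 1) (2 * (W8b_f j).1 + 9) ≤ (W8b_f j).2 := by
  cases j with
  | zero => exact Nat.le_add_left _ 3
  | succ j =>
    show T0 (j + 1 + 1) (2 * W8b_w (j + 1) (W8b_f j).1 (W8b_f j).2 + 9) ≤
      W8b_s (j + 1) (W8b_f j).1 (W8b_f j).2
    unfold W8b_s
    omega

theorem exists_consts : ∃ Rw Rs Ls : ℕ → ℕ, (∀ j, 3 ≤ Rw j ∧ 3 ≤ Rs j) ∧ ∀ j, 2 ≤ j →
    L0 j (2 * Rw (j - 1) + 9) ≤ Ls j ∧ T0 j (2 * Rw (j - 1) + 9) ≤ Rs (j - 1) ∧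
    T1 j (2 * Rw (j - 1) + 9) (Ls j) ≤ Rw j ∧ L0 j (Rs (j - 1) + 3) ≤ Ls j ∧
    T1 j (Rs (j - 1) + 3) (Ls j) ≤ Rs j := by
  refine ⟨fun j => (W8b_f j).1, fun j => (W8b_f j).2,
    fun j => W8b_L j (W8b_f (j - 1)).1 (W8b_f (j - 1)).2, W8b_three, fun j hj => ?_⟩
  obtain ⟨i, rfl⟩ : ∃ i, j = i + 1 := ⟨j - 1, by omega⟩
  rw [Nat.add_sub_cancel]
  refine ⟨le_max_left _ _, W8b_T0 i, ?_, le_max_right _ _, ?_⟩
  · show T1 (i + 1) (2 * (W8b_f i).1 + 9) (W8b_L (i + 1) (W8b_f i).1 (W8b_f i).2) ≤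
      W8b_w (i + 1) (W8b_f i).1 (W8b_f i).2
    unfold W8b_w
    exact Nat.le_add_right _ _
  · show T1 (i + 1) ((W8b_f i).2 + 3) (W8b_L (i + 1) (W8b_f i).1 (W8b_f i).2) ≤
      W8b_s (i + 1) (W8b_f i).1 (W8b_f i).2
    unfold W8b_s
    rw [Nat.add_assoc]
    exact Nat.le_add_right _ _
end W8

end Pool.MP405d56
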