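import Pool.Agent.Lib.MP_405d56_lc.O2.TP3

/-!
# MP_405d56_lc, row TG1: from a matching of the gadget graph to a matching of the real graph
-/

open Set

namespace Pool.MP405d56

variable {V : Type}

theorem TG1_pos_congr (J : Inp V) {x y : V} (h : J.E x y) : J.pos y = J.pos x := by
  ext z
  exact ⟨fun hz => ⟨J.eqv.trans h hz.1, hz.2⟩, fun hz => ⟨J.eqv.trans (J.eqv.symm h) hz.1, hz.2⟩⟩

theorem TG1_b1_congr (J : Inp V) {x y : V} (h : y ∈ J.pos x) : J.b1 y = J.b1 x := by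
  unfold Inp.b1
  rw [TG1_pos_congr J h.1]
  exact pick_congr ⟨y, h⟩

theorem TG1_b2_congr (J : Inp V) {x y : V} (h : y ∈ J.pos x) (hne : (J.pos x \ {J.b1 x}).Nonempty) :
    J.b2 y = J.b2 x := by
  unfold Inp.b2
  rw [TG1_b1_congr J h, TG1_pos_congr J h.1]
  exact pick_congr hne

theorem TG1_mem_self (J : Inp V) {x y : V} (h : y ∈ J.pos x) : y ∈ J.pos y :=
  ⟨J.eqv.refl y, h.2⟩

/-- an absorber adjacent to `y` -/
theorem TG1_abs (J : Inp V) (j : ℕ) {x y a : V} (hy : y ∈ J.pos x) (h : J.abs j y a) :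
    a ∈ J.pos x ∧ a ≠ J.b1 x := by
  obtain ⟨_, h2, h3, _⟩ := h
  rw [TG1_pos_congr J hy.1] at h2
  rw [TG1_b1_congr J hy] at h3
  exact ⟨h2, h3⟩

/-- the class vertices matched by `M` -/
def TG1_mt (J : Inp V) (M : SimpleGraph V) (x : V) : Set V := {y | J.E x y ∧ ∃ z, M.Adj y z}

theorem TG1_cnt (J : Inp V) (M : SimpleGraph V) (hM : ∀ x y z, M.Adj x y → M.Adj x z → y = z)
    (x : V) : cnt J.E M x = (TG1_mt J M x).ncard := by
  unfold cnt
  have himg : TG1_mt J M x = Prod.fst '' {p : V × V | J.E x p.1 ∧ M.Adj p.1 p.2} := by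
    ext y
    constructor
    · rintro ⟨h1, z, hz⟩
      exact ⟨(y, z), ⟨h1, hz⟩, rfl⟩
    · rintro ⟨⟨y', z⟩, ⟨h1, hz⟩, rfl⟩
      exact ⟨h1, z, hz⟩
  rw [himg]
  symm
  refine Set.InjOn.ncard_image ?_
  rintro ⟨a, b⟩ ⟨_, h2⟩ ⟨c, d⟩ ⟨_, h4⟩ h
  simp only at h h2 h4
  subst h
  rw [hM _ _ _ h2 h4]

theorem TG1_adj {J : Inp V} {j : ℕ} {μ : V ⊕ V → V ⊕ V} (hμ : IsInv (J.gad j) μ) {x y : V}
    (h : (rl μ).Adj x y) : J.H.Adj x y := by
  obtain ⟨h1, h2, _⟩ := h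
  have h4 := hμ.adj (Sum.inl x) (by
    rw [h2]
    intro h5
    exact h1 (Sum.inl.inj h5).symm)
  rw [h2] at h4
  exact h4

theorem TG1_mt_subset {J : Inp V} {j : ℕ} {μ : V ⊕ V → V ⊕ V} (hμ : IsInv (J.gad j) μ) (x : V) :
    TG1_mt J (rl μ) x ⊆ J.pos x := by
  rintro y ⟨h1, z, hz⟩
  exact ⟨h1, z, TG1_adj hμ hz⟩

theorem gad_down [Finite V] (J : Inp V) (j : ℕ) (μ : V ⊕ V → V ⊕ V) (hμ : IsInv (J.gad j) μ)
    (hreq : ∀ y, Sum.inr y ∈ J.req j → μ (Sum.inr y) ≠ Sum.inr y) :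
    IsMat J (rl μ) ∧ ∀ x, x ∈ J.pos x → j ≤ J.w x →
      (∀ y ∈ J.pos x, μ (Sum.inl y) ≠ Sum.inl y) → 1 ≤ cnt J.E (rl μ) x := by
  have hmat : ∀ x y z, (rl μ).Adj x y → (rl μ).Adj x z → y = z := by
    rintro x y z ⟨_, h2, _⟩ ⟨_, h3, _⟩
    rw [h2] at h3
    exact Sum.inl.inj h3
  refine ⟨⟨fun x y h => TG1_adj hμ h, hmat, fun x => ?_⟩, fun x hx _ hall => ?_⟩
  · rw [TG1_cnt J _ hmat]
    -- the required absorbers of the class
    have hinj : ∀ a ∈ J.pos x \ {J.b1 x, J.b2 x}, ∃ y ∈ J.pos x \ TG1_mt J (rl μ) x,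
        μ (Sum.inr a) = Sum.inl y := by
      rintro a ⟨ha, hab⟩
      simp only [mem_insert_iff, mem_singleton_iff, not_or] at hab
      have hne : (J.pos x \ {J.b1 x}).Nonempty := ⟨a, ha, hab.1⟩
      have hr : Sum.inr a ∈ J.req j := by
        refine ⟨TG1_mem_self J ha, ?_, ?_⟩
        · rw [TG1_b1_congr J ha]; exact hab.1
        · rw [TG1_b2_congr J ha hne]; exact hab.2
      have h1 := hreq a hr
      have h2 := hμ.adj _ h1
      rcases h3 : μ (Sum.inr a) with y | y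
      · rw [h3] at h2
        have h4 : J.abs j y a := h2
        have h5 : J.E x y := J.eqv.trans ha.1 (J.eqv.symm h4.2.1.1)
        refine ⟨y, ⟨⟨h5, h4.1.2⟩, ?_⟩, rfl⟩
        rintro ⟨_, z, hz⟩
        have h6 := hμ.inv (Sum.inr a)
        rw [h3, hz.2.1] at h6
        exact absurd h6 (by simp)
      · rw [h3] at h2
        exact absurd h2 (by simp [Inp.gad])
    choose! f hf1 hf2 using hinj
    have hle : (J.pos x \ {J.b1 x, J.b2 x}).ncard ≤ (J.pos x \ TG1_mt J (rl μ) x).ncard := by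
      refine Set.ncard_le_ncard_of_injOn f (fun a ha => hf1 a ha) ?_ (Set.toFinite _)
      intro a ha b hb hab
      have h1 := hf2 a ha
      have h2 := hf2 b hb
      rw [hab, ← h2] at h1
      have h3 := congrArg μ h1
      rw [hμ.inv, hμ.inv] at h3
      exact Sum.inr.inj h3
    have h1 : (J.pos x).ncard ≤ (J.pos x \ {J.b1 x, J.b2 x}).ncard + ({J.b1 x, J.b2 x} : Set V).ncard :=
      Set.ncard_le_ncard_sdiff_add_ncard _ _ (Set.toFinite _)
    have h2 : ({J.b1 x, J.b2 x} : Set V).ncard ≤ 2 := by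
      refine (Set.ncard_insert_le _ _).trans ?_
      rw [Set.ncard_singleton]
    have h3 := Set.ncard_sdiff_add_ncard_of_subset (TG1_mt_subset hμ x) (Set.toFinite _)
    omega
  · rw [TG1_cnt J _ hmat, Nat.one_le_iff_ne_zero, Ne, Set.ncard_eq_zero (Set.toFinite _)]
    intro hemp
    have hinj : ∀ y ∈ J.pos x, ∃ a ∈ J.pos x \ {J.b1 x}, μ (Sum.inl y) = Sum.inr a := by
      intro y hy
      have h1 := hall y hy
      have h2 := hμ.adj _ h1
      rcases h3 : μ (Sum.inl y) with z | a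
      · exfalso
        have h4 : y ∈ TG1_mt J (rl μ) x := by
          refine ⟨hy.1, z, ?_, h3, ?_⟩
          · rintro rfl
            exact h1 h3
          · rw [← h3, hμ.inv]
        rw [hemp] at h4
        exact h4
      · rw [h3] at h2
        obtain ⟨h4, h5⟩ := TG1_abs J j hy h2
        exact ⟨a, ⟨h4, h5⟩, rfl⟩
    choose! f hf1 hf2 using hinj
    have hle : (J.pos x).ncard ≤ (J.pos x \ {J.b1 x}).ncard := by
      refine Set.ncard_le_ncard_of_injOn f (fun a ha => hf1 a ha) ?_ (Set.toFinite _)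
      intro a ha b hb hab
      have h1 := hf2 a ha
      have h2 := hf2 b hb
      rw [hab, ← h2] at h1
      have h3 := congrArg μ h1
      rw [hμ.inv, hμ.inv] at h3
      exact Sum.inl.inj h3
    have hb : J.b1 x ∈ J.pos x := pick_mem ⟨x, hx⟩
    have h4 := Set.ncard_sdiff_singleton_lt_of_mem hb (Set.toFinite _)
    omega

end Pool.MP405d56
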