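import Pool.Agent.Lib.MP_405d56_lc.O2.TG1

/-! Row TG2: from a matching of the real graph to a matching of the gadget graph. -/

open Set

namespace Pool.MP405d56

variable {V : Type}

/-- choice of the used absorbers of one class -/
theorem TG2_loc [DecidableEq V] (P U R B : Finset V) (hU : U ⊆ P) (hRB : R ⊆ B)
    (hR : R.card ≤ U.card) : ∃ (A : Finset V) (f : V → V), R ⊆ A ∧ A ⊆ B ∧ (∀ a ∈ A, f a ∈ U) ∧
      (∀ a ∈ A, ∀ b ∈ A, f a = f b → a = b) ∧
      (P.card ≤ B.card + 1 → (∀ u ∈ U, ∃ a ∈ A, f a = u) ∨ U = P) := by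
  obtain ⟨A, hRA, hAB, hA⟩ := Finset.exists_subsuperset_card_eq hRB (n := min U.card B.card)
    (le_min hR (Finset.card_le_card hRB)) (min_le_right _ _)
  obtain ⟨e⟩ : Nonempty (A ↪ U) := Function.Embedding.nonempty_of_card_le (by
    rw [Fintype.card_coe, Fintype.card_coe, hA]; exact min_le_left _ _)
  have hf : ∀ a, ∀ h : a ∈ A, (if h : a ∈ A then (e ⟨a, h⟩ : V) else a) = e ⟨a, h⟩ :=
    fun a h => dif_pos h
  have hinj : ∀ a ∈ A, ∀ b ∈ A, (if h : a ∈ A then (e ⟨a, h⟩ : V) else a) =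
      (if h : b ∈ A then (e ⟨b, h⟩ : V) else b) → a = b := by
    intro a ha b hb h
    rw [hf a ha, hf b hb] at h
    exact congrArg Subtype.val (e.injective (Subtype.ext h))
  refine ⟨A, fun a => if h : a ∈ A then (e ⟨a, h⟩ : V) else a, hRA, hAB, ?_, hinj, ?_⟩
  · intro a ha
    show (if h : a ∈ A then (e ⟨a, h⟩ : V) else a) ∈ U
    rw [hf a ha]
    exact (e ⟨a, ha⟩).2
  · intro hP
    rcases le_or_gt U.card B.card with h | h
    · left
      intro u hu
      have h1 : A.image (fun a => if h : a ∈ A then (e ⟨a, h⟩ : V) else a) = U := by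
        refine Finset.eq_of_subset_of_card_le ?_ ?_
        · intro b hb
          rw [Finset.mem_image] at hb
          obtain ⟨a, ha, rfl⟩ := hb
          show (if h : a ∈ A then (e ⟨a, h⟩ : V) else a) ∈ U
          rw [hf a ha]
          exact (e ⟨a, ha⟩).2
        · rw [Finset.card_image_of_injOn (fun a ha b hb => hinj a ha b hb), hA]
          omega
      rw [← h1, Finset.mem_image] at hu
      exact hu
    · right
      exact Finset.eq_of_subset_of_card_le hU (by omega)

theorem TG2_pos (J : Inp V) {x y : V} (h : J.E x y) : J.pos x = J.pos y := by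
  ext z
  constructor
  · rintro ⟨h1, h2⟩
    exact ⟨J.eqv.trans (J.eqv.symm h) h1, h2⟩
  · rintro ⟨h1, h2⟩
    exact ⟨J.eqv.trans h h1, h2⟩

theorem TG2_b1 (J : Inp V) {x y : V} (h : J.E x y) (hne : (J.pos x).Nonempty) :
    J.b1 x = J.b1 y := by
  unfold Inp.b1
  rw [← TG2_pos J h]
  exact pick_congr hne

theorem TG2_b2 (J : Inp V) {x y z : V} (h : J.E x y) (hz : z ∈ J.pos x) (hz1 : z ≠ J.b1 x) :
    J.b2 x = J.b2 y := by
  unfold Inp.b2
  rw [← TG2_pos J h, ← TG2_b1 J h ⟨z, hz⟩]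
  exact pick_congr ⟨z, hz, hz1⟩

/-- the choice in the class of `c` -/
theorem TG2_class [Finite V] (J : Inp V) (j : ℕ) (M : SimpleGraph V) (hM : IsMat J M) (c : V) :
    ∃ (A : Finset V) (f : V → V),
      (∀ y, y ∈ J.pos c → y ≠ J.b1 c → y ≠ J.b2 c → y ∈ A) ∧
      (∀ y ∈ A, y ∈ J.pos c ∧ y ≠ J.b1 c ∧ (J.w c < j → y ≠ J.b2 c)) ∧
      (∀ y ∈ A, f y ∈ J.pos c ∧ ∀ z, ¬ M.Adj (f y) z) ∧
      (∀ a ∈ A, ∀ b ∈ A, f a = f b → a = b) ∧
      (j ≤ J.w c → ∀ x ∈ J.pos c, (∀ z, ¬ M.Adj x z) → (∀ y ∈ A, f y ≠ x) →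
        cnt J.E M c = 0) := by
  classical
  have := Fintype.ofFinite V
  set P : Finset V := Finset.univ.filter (fun y => y ∈ J.pos c) with hP
  set U : Finset V := P.filter (fun y => ¬ ∃ z, M.Adj y z) with hU
  set R : Finset V := P.filter (fun y => y ≠ J.b1 c ∧ y ≠ J.b2 c) with hR
  set B : Finset V := P.filter (fun y => y ≠ J.b1 c ∧ (J.w c < j → y ≠ J.b2 c)) with hB
  have memP : ∀ y, y ∈ P ↔ y ∈ J.pos c := fun y => by simp [hP]
  have hRB : R ⊆ B := by
    intro y hy
    rw [hR, Finset.mem_filter] at hy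
    rw [hB, Finset.mem_filter]
    exact ⟨hy.1, hy.2.1, fun _ => hy.2.2⟩
  -- the matched vertices
  have hW : (P.filter (fun y => ∃ z, M.Adj y z)).card ≤ cnt J.E M c := by
    rw [← Set.ncard_coe_finset]
    unfold cnt
    refine Set.ncard_le_ncard_of_injOn
      (fun y => (y, if h : ∃ z, M.Adj y z then h.choose else y)) ?_ ?_ (Set.toFinite _)
    · intro y hy
      rw [Finset.mem_coe, Finset.mem_filter, memP] at hy
      obtain ⟨h1, h2⟩ := hy
      refine ⟨h1.1, ?_⟩
      show M.Adj y (if h : ∃ z, M.Adj y z then h.choose else y)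
      rw [dif_pos h2]
      exact h2.choose_spec
    · intro y _ y' _ h
      exact (Prod.mk.inj h).1
  have hsum : (P.filter (fun y => ∃ z, M.Adj y z)).card + U.card = P.card :=
    Finset.card_filter_add_card_filter_not (fun y => ∃ z, M.Adj y z)
  have h2 : P.card ≤ U.card + 2 := by
    have := hM.two c
    omega
  have hRc : R.card ≤ U.card := by
    by_cases hne : (J.pos c).Nonempty
    · have hb1 : J.b1 c ∈ J.pos c := pick_mem hne
      by_cases hne2 : (J.pos c \ {J.b1 c}).Nonempty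
      · have hb2 : J.b2 c ∈ J.pos c \ {J.b1 c} := pick_mem hne2
        have hsub : R ⊆ (P.erase (J.b1 c)).erase (J.b2 c) := by
          intro y hy
          rw [hR, Finset.mem_filter] at hy
          rw [Finset.mem_erase, Finset.mem_erase]
          exact ⟨hy.2.2, hy.2.1, hy.1⟩
        have e1 := Finset.card_le_card hsub
        have m1 : J.b1 c ∈ P := (memP _).2 hb1
        have m2 : J.b2 c ∈ P.erase (J.b1 c) :=
          Finset.mem_erase.2 ⟨hb2.2, (memP _).2 hb2.1⟩
        rw [Finset.card_erase_of_mem m2, Finset.card_erase_of_mem m1] at e1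
        omega
      · have : R = ∅ := by
          rw [Finset.eq_empty_iff_forall_notMem]
          intro y hy
          rw [hR, Finset.mem_filter, memP] at hy
          exact hne2 ⟨y, hy.1, hy.2.1⟩
        rw [this]
        exact Nat.zero_le _
    · have : R = ∅ := by
        rw [Finset.eq_empty_iff_forall_notMem]
        intro y hy
        rw [hR, Finset.mem_filter, memP] at hy
        exact hne ⟨y, hy.1⟩
      rw [this]
      exact Nat.zero_le _
  obtain ⟨A, f, hRA, hAB, hAU, hinj, hlast⟩ := TG2_loc P U R B (Finset.filter_subset _ _) hRB hRc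
  refine ⟨A, f, ?_, ?_, ?_, hinj, ?_⟩
  · intro y h1 h2 h3
    refine hRA ?_
    rw [hR, Finset.mem_filter, memP]
    exact ⟨h1, h2, h3⟩
  · intro y hy
    have := hAB hy
    rw [hB, Finset.mem_filter, memP] at this
    exact this
  · intro y hy
    have := hAU y hy
    rw [hU, Finset.mem_filter, memP] at this
    exact ⟨this.1, fun z hz => this.2 ⟨z, hz⟩⟩
  · intro hj x hx hxM hxA
    have hb1 : J.b1 c ∈ J.pos c := pick_mem ⟨x, hx⟩
    have hBc : P.card ≤ B.card + 1 := by
      have : B = P.erase (J.b1 c) := by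
        ext y
        rw [hB, Finset.mem_filter, Finset.mem_erase]
        constructor
        · rintro ⟨h1, h2, _⟩
          exact ⟨h2, h1⟩
        · rintro ⟨h1, h2⟩
          exact ⟨h2, h1, fun h => absurd h (by omega)⟩
      rw [this, Finset.card_erase_of_mem ((memP _).2 hb1)]
      omega
    rcases hlast hBc with h | h
    · have hxU : x ∈ U := by
        rw [hU, Finset.mem_filter, memP]
        exact ⟨hx, fun ⟨z, hz⟩ => hxM z hz⟩
      obtain ⟨a, ha, hfa⟩ := h x hxU
      exact absurd hfa (hxA a ha)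
    · unfold cnt
      rw [Set.ncard_eq_zero (Set.toFinite _), Set.eq_empty_iff_forall_notMem]
      rintro ⟨a, b⟩ ⟨h1, h2⟩
      have haP : a ∈ P := (memP a).2 ⟨h1, b, hM.sub h2⟩
      rw [← h, hU, Finset.mem_filter] at haP
      exact haP.2 ⟨b, h2⟩

/-- an involution from a symmetric functional relation -/
theorem TG2_mu {W : Type} (r : W → W → Prop) (hs : ∀ a b, r a b → r b a)
    (hu : ∀ a b c, r a b → r a c → b = c) :
    ∃ μ : W → W, (∀ a, μ (μ a) = a) ∧ (∀ a, μ a ≠ a → r a (μ a)) ∧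
      (∀ a b, r a b → μ a = b) := by
  have hex : ∀ a, ∃ c, (∀ b, r a b → c = b) ∧ ((¬ ∃ b, r a b) → c = a) := by
    intro a
    by_cases h : ∃ b, r a b
    · obtain ⟨b, hab⟩ := h
      exact ⟨b, fun c hc => hu a b c hab hc, fun h => absurd ⟨b, hab⟩ h⟩
    · exact ⟨a, fun b hb => absurd ⟨b, hb⟩ h, fun _ => rfl⟩
  choose μ h1 h2 using hex
  refine ⟨μ, ?_, ?_, h1⟩
  · intro a
    by_cases h : ∃ b, r a b
    · obtain ⟨b, hab⟩ := h
      rw [h1 a b hab]
      exact h1 b a (hs a b hab)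
    · rw [h2 a h, h2 a h]
  · intro a ha
    by_cases h : ∃ b, r a b
    · obtain ⟨b, hab⟩ := h
      rw [h1 a b hab]
      exact hab
    · exact absurd (h2 a h) ha

/-- PROOF. For each class separately: let `P = pos x`, `r = #P`, `m = cnt J.E M x ≤ 2` = number of `y ∈ P` matched by `M`, `U ⊆ P` the
set of the `r - m` other vertices of `P`. Absorbers may be matched with any vertices of `P`. Obligatory class: if `m ≥ 1` choose
`A ⊆ {absorbers}` containing the required ones with `#A = #U = r - m ∈ {r - 2, r - 1}` (there are `r - 1` absorbers,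
`≥ r - 2` required ones: `r - 2` if `r ≥ 2`, none if `r = 1`) and match `A` with `U` by a bijection. If `m = 0`: match
all `r - 1` absorbers with `r - 1` vertices of `U = P`. Other class: match the `r - 2` absorbers (if `r ≥ 3`) into `U`.
Choose one injection (absorbers used) → `U` for each class; use a choice that depends only on the class (e.g. choose for the set
`{y | J.E x y}`). Then `μ (inl x) = inl y` if `M.Adj x y`, etc. -/
theorem gad_up [Finite V] (J : Inp V) (j : ℕ) (M : SimpleGraph V) (hM : IsMat J M) :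
    ∃ μ : V ⊕ V → V ⊕ V, IsInv (J.gad j) μ ∧ (∀ x y, M.Adj x y ↔ (rl μ).Adj x y) ∧
      (∀ y, Sum.inr y ∈ J.req j → μ (Sum.inr y) ≠ Sum.inr y) ∧
      ∀ x, Sum.inl x ∈ J.req j → μ (Sum.inl x) = Sum.inl x → cnt J.E M x = 0 := by
  choose A f hA1 hA2 hA3 hA4 hA5 using TG2_class J j M hM
  -- representatives
  obtain ⟨rep, hrep, hrepc⟩ : ∃ rep : V → V, (∀ x, J.E x (rep x)) ∧
      ∀ x y, J.E x y → rep x = rep y := by
    refine ⟨fun x => pick x {y | J.E x y}, fun x => pick_mem (S := {y | J.E x y})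
      ⟨x, J.eqv.refl x⟩, fun x y h => ?_⟩
    have e : {z | J.E x z} = {z | J.E y z} := by
      ext z
      exact ⟨fun h' => J.eqv.trans (J.eqv.symm h) h', fun h' => J.eqv.trans h h'⟩
    show pick x {z | J.E x z} = pick y {z | J.E y z}
    rw [e]
    exact pick_congr ⟨y, J.eqv.refl y⟩
  let r : V ⊕ V → V ⊕ V → Prop := fun a b => match a, b with
    | Sum.inl x, Sum.inl y => M.Adj x y
    | Sum.inl x, Sum.inr y => J.E x y ∧ y ∈ A (rep x) ∧ f (rep x) y = x
    | Sum.inr y, Sum.inl x => J.E x y ∧ y ∈ A (rep x) ∧ f (rep x) y = x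
    | Sum.inr _, Sum.inr _ => False
  have hs : ∀ a b, r a b → r b a := by
    rintro (x | x) (y | y) h
    · exact M.adj_symm h
    · exact h
    · exact h
    · exact h
  have hu : ∀ a b c, r a b → r a c → b = c := by
    rintro (x | x) (y | y) (z | z) h h'
    · exact congrArg Sum.inl (hM.mat x y z h h')
    · obtain ⟨_, h2, h3⟩ := h'
      exact absurd h (h3 ▸ (hA3 (rep x) z h2).2 y)
    · obtain ⟨_, h2, h3⟩ := h
      exact absurd h' (h3 ▸ (hA3 (rep x) y h2).2 z)
    · obtain ⟨_, h2, h3⟩ := h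
      obtain ⟨_, h2', h3'⟩ := h'
      exact congrArg Sum.inr (hA4 (rep x) y h2 z h2' (h3.trans h3'.symm))
    · obtain ⟨h1, h2, h3⟩ := h
      obtain ⟨h1', h2', h3'⟩ := h'
      have e : rep y = rep z := (hrepc y x h1).trans (hrepc z x h1').symm
      rw [e] at h3
      exact congrArg Sum.inl (h3.symm.trans h3')
    · exact h'.elim
    · exact h.elim
    · exact h.elim
  have hirr : ∀ a, ¬ r a a := by
    rintro (x | x) h
    · exact h.ne rfl
    · exact h
  obtain ⟨μ, m1, m2, m3⟩ := TG2_mu r hs hu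
  have hposE : ∀ x, J.pos (rep x) = J.pos x := fun x => (TG2_pos J (hrep x)).symm
  -- adjacency of gadget edges
  have habs : ∀ x y, J.E x y → y ∈ A (rep x) → f (rep x) y = x → J.abs j x y := by
    intro x y h1 h2 h3
    obtain ⟨p1, p2, p3⟩ := hA2 (rep x) y h2
    obtain ⟨q1, _⟩ := hA3 (rep x) y h2
    rw [h3, hposE] at q1
    have p1' : y ∈ J.pos x := hposE x ▸ p1
    have e1 : J.b1 x = J.b1 (rep x) := TG2_b1 J (hrep x) ⟨y, p1'⟩
    have e2 : J.b2 x = J.b2 (rep x) := TG2_b2 J (hrep x) p1' (e1 ▸ p2)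
    have e3 : J.w x = J.w (rep x) := w_congr J (hrep x)
    exact ⟨q1, p1', e1 ▸ p2, fun h => e2 ▸ p3 (e3 ▸ h)⟩
  refine ⟨μ, ⟨m1, ?_⟩, ?_, ?_, ?_⟩
  · intro a ha
    have h := m2 a ha
    revert h
    generalize μ a = b
    intro h
    match a, b, h with
    | Sum.inl x, Sum.inl y, h => exact hM.sub h
    | Sum.inl x, Sum.inr y, h => exact habs x y h.1 h.2.1 h.2.2
    | Sum.inr y, Sum.inl x, h => exact habs x y h.1 h.2.1 h.2.2
    | Sum.inr _, Sum.inr _, h => exact h.elim
  · intro x y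
    constructor
    · intro h
      exact ⟨h.ne, m3 (Sum.inl x) (Sum.inl y) h, m3 (Sum.inl y) (Sum.inl x) h.symm⟩
    · rintro ⟨h1, h2, _⟩
      have h3 : μ (Sum.inl x) ≠ Sum.inl x := by
        rw [h2]
        intro h
        exact h1 (Sum.inl.inj h).symm
      have h4 := m2 _ h3
      rw [h2] at h4
      exact h4
  · rintro y ⟨h1, h2, h3⟩
    -- `y` is used
    have p1' : y ∈ J.pos (rep y) := (hposE y).symm ▸ h1
    have e1 : J.b1 y = J.b1 (rep y) := TG2_b1 J (hrep y) ⟨y, h1⟩
    have e2 : J.b2 y = J.b2 (rep y) := TG2_b2 J (hrep y) h1 h2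
    have hyA : y ∈ A (rep y) := hA1 (rep y) y p1' (e1 ▸ h2) (e2 ▸ h3)
    obtain ⟨q1, _⟩ := hA3 (rep y) y hyA
    have hE : J.E y (f (rep y) y) := J.eqv.trans (hrep y) q1.1
    have er : rep (f (rep y) y) = rep y := (hrepc _ _ hE).symm
    have hr : r (Sum.inr y) (Sum.inl (f (rep y) y)) := by
      refine ⟨J.eqv.symm hE, ?_, ?_⟩
      · rw [er]; exact hyA
      · rw [er]
    rw [m3 (Sum.inr y) (Sum.inl (f (rep y) y)) hr]
    exact Sum.inl_ne_inr
  · rintro x ⟨h1, h2⟩ hx
    have e3 : J.w x = J.w (rep x) := w_congr J (hrep x)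
    have hno : ∀ b, ¬ r (Sum.inl x) b := by
      intro b hb
      have := m3 _ _ hb
      rw [hx] at this
      rw [← this] at hb
      exact hirr (Sum.inl x) hb
    have h0 : cnt J.E M (rep x) = 0 := by
      refine hA5 (rep x) (e3 ▸ h2) x ((hposE x).symm ▸ h1) (fun z hz => hno (Sum.inl z) hz) ?_
      intro y hy hfy
      have hyE : J.E x y := J.eqv.trans (hrep x) (hA2 (rep x) y hy).1.1
      exact hno (Sum.inr y) ⟨hyE, hy, hfy⟩
    have e4 : cnt J.E M x = cnt J.E M (rep x) := by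
      unfold cnt
      congr 1
      ext ⟨a, b⟩
      constructor
      · rintro ⟨ha, hb⟩
        exact ⟨J.eqv.trans (J.eqv.symm (hrep x)) ha, hb⟩
      · rintro ⟨ha, hb⟩
        exact ⟨J.eqv.trans (hrep x) ha, hb⟩
    rw [e4]
    exact h0

end Pool.MP405d56
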