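import Pool.Agent.Lib.MP_405d56_lc.O2.TG2

open Set

namespace Pool.MP405d56

variable {V : Type}

theorem TG3_pos_congr {J : Inp V} {x y : V} (h : J.E x y) : J.pos x = J.pos y := by
  ext z
  show (J.E x z ∧ _) ↔ (J.E y z ∧ _)
  exact and_congr_left fun _ =>
    ⟨fun h' => J.eqv.trans (J.eqv.symm h) h', fun h' => J.eqv.trans h h'⟩

theorem TG3_b1_congr {J : Inp V} {x y a : V} (h : J.E x y) (ha : a ∈ J.pos x) :
    J.b1 y = J.b1 x := by
  unfold Inp.b1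
  rw [← TG3_pos_congr h]
  exact pick_congr ⟨a, ha⟩

theorem TG3_b2_congr {J : Inp V} {x y a : V} (h : J.E x y) (ha : a ∈ J.pos x)
    (hb : a ≠ J.b1 x) : J.b2 y = J.b2 x := by
  unfold Inp.b2
  rw [TG3_b1_congr h ha, ← TG3_pos_congr h]
  exact pick_congr ⟨a, ha, hb⟩

theorem TG3_abs_congr {J : Inp V} {x y a : V} {j : ℕ} (h : J.E x y) :
    J.abs j y a ↔ (y ∈ J.pos x ∧ a ∈ J.pos x ∧ a ≠ J.b1 x ∧ (J.w x < j → a ≠ J.b2 x)) := by
  unfold Inp.abs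
  rw [← TG3_pos_congr h, ← w_congr J h]
  constructor
  · rintro ⟨h1, h2, h3, h4⟩
    rw [TG3_b1_congr h h2] at h3
    rw [TG3_b2_congr h h2 h3] at h4
    exact ⟨h1, h2, h3, h4⟩
  · rintro ⟨h1, h2, h3, h4⟩
    rw [TG3_b1_congr h h2, TG3_b2_congr h h2 h3]
    exact ⟨h1, h2, h3, h4⟩

theorem TG3_pos {J J' : Inp V} {A : Set V} (h : Agree J J' (J.nbd 1 A)) {x : V} (hx : x ∈ A) :
    J.pos x = J'.pos x := by
  ext y
  show (J.E x y ∧ ∃ z, J.H.Adj y z) ↔ (J'.E x y ∧ ∃ z, J'.H.Adj y z)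
  have h1 := (h x (Inp.subset_nbd 1 A hx) y).2
  constructor
  · rintro ⟨hy, z, hz⟩
    exact ⟨h1.1 hy, z, (h y ⟨x, hx, Inp.near_E hy⟩ z).1.1 hz⟩
  · rintro ⟨hy, z, hz⟩
    have hy' := h1.2 hy
    exact ⟨hy', z, (h y ⟨x, hx, Inp.near_E hy'⟩ z).1.2 hz⟩

theorem TG3_b1 {J J' : Inp V} {A : Set V} (h : Agree J J' (J.nbd 1 A)) {x : V} (hx : x ∈ A) :
    J.b1 x = J'.b1 x := by
  unfold Inp.b1
  rw [TG3_pos h hx]

theorem TG3_b2 {J J' : Inp V} {A : Set V} (h : Agree J J' (J.nbd 1 A)) {x : V} (hx : x ∈ A) :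
    J.b2 x = J'.b2 x := by
  unfold Inp.b2
  rw [TG3_b1 h hx, TG3_pos h hx]

theorem gad_agree {J J' : Inp V} {A : Set V} (h : Agree J J' (J.nbd 1 A)) {x : V} (hx : x ∈ A)
    (j : ℕ) : J.pos x = J'.pos x ∧ (∀ b, (J.gad j).Adj (Sum.inl x) b ↔ (J'.gad j).Adj (Sum.inl x) b) ∧
      (∀ b, (J.gad j).Adj (Sum.inr x) b ↔ (J'.gad j).Adj (Sum.inr x) b) ∧
      (Sum.inl x ∈ J.req j ↔ Sum.inl x ∈ J'.req j) ∧
      (Sum.inr x ∈ J.req j ↔ Sum.inr x ∈ J'.req j) := by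
  have hp := TG3_pos h hx
  have hb1 := TG3_b1 h hx
  have hb2 := TG3_b2 h hx
  have hw : J.w x = J'.w x := h.w hx
  have hE : ∀ y, J.E x y ↔ J'.E x y := fun y => (h x (Inp.subset_nbd 1 A hx) y).2
  refine ⟨hp, ?_, ?_, ?_, ?_⟩
  · rintro (y | y)
    · exact (h x (Inp.subset_nbd 1 A hx) y).1
    · show J.abs j x y ↔ J'.abs j x y
      unfold Inp.abs
      rw [hp, hb1, hb2, hw]
  · rintro (y | y)
    · show J.abs j y x ↔ J'.abs j y x
      by_cases hxy : J.E x y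
      · have hxy' := (hE y).1 hxy
        rw [TG3_abs_congr hxy, TG3_abs_congr hxy', hp, hb1, hb2, hw]
      · have hxy' : ¬ J'.E x y := fun h' => hxy ((hE y).2 h')
        constructor
        · intro h'
          exact absurd (J.eqv.symm h'.2.1.1) hxy
        · intro h'
          exact absurd (J'.eqv.symm h'.2.1.1) hxy'
    · exact Iff.rfl
  · show (x ∈ J.pos x ∧ j ≤ J.w x) ↔ (x ∈ J'.pos x ∧ j ≤ J'.w x)
    rw [hp, hw]
  · show (x ∈ J.pos x ∧ x ≠ J.b1 x ∧ x ≠ J.b2 x) ↔ (x ∈ J'.pos x ∧ x ≠ J'.b1 x ∧ x ≠ J'.b2 x)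
    rw [hp, hb1, hb2]

/-- a step of the gadget graph projects to a step of length at most one -/
theorem gad_near {J : Inp V} {j : ℕ} {a b : V ⊕ V} (h : (J.gad j).Adj a b) :
    J.near 1 (prj a) (prj b) := by
  match a, b with
  | Sum.inl x, Sum.inl y => exact Inp.near_adj (show J.H.Adj x y from h)
  | Sum.inl x, Sum.inr y =>
    have h' : J.abs j x y := h
    exact Inp.near_E h'.2.1.1
  | Sum.inr y, Sum.inl x =>
    have h' : J.abs j x y := h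
    exact Inp.near_symm (Inp.near_E h'.2.1.1)
  | Sum.inr _, Sum.inr _ => exact (h : False).elim


end Pool.MP405d56
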