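import Pool.Agent.Lib.MP_405d56_lc.O.WDefs

open Set

namespace Pool.MP405d56

variable {V : Type}
section TP1
variable {I : Inp V} {L j n : ℕ} {F : Set (Set V)} {x y : V}

theorem plus_E (hF : Fam L j I F) : (I.plus F).E x y ↔
    I.E x y ∨ ∃ D ∈ F, ∃ u ∈ D, ∃ v ∈ D, I.E x u ∧ I.E v y := by
  constructor
  · intro h
    change Relation.EqvGen _ x y at h
    induction h with
    | rel x y h =>
      rcases h with h | ⟨D, hD, hx, hy⟩
      · exact Or.inl h
      · exact Or.inr ⟨D, hD, x, hx, y, hy, I.eqv.refl x, I.eqv.refl y⟩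
    | refl x => exact Or.inl (I.eqv.refl x)
    | symm x y _ ih =>
      rcases ih with h | ⟨D, hD, u, hu, v, hv, h1, h2⟩
      · exact Or.inl (I.eqv.symm h)
      · exact Or.inr ⟨D, hD, v, hv, u, hu, I.eqv.symm h2, I.eqv.symm h1⟩
    | trans x y z _ _ ih1 ih2 =>
      rcases ih1 with h | ⟨D, hD, u, hu, v, hv, h1, h2⟩
      · rcases ih2 with h' | ⟨D', hD', u', hu', v', hv', h1', h2'⟩
        · exact Or.inl (I.eqv.trans h h')
        · exact Or.inr ⟨D', hD', u', hu', v', hv', I.eqv.trans h h1', h2'⟩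
      · rcases ih2 with h' | ⟨D', hD', u', hu', v', hv', h1', h2'⟩
        · exact Or.inr ⟨D, hD, u, hu, v, hv, h1, I.eqv.trans h2 h'⟩
        · have : D = D' := hF.disj D hD D' hD' ⟨v, hv, u', hu', I.eqv.trans h2 h1'⟩
          subst this
          exact Or.inr ⟨D, hD, u, hu, v', hv', h1, h2'⟩
  · rintro (h | ⟨D, hD, u, hu, v, hv, h1, h2⟩)
    · exact .rel _ _ (Or.inl h)
    · exact .trans _ _ _ (.rel _ _ (Or.inl h1))
        (.trans _ _ _ (.rel _ _ (Or.inr ⟨D, hD, hu, hv⟩)) (.rel _ _ (Or.inl h2)))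

theorem plus_near (hF : Fam L j I F) (h : (I.plus F).near n x y) : I.near ((L + 2) * n) x y := by
  refine Inp.near_iff_mono (k := L + 2) ?_ h
  rintro a b ⟨_, hab | hab⟩
  · exact Inp.near_mono (by omega) (Inp.near_adj hab.1)
  · rcases (plus_E hF).1 hab with h1 | ⟨D, hD, u, hu, v, hv, h1, h2⟩
    · exact Inp.near_mono (by omega) (Inp.near_E h1)
    · exact Inp.near_mono (by omega) (Inp.near_trans (Inp.near_E h1)
        (Inp.near_trans ((hF.lump D hD).small u hu v hv) (Inp.near_E h2)))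

theorem near_plus (h : I.near n x y) : (I.plus F).near n x y := by
  have := Inp.near_iff_mono (I' := I.plus F) (k := 1) (n := n) (x := x) (y := y) ?_ h
  · rwa [one_mul] at this
  rintro a b ⟨_, hab | hab⟩
  · by_cases hD : ∃ D ∈ F, a ∈ D ∧ b ∈ D
    · obtain ⟨D, hD, ha, hb⟩ := hD
      exact Inp.near_E (.rel _ _ (Or.inr ⟨D, hD, ha, hb⟩))
    · exact Inp.near_adj ⟨hab, fun D hD' hh => hD ⟨D, hD', hh⟩⟩
  · exact Inp.near_E (.rel _ _ (Or.inl hab))

theorem plus_free (hF : Fam L j I F) (hx : ∀ D ∈ F, ∀ u ∈ D, ¬ I.E x u) :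
    (∀ y, (I.plus F).E x y ↔ I.E x y) ∧
    (∀ y, I.E x y → ∀ z, (I.plus F).H.Adj y z ↔ I.H.Adj y z) ∧ (I.plus F).w x = I.w x := by
  have h1 : ∀ y, (I.plus F).E x y ↔ I.E x y := by
    intro y
    rw [plus_E hF]
    constructor
    · rintro (h | ⟨D, hD, u, hu, v, hv, h1, h2⟩)
      · exact h
      · exact absurd h1 (hx D hD u hu)
    · exact Or.inl
  have h2 : ∀ y, I.E x y → ∀ z, (I.plus F).H.Adj y z ↔ I.H.Adj y z := by
    intro y hy z
    constructor
    · exact fun h => h.1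
    · exact fun h => ⟨h, fun D hD hh => hx D hD y hh.1 hy⟩
  refine ⟨h1, h2, ?_⟩
  unfold Inp.w cnt
  congr 1
  ext ⟨a, b⟩
  constructor
  · rintro ⟨ha, hb⟩
    exact ⟨(h1 a).1 ha, (h2 a ((h1 a).1 ha) b).1 hb⟩
  · rintro ⟨ha, hb⟩
    exact ⟨(h1 a).2 ha, (h2 a ha b).2 hb⟩
end TP1

end Pool.MP405d56
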