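import Pool.Agent.Lib.MP_405d56_lc.O2.TP1

open Set

namespace Pool.MP405d56

variable {V : Type}

section TP1b
variable {I : Inp V} {L j n : ℕ} {F : Set (Set V)} {x y : V}

/-- one direction of the agreement of the united classes -/
theorem TP1b_E {I' : Inp V} {F' : Set (Set V)} {r : ℕ} {Ω : Set V} (hF : Fam L j I F)
    (hF' : Fam L j I' F') (hA : Agree I I' (I.nbd (r + L + 3) Ω))
    (hFF : ∀ x ∈ I.nbd (r + L + 3) Ω, ∀ D, x ∈ D → (D ∈ F ↔ D ∈ F'))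
    {x : V} (hx : x ∈ I.nbd r Ω) (y : V) : (I.plus F).E x y ↔ (I'.plus F').E x y := by
  have hx' : x ∈ I.nbd (r + L + 3) Ω := Inp.nbd_mono (by omega) (Set.Subset.refl _) hx
  rw [plus_E hF, plus_E hF']
  constructor
  · rintro (h | ⟨D, hD, u, hu, v, hv, hxu, hvy⟩)
    · exact Or.inl ((hA x hx' y).2.1 h)
    · have hu1 : u ∈ I.nbd (r + 1) Ω := Inp.mem_nbd_of_near hx (Inp.near_E hxu)
      have hu2 : u ∈ I.nbd (r + L + 3) Ω := Inp.nbd_mono (by omega) (Set.Subset.refl _) hu1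
      have hv1 : v ∈ I.nbd (r + 1 + L) Ω :=
        Inp.mem_nbd_of_near hu1 ((hF.lump D hD).small u hu v hv)
      have hv2 : v ∈ I.nbd (r + L + 3) Ω := Inp.nbd_mono (by omega) (Set.Subset.refl _) hv1
      exact Or.inr ⟨D, (hFF u hu2 D hu).1 hD, u, hu, v, hv, (hA x hx' u).2.1 hxu,
        (hA v hv2 y).2.1 hvy⟩
  · rintro (h | ⟨D, hD, u, hu, v, hv, hxu, hvy⟩)
    · exact Or.inl ((hA x hx' y).2.2 h)
    · have hxu' : I.E x u := (hA x hx' u).2.2 hxu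
      have hu1 : u ∈ I.nbd (r + 1) Ω := Inp.mem_nbd_of_near hx (Inp.near_E hxu')
      have hu2 : u ∈ I.nbd (r + L + 3) Ω := Inp.nbd_mono (by omega) (Set.Subset.refl _) hu1
      have hDF : D ∈ F := (hFF u hu2 D hu).2 hD
      have hv1 : v ∈ I.nbd (r + 1 + L) Ω :=
        Inp.mem_nbd_of_near hu1 ((hF.lump D hDF).small u hu v hv)
      have hv2 : v ∈ I.nbd (r + L + 3) Ω := Inp.nbd_mono (by omega) (Set.Subset.refl _) hv1
      exact Or.inr ⟨D, hDF, u, hu, v, hv, hxu', (hA v hv2 y).2.2 hvy⟩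

/-- neighbourhoods and agreement: if two inputs and two families agree near `Ω` then so do the inputs `plus` -/
theorem plus_agree {I' : Inp V} {F' : Set (Set V)} {r : ℕ} {Ω : Set V} (hF : Fam L j I F)
    (hF' : Fam L j I' F') (hA : Agree I I' (I.nbd (r + L + 3) Ω))
    (hFF : ∀ x ∈ I.nbd (r + L + 3) Ω, ∀ D, x ∈ D → (D ∈ F ↔ D ∈ F')) :
    Agree (I.plus F) (I'.plus F') (I.nbd r Ω) := by
  intro x hx y
  have hx' : x ∈ I.nbd (r + L + 3) Ω := Inp.nbd_mono (by omega) (Set.Subset.refl _) hx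
  refine ⟨?_, TP1b_E hF hF' hA hFF hx y⟩
  change (I.H.Adj x y ∧ ∀ D ∈ F, ¬ (x ∈ D ∧ y ∈ D)) ↔
    (I'.H.Adj x y ∧ ∀ D ∈ F', ¬ (x ∈ D ∧ y ∈ D))
  constructor
  · rintro ⟨h1, h2⟩
    exact ⟨(hA x hx' y).1.1 h1, fun D hD hh => h2 D ((hFF x hx' D hh.1).2 hD) hh⟩
  · rintro ⟨h1, h2⟩
    exact ⟨(hA x hx' y).1.2 h1, fun D hD hh => h2 D ((hFF x hx' D hh.1).1 hD) hh⟩
end TP1b

end Pool.MP405d56
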