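import Pool.Agent.Lib.MP_405d56_lc.O2.TP1b

/-!
# MP_405d56_lc, outer process, row TP2: darts of the united classes
-/

open Set

namespace Pool.MP405d56

variable {V : Type}

section TP2
variable {I : Inp V} {L j : ℕ} {F : Set (Set V)} {x y : V}

/-- the darts of the new class and the inner darts of the lump -/
theorem TP2_count [Finite V] (hF : Fam L j I F) {D : Set V} (hD : D ∈ F) {u : V} (hu : u ∈ D)
    (hxu : I.E x u) :
    (I.plus F).w x + e2 I.H D ≤ ∑ v ∈ (Set.toFinite D).toFinset, I.w v := by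
  classical
  have hdis : Disjoint {p : V × V | (I.plus F).E x p.1 ∧ (I.plus F).H.Adj p.1 p.2}
      {p : V × V | p.1 ∈ D ∧ p.2 ∈ D ∧ I.H.Adj p.1 p.2} := by
    rw [Set.disjoint_left]
    rintro ⟨a, b⟩ ⟨_, h1⟩ ⟨h2, h3, _⟩
    exact h1.2 D hD ⟨h2, h3⟩
  have h1 : (I.plus F).w x + e2 I.H D =
      ({p : V × V | (I.plus F).E x p.1 ∧ (I.plus F).H.Adj p.1 p.2} ∪
        {p : V × V | p.1 ∈ D ∧ p.2 ∈ D ∧ I.H.Adj p.1 p.2}).ncard := by
    rw [Set.ncard_union_eq hdis (Set.toFinite _) (Set.toFinite _)]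
    rfl
  rw [h1]
  have h2 : ({p : V × V | (I.plus F).E x p.1 ∧ (I.plus F).H.Adj p.1 p.2} ∪
        {p : V × V | p.1 ∈ D ∧ p.2 ∈ D ∧ I.H.Adj p.1 p.2}) ⊆
      (((Set.toFinite D).toFinset.biUnion fun v =>
        (Set.toFinite {p : V × V | I.E v p.1 ∧ I.H.Adj p.1 p.2}).toFinset : Finset (V × V)) :
          Set (V × V)) := by
    rintro ⟨a, b⟩ h
    rw [Finset.mem_coe, Finset.mem_biUnion]
    rcases h with ⟨ha, hab⟩ | ⟨ha, hb, hab⟩
    · have hE : (I.plus F).E x a := ha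
      have hH : I.H.Adj a b := hab.1
      rcases (plus_E hF).1 hE with h | ⟨D', hD', u', hu', v', hv', h3, h4⟩
      · refine ⟨u, (Set.Finite.mem_toFinset _).2 hu, (Set.Finite.mem_toFinset _).2 ⟨?_, hH⟩⟩
        exact I.eqv.trans (I.eqv.symm hxu) h
      · have hDD : D = D' := hF.disj D hD D' hD' ⟨u, hu, u', hu', I.eqv.trans (I.eqv.symm hxu) h3⟩
        subst hDD
        exact ⟨v', (Set.Finite.mem_toFinset _).2 hv', (Set.Finite.mem_toFinset _).2 ⟨h4, hH⟩⟩
    · exact ⟨a, (Set.Finite.mem_toFinset _).2 ha,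
        (Set.Finite.mem_toFinset _).2 ⟨I.eqv.refl a, hab⟩⟩
  refine (Set.ncard_le_ncard h2 (Finset.finite_toSet _)).trans ?_
  rw [Set.ncard_coe_finset]
  refine Finset.card_biUnion_le.trans (Finset.sum_le_sum fun v _ => ?_)
  rw [← Set.ncard_eq_toFinset_card]
  exact le_rfl

/-- A united class has at most `j - 1` darts. -/
theorem plus_w_lump [Finite V] (hF : Fam L j I F) (hle : ∀ x, I.w x ≤ j + 1)
    (hfar : ∀ x y, I.w x = j + 1 → I.w y = j + 1 → I.near L x y → I.E x y)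
    {D : Set V} (hD : D ∈ F) {u : V} (hu : u ∈ D) (hxu : I.E x u) : (I.plus F).w x + 1 ≤ j := by
  classical
  have h1 := TP2_count hF hD hu hxu
  have hl := hF.lump D hD
  have h2 : ∑ v ∈ (Set.toFinite D).toFinset, I.w v ≤ j * D.ncard + 1 := by
    have h3 : ∀ v ∈ (Set.toFinite D).toFinset, I.w v ≤ j + if I.w v = j + 1 then 1 else 0 := by
      intro v _
      have := hle v
      split_ifs with h
      · omega
      · omega
    refine (Finset.sum_le_sum h3).trans ?_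
    rw [Finset.sum_add_distrib, Finset.sum_const, smul_eq_mul, ← Finset.card_filter,
      ← Set.ncard_eq_toFinset_card, Nat.mul_comm]
    refine Nat.add_le_add_left (Finset.card_le_one.2 ?_) _
    intro a ha b hb
    rw [Finset.mem_filter, Set.Finite.mem_toFinset] at ha hb
    exact hl.one a ha.1 b hb.1 (hfar a b ha.2 hb.2 (hl.small a ha.1 b hb.1))
  have h4 := hl.dense
  omega

theorem free_of_must [Finite V] (hF : Fam L j I F) (hle : ∀ x, I.w x ≤ j + 1)
    (hfar : ∀ x y, I.w x = j + 1 → I.w y = j + 1 → I.near L x y → I.E x y)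
    (hx : j ≤ (I.plus F).w x) : ∀ D ∈ F, ∀ u ∈ D, ¬ I.E x u := by
  intro D hD u hu hxu
  have := plus_w_lump hF hle hfar hD hu hxu
  omega

theorem plus_w_le [Finite V] (hF : Fam L j I F) (hle : ∀ x, I.w x ≤ j + 1)
    (hfar : ∀ x y, I.w x = j + 1 → I.w y = j + 1 → I.near L x y → I.E x y) (x : V) :
    (I.plus F).w x ≤ j + 1 := by
  by_cases h : ∃ D ∈ F, ∃ u ∈ D, I.E x u
  · obtain ⟨D, hD, u, hu, hxu⟩ := h
    have := plus_w_lump hF hle hfar hD hu hxu
    omega
  · push Not at h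
    rw [(plus_free hF h).2.2]
    exact hle x
end TP2

end Pool.MP405d56
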