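import Pool.Agent.Lib.MP_405d56_lc.O2.TP2
open Set
namespace Pool.MP405d56

variable {V : Type}
variable {I : Inp V} {L j n N d : ℕ} {F : Set (Set V)}

theorem TP3_biUnion_card [Finite V] (A : Set V) (f : V → Set V) (k : ℕ)
    (hf : ∀ a ∈ A, (f a).ncard ≤ k) : (⋃ a ∈ A, f a).ncard ≤ A.ncard * k := by
  classical
  have := Fintype.ofFinite V
  have h1 : (⋃ a ∈ A, f a) = ((Finset.univ.filter (fun a => a ∈ A)).biUnion
      (fun a => Finset.univ.filter (fun y => y ∈ f a)) : Finset V) := by
    ext y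
    simp
  have h2 : A = ((Finset.univ.filter (fun a => a ∈ A)) : Finset V) := by
    ext y
    simp
  rw [h1, Set.ncard_coe_finset]
  have h3 : A.ncard = (Finset.univ.filter (fun a => a ∈ A)).card := by
    conv_lhs => rw [h2]
    rw [Set.ncard_coe_finset]
  rw [h3]
  apply Finset.card_biUnion_le_card_mul
  intro a ha
  have ha' : a ∈ A := (Finset.mem_filter.1 ha).2
  have h4 : f a = ((Finset.univ.filter (fun y => y ∈ f a)) : Finset V) := by
    ext y
    simp
  have h5 := hf a ha'
  rw [h4, Set.ncard_coe_finset] at h5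
  exact h5

theorem ball_card [Finite V] (hN : I.Sz N) (hd : ∀ x, dg I.H x ≤ d) (x : V) :
    {y | I.near n x y}.ncard ≤ (N + d + 1) ^ n := by
  induction n with
  | zero =>
    have h1 : {y | I.near 0 x y} = {x} := by
      ext y
      simp only [Set.mem_ofPred_eq, Set.mem_singleton_iff, Inp.near_zero]
      exact eq_comm
    rw [h1, Set.ncard_singleton]
    simp
  | succ n ih =>
    have h1 : {y | I.near (n + 1) x y} ⊆
        ⋃ z ∈ {z | I.near n x z}, ({y | I.E z y} ∪ {y | I.H.Adj z y}) := by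
      intro y hy
      simp only [Set.mem_iUnion, Set.mem_union, Set.mem_ofPred_eq, exists_prop]
      rcases Inp.near_succ.1 hy with h | ⟨z, h, hz⟩
      · exact ⟨y, h, Or.inl (I.eqv.refl y)⟩
      · exact ⟨z, h, hz.2.symm⟩
    refine (Set.ncard_le_ncard h1 (Set.toFinite _)).trans ?_
    refine (TP3_biUnion_card _ _ (N + d + 1) ?_).trans ?_
    · intro z _
      refine (Set.ncard_union_le _ _).trans ?_
      have := hN z
      have h2 : {y | I.H.Adj z y}.ncard ≤ d := hd z
      omega
    · rw [pow_succ]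
      exact Nat.mul_le_mul_right _ ih

theorem plus_size [Finite V] (hF : Fam L j I F) (hN : I.Sz N) (hd : ∀ x, dg I.H x ≤ d) :
    (I.plus F).Sz (N * (N + d + 1) ^ L + N) := by
  intro x
  by_cases h : ∃ D ∈ F, ∃ u ∈ D, I.E x u
  · obtain ⟨D, hD, u, hu, hxu⟩ := h
    have h1 : {y | (I.plus F).E x y} ⊆ {y | I.E x y} ∪ ⋃ v ∈ D, {y | I.E v y} := by
      intro y hy
      rcases (plus_E hF).1 hy with h | ⟨D', hD', u', hu', v', hv', hxu', hvy⟩
      · exact Or.inl h
      · right
        have hDD : D' = D :=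
          hF.disj D' hD' D hD ⟨u', hu', u, hu, I.eqv.trans (I.eqv.symm hxu') hxu⟩
        subst hDD
        simp only [Set.mem_iUnion, Set.mem_ofPred_eq, exists_prop]
        exact ⟨v', hv', hvy⟩
    refine (Set.ncard_le_ncard h1 (Set.toFinite _)).trans ?_
    refine (Set.ncard_union_le _ _).trans ?_
    have h2 := TP3_biUnion_card D (fun v => {y | I.E v y}) N (fun v _ => hN v)
    have h3 : D.ncard ≤ (N + d + 1) ^ L := by
      refine le_trans (Set.ncard_le_ncard ?_ (Set.toFinite _)) (ball_card hN hd u)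
      intro v hv
      exact (hF.lump D hD).small u hu v hv
    have h4 := hN x
    have h5 : D.ncard * N ≤ (N + d + 1) ^ L * N := Nat.mul_le_mul_right _ h3
    rw [mul_comm N]
    omega
  · refine (Set.ncard_le_ncard ?_ (Set.toFinite _)).trans ((hN x).trans (Nat.le_add_left _ _))
    intro y hy
    rcases (plus_E hF).1 hy with h' | ⟨D', hD', u', hu', v', hv', hxu', hvy⟩
    · exact h'
    · exact (h ⟨D', hD', u', hu', hxu'⟩).elim

end Pool.MP405d56
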