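import Pool.Agent.Lib.MP_405d56_lc.O2.TG3

/-!
# MP_405d56_lc, outer process, row TT1: degrees and weights, basic facts
-/

open Set

namespace Pool.MP405d56

variable {V : Type}

section TT1
variable {J : Inp V} {j : ℕ}

theorem pos_congr {x y : V} (h : J.E x y) : J.pos x = J.pos y := by
  ext z
  constructor
  · rintro ⟨h1, h2⟩
    exact ⟨J.eqv.trans (J.eqv.symm h) h1, h2⟩
  · rintro ⟨h1, h2⟩
    exact ⟨J.eqv.trans h h1, h2⟩

/-- the first base point -/
theorem TT1_b1_mem {x : V} (h : (J.pos x).Nonempty) : J.b1 x ∈ J.pos x := pick_mem h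

/-- the second base point -/
theorem TT1_b2_mem {x : V} (h : (J.pos x \ {J.b1 x}).Nonempty) : J.b2 x ∈ J.pos x \ {J.b1 x} :=
  pick_mem h

/-- number of absorbers. PROOF: `b1 x ∈ pos x`, and `b2 x ∈ pos x \ {b1 x}` if this set is nonempty. -/
theorem abs_card [Finite V] {x : V} (hx : x ∈ J.pos x) :
    (j ≤ J.w x → {y | J.abs j x y}.ncard + 1 = (J.pos x).ncard) ∧
    (J.w x < j → {y | J.abs j x y}.ncard = (J.pos x).ncard - 2) := by
  have hb1 : J.b1 x ∈ J.pos x := TT1_b1_mem ⟨x, hx⟩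
  have h0 : (J.pos x \ {J.b1 x}).ncard + 1 = (J.pos x).ncard :=
    Set.ncard_sdiff_singleton_add_one hb1 (Set.toFinite _)
  constructor
  · intro hj
    have h1 : {y | J.abs j x y} = J.pos x \ {J.b1 x} := by
      ext y
      constructor
      · rintro ⟨_, h2, h3, _⟩
        exact ⟨h2, h3⟩
      · rintro ⟨h2, h3⟩
        exact ⟨hx, h2, h3, fun h => absurd h (not_lt.2 hj)⟩
    rw [h1, h0]
  · intro hj
    have h1 : {y | J.abs j x y} = (J.pos x \ {J.b1 x}) \ {J.b2 x} := by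
      ext y
      constructor
      · rintro ⟨_, h2, h3, h4⟩
        exact ⟨⟨h2, h3⟩, h4 hj⟩
      · rintro ⟨⟨h2, h3⟩, h4⟩
        exact ⟨hx, h2, h3, fun _ => h4⟩
    rw [h1]
    by_cases hne : (J.pos x \ {J.b1 x}).Nonempty
    · have h2 := Set.ncard_sdiff_singleton_add_one (TT1_b2_mem hne) (Set.toFinite _)
      omega
    · rw [Set.not_nonempty_iff_eq_empty] at hne
      rw [hne] at h0 ⊢
      simp only [Set.empty_sdiff, Set.ncard_empty] at h0 ⊢
      omega

/-- positive degree -/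
theorem TT1_dg_pos [Finite V] {x y : V} (hy : y ∈ J.pos x) : 1 ≤ dg J.H y := by
  obtain ⟨_, z, hz⟩ := hy
  unfold dg
  exact (Set.ncard_pos (Set.toFinite _)).2 ⟨z, hz⟩

theorem TT1_mem_pos [Finite V] {x y : V} (hE : J.E x y) (hy : dg J.H y ≠ 0) : y ∈ J.pos x := by
  refine ⟨hE, ?_⟩
  unfold dg at hy
  exact Set.nonempty_of_ncard_ne_zero hy

/-- the vertex of maximal degree -/
theorem TT1_v0_mem [Finite V] {x : V} (h : (J.pos x).Nonempty) :
    J.v0 x ∈ J.pos x ∧ ∀ z ∈ J.pos x, dg J.H z ≤ dg J.H (J.v0 x) := by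
  have h1 : {y | y ∈ J.pos x ∧ ∀ z ∈ J.pos x, dg J.H z ≤ dg J.H y}.Nonempty := by
    obtain ⟨y, hy, hm⟩ := Set.exists_max_image (J.pos x) (fun y => dg J.H y) (Set.toFinite _) h
    exact ⟨y, hy, hm⟩
  exact pick_mem h1

theorem TT1_v0_congr [Finite V] {x y : V} (h : J.E x y) (hne : (J.pos x).Nonempty) :
    J.v0 x = J.v0 y := by
  have h1 : {y | y ∈ J.pos x ∧ ∀ z ∈ J.pos x, dg J.H z ≤ dg J.H y}.Nonempty :=
    ⟨_, TT1_v0_mem hne⟩
  unfold Inp.v0
  rw [← pos_congr h]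
  exact pick_congr h1

open Classical in
/-- two different vertices of the class -/
theorem TT1_two [Finite V] {x y z : V} (hy : J.E x y) (hz : J.E x z) (hyz : y ≠ z) :
    dg J.H y + dg J.H z ≤ J.w x := by
  have := Fintype.ofFinite V
  unfold Inp.w
  rw [cnt_eq_sum, ← Finset.sum_pair hyz]
  apply Finset.sum_le_sum_of_subset
  intro u hu
  simp only [Finset.mem_insert, Finset.mem_singleton] at hu
  rcases hu with rfl | rfl
  · exact Finset.mem_filter.2 ⟨Finset.mem_univ _, hy⟩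
  · exact Finset.mem_filter.2 ⟨Finset.mem_univ _, hz⟩

theorem TT1_dgp_pos {x : V} (h : J.w x = j + 1 ∧ x = J.v0 x) : J.dgp j x = dg J.H x - 1 := by
  unfold Inp.dgp
  rw [if_pos h]

theorem TT1_dgp_neg {x : V} (h : ¬ (J.w x = j + 1 ∧ x = J.v0 x)) : J.dgp j x = dg J.H x := by
  unfold Inp.dgp
  rw [if_neg h]

/-- PROOF: `w x ≤ j + 1`, `v0` has maximal degree in its class. If `dg x = j + 1` then `w x = j + 1` and `x` is the only vertex of positive
degree of its class, so `x = v0 x`. -/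
theorem dgp_le [Finite V] (hle : ∀ x, J.w x ≤ j + 1) (x : V) : J.dgp j x ≤ j := by
  have h1 := dg_le_w J x
  have h2 := hle x
  by_cases h : J.w x = j + 1 ∧ x = J.v0 x
  · rw [TT1_dgp_pos h]
    omega
  · rw [TT1_dgp_neg h]
    by_contra hc
    have h3 : J.w x = j + 1 := by omega
    have h4 : x ≠ J.v0 x := fun h' => h ⟨h3, h'⟩
    have hx : x ∈ J.pos x := TT1_mem_pos (J.eqv.refl x) (by omega)
    obtain ⟨hv, _⟩ := TT1_v0_mem ⟨x, hx⟩
    have h5 := TT1_dg_pos hv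
    have h6 := TT1_two (J.eqv.refl x) hv.1 h4
    omega

open Classical in
/-- the darts of the class -/
theorem TT1_sum_pos [Fintype V] {x : V} (P : Finset V) (hP : (P : Set V) = J.pos x) :
    ∑ y ∈ P, dg J.H y = J.w x := by
  unfold Inp.w
  rw [cnt_eq_sum]
  apply Finset.sum_subset
  · intro y hy
    have h1 : y ∈ J.pos x := hP ▸ (Finset.mem_coe.2 hy)
    exact Finset.mem_filter.2 ⟨Finset.mem_univ _, h1.1⟩
  · intro y hy hn
    by_contra hc
    have h1 := TT1_mem_pos (Finset.mem_filter.1 hy).2 hc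
    rw [← hP] at h1
    exact hn (Finset.mem_coe.1 h1)

/-- `deg'` sums up to `j` on an obligatory class. PROOF: `cnt_eq_sum`; vertices of the class outside `pos` have degree 0; a special
class contains exactly one vertex equal to its `v0` (`v0 x = v0 y` for `J.E x y`, `pos x ≠ ∅`), its degree is positive. -/
theorem sum_dgp [Fintype V] [DecidableEq V] (hle : ∀ x, J.w x ≤ j + 1) {x : V} (hx : x ∈ J.pos x)
    (hm : j ≤ J.w x) (P : Finset V) (hP : (P : Set V) = J.pos x) : ∑ y ∈ P, J.dgp j y = j := by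
  have hPm : ∀ y ∈ P, y ∈ J.pos x := fun y hy => hP ▸ (Finset.mem_coe.2 hy)
  have hsum := TT1_sum_pos P hP
  have hw : ∀ y ∈ P, J.w y = J.w x := fun y hy => (w_congr J (hPm y hy).1).symm
  rcases Nat.lt_or_ge j (J.w x) with h | h
  · have h1 : J.w x = j + 1 := le_antisymm (hle x) h
    obtain ⟨hv, _⟩ := TT1_v0_mem ⟨x, hx⟩
    have hvP : J.v0 x ∈ P := by
      rw [← hP] at hv
      exact Finset.mem_coe.1 hv
    have h2 : J.dgp j (J.v0 x) + 1 = dg J.H (J.v0 x) := by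
      rw [TT1_dgp_pos ⟨(hw _ hvP).trans h1, (TT1_v0_congr hv.1 ⟨x, hx⟩)⟩]
      have := TT1_dg_pos hv
      omega
    have h3 : ∑ y ∈ P.erase (J.v0 x), J.dgp j y = ∑ y ∈ P.erase (J.v0 x), dg J.H y := by
      apply Finset.sum_congr rfl
      intro y hy
      obtain ⟨hy1, hy2⟩ := Finset.mem_erase.1 hy
      apply TT1_dgp_neg
      rintro ⟨_, h4⟩
      exact hy1 (h4.trans (TT1_v0_congr (hPm y hy2).1 ⟨x, hx⟩).symm)
    rw [← Finset.add_sum_erase P _ hvP] at hsum ⊢
    omega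
  · have h1 : J.w x = j := le_antisymm h hm
    refine Eq.trans (Finset.sum_congr rfl fun y hy => ?_) (hsum.trans h1)
    apply TT1_dgp_neg
    rintro ⟨h2, _⟩
    have := hw y hy
    omega

/-- PROOF: if the class has another vertex `y` of positive degree: not special: `dg x + dg y ≤ j`. Special: if `x = v0` then
`dgp x = dg x - 1 ≤ (j + 1 - dg y) - 1`. If `x ≠ v0`: `2 dg x ≤ dg x + dg v0 ≤ j + 1` so `dg x ≤ (j + 1) / 2 ≤ j - 1` for `j ≥ 2`. -/
theorem dgp_lt [Finite V] (hj : 2 ≤ j) (hle : ∀ x, J.w x ≤ j + 1) {x y : V} (hx : x ∈ J.pos x)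
    (hy : y ∈ J.pos x) (hxy : x ≠ y) : J.dgp j x + 1 ≤ j := by
  have h1 := TT1_two (J.eqv.refl x) hy.1 hxy
  have h2 := TT1_dg_pos hy
  have h3 := hle x
  by_cases h : J.w x = j + 1 ∧ x = J.v0 x
  · rw [TT1_dgp_pos h]
    omega
  · rw [TT1_dgp_neg h]
    by_cases h4 : J.w x = j + 1
    · have h5 : x ≠ J.v0 x := fun h' => h ⟨h4, h'⟩
      obtain ⟨hv, hmax⟩ := TT1_v0_mem ⟨x, hx⟩
      have h6 := TT1_two (J.eqv.refl x) hv.1 h5
      have h7 := hmax x hx
      omega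
    · omega
end TT1

end Pool.MP405d56
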