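import Pool.Agent.Lib.MP_405d56_lc.O2.TT9

open Set

namespace Pool.MP405d56

variable {V : Type}

section TT10
variable [Fintype V] [DecidableEq V] {J : Inp V} {j t r : ℕ} {Fb : Set V} {N : SimpleGraph V}

theorem slk_nonneg (hj : 2 ≤ j) (hle : ∀ x, J.w x ≤ j + 1) (S : Finset (V ⊕ V))
    (𝒟 : Finset (Finset (V ⊕ V))) (s : V ⊕ V) : 0 ≤ slk J j S 𝒟 s := by
  unfold slk
  have h1 := xw_sum_le hj hle s
  have h2 : 0 ≤ ∑ w ∈ (S ∪ 𝒟.biUnion id)ᶜ, J.xw j s w :=
    Finset.sum_nonneg fun w _ => xw_nonneg hj hle s w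
  have h3 : 0 ≤ ∑ t ∈ S, J.xw j s t := Finset.sum_nonneg fun w _ => xw_nonneg hj hle s w
  linarith

theorem TT10_out (hj : 2 ≤ j) (hle : ∀ x, J.w x ≤ j + 1) (S : Finset (V ⊕ V))
    (𝒟 : Finset (Finset (V ⊕ V))) (s b : V ⊕ V) (hb : b ∉ S ∪ 𝒟.biUnion id)
    (h : (J.gad j).Adj s b) : 1 / (j : ℝ) ^ 2 ≤ slk J j S 𝒟 s := by
  unfold slk
  have h1 := xw_sum_le hj hle s
  have h0 := xw_ge hj hle h
  have h2 : J.xw j s b ≤ ∑ w ∈ (S ∪ 𝒟.biUnion id)ᶜ, J.xw j s w :=
    Finset.single_le_sum (f := fun w => J.xw j s w) (fun w _ => xw_nonneg hj hle s w)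
      (Finset.mem_compl.mpr hb)
  have h3 : 0 ≤ ∑ t ∈ S, J.xw j s t := Finset.sum_nonneg fun w _ => xw_nonneg hj hle s w
  linarith

theorem TT10_in (hj : 2 ≤ j) (hle : ∀ x, J.w x ≤ j + 1) (S : Finset (V ⊕ V))
    (𝒟 : Finset (Finset (V ⊕ V))) (s b : V ⊕ V) (hb : b ∈ S)
    (h : (J.gad j).Adj s b) : 1 / (j : ℝ) ^ 2 ≤ slk J j S 𝒟 s := by
  unfold slk
  have h1 := xw_sum_le hj hle s
  have h0 := xw_ge hj hle h
  have h2 : 0 ≤ ∑ w ∈ (S ∪ 𝒟.biUnion id)ᶜ, J.xw j s w :=
    Finset.sum_nonneg fun w _ => xw_nonneg hj hle s w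
  have h3 : J.xw j s b ≤ ∑ t ∈ S, J.xw j s t :=
    Finset.single_le_sum (f := fun w => J.xw j s w) (fun w _ => xw_nonneg hj hle s w) hb
  linarith

theorem TT10_other (hj : 2 ≤ j) (hle : ∀ x, J.w x ≤ j + 1) (S : Finset (V ⊕ V))
    (𝒟 : Finset (Finset (V ⊕ V))) (s : V ⊕ V)
    (h1 : ∀ x, s = Sum.inl x → x ∈ J.pos x → J.w x < j)
    (h2 : ∀ x y, s = Sum.inr y → ¬ J.abs j x y) : 1 / (j : ℝ) ^ 2 ≤ slk J j S 𝒟 s := by
  unfold slk
  have h := xw_sum_other hj hle s h1 h2
  have h0 := exc_nonneg (J := J) (j := j) s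
  have h4 : 0 ≤ ∑ w ∈ (S ∪ 𝒟.biUnion id)ᶜ, J.xw j s w :=
    Finset.sum_nonneg fun w _ => xw_nonneg hj hle s w
  have h3 : 0 ≤ ∑ t ∈ S, J.xw j s t := Finset.sum_nonneg fun w _ => xw_nonneg hj hle s w
  linarith

omit [Fintype V] [DecidableEq V] in
/-- the first base point is the same for all points of a class with vertices of positive degree -/
theorem TT10_b1 {x y : V} (h : J.pos x = J.pos y) (hne : (J.pos x).Nonempty) :
    J.b1 x = J.b1 y := by
  unfold Inp.b1
  rw [← h]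
  exact pick_congr hne

omit [Fintype V] [DecidableEq V] in
theorem TT10_pos_self {x y : V} (hy : y ∈ J.pos x) : y ∈ J.pos y :=
  ⟨J.eqv.refl y, hy.2⟩

/-- an absorber of a class is an absorber at its own vertex -/
theorem TT10_abs_self {x y : V} (h : J.abs j x y) (hm : j ≤ J.w x) :
    J.abs j y y ∧ j ≤ J.w y := by
  obtain ⟨hx, hy, hb1, -⟩ := h
  have hE : J.E x y := hy.1
  have hp : J.pos x = J.pos y := pos_congr hE
  have hw : J.w x = J.w y := w_congr J hE
  refine ⟨⟨TT10_pos_self hy, TT10_pos_self hy, ?_, ?_⟩, by rw [← hw]; exact hm⟩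
  · rw [← TT10_b1 hp ⟨x, hx⟩]
    exact hb1
  · intro hlt
    rw [← hw] at hlt
    omega

theorem slack_near (hj : 2 ≤ j) (hle : ∀ x, J.w x ≤ j + 1) (hN : IsNet J t Fb N)
    (R S : Finset (V ⊕ V)) (hR : ∀ a, a ∈ R ↔ a ∈ reqN J j N) (𝒟 : Finset (Finset (V ⊕ V)))
    (hpart : ∀ D ∈ 𝒟, IsBarrierPart (J.gad j) R S D) (y : V ⊕ V) (hy : y ∈ S ∪ 𝒟.biUnion id)
    {n n' : V} (hnn : N.Adj n n') (hn : J.near r (prj y) n) :
    ∃ s ∈ S, J.near (r + 3) (prj y) (prj s) ∧ 1 / (j : ℝ) ^ 2 ≤ slk J j S 𝒟 s := by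
  by_contra hcon
  push Not at hcon
  have hcon' : ∀ s ∈ S, J.near (r + 2) (prj y) (prj s) → ¬ 1 / (j : ℝ) ^ 2 ≤ slk J j S 𝒟 s :=
    fun s hs hn h => absurd h (not_le.mpr (hcon s hs (Inp.near_mono (by omega) hn)))
  -- points outside of `S` in `Y` are required
  have hreq : ∀ a, a ∈ S ∪ 𝒟.biUnion id → a ∉ S → a ∈ R := by
    intro a ha haS
    rcases Finset.mem_union.mp ha with h | h
    · exact absurd h haS
    · rw [Finset.mem_biUnion] at h
      obtain ⟨K, hK, haK⟩ := h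
      exact (hpart K hK).sub haK
  -- Claim A
  have claimA : ∀ a, a ∈ S ∪ 𝒟.biUnion id → J.near (r + 2) (prj y) (prj a) →
      ((∃ x, a = Sum.inl x ∧ x ∈ J.pos x ∧ j ≤ J.w x) ∨
        (∃ y', a = Sum.inr y' ∧ J.abs j y' y' ∧ j ≤ J.w y')) ∧
      ∀ b, (J.gad j).Adj a b → b ∈ S ∪ 𝒟.biUnion id := by
    intro a ha hna
    by_cases haS : a ∈ S
    · have hslk := hcon' a haS hna
      have hnb : ∀ b, (J.gad j).Adj a b → b ∈ S ∪ 𝒟.biUnion id := by
        intro b hb
        by_contra hbY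
        exact hslk (TT10_out hj hle S 𝒟 a b hbY hb)
      refine ⟨?_, hnb⟩
      by_contra hno
      push Not at hno
      obtain ⟨hno1, hno2⟩ := hno
      apply hslk
      apply TT10_other hj hle S 𝒟 a
      · intro x hx hpos
        exact hno1 x hx hpos
      · intro x y' hy' habs
        by_cases hm : j ≤ J.w x
        · obtain ⟨h1, h2⟩ := TT10_abs_self habs hm
          have := hno2 y' hy' h1
          omega
        · -- absorber of a class which is not obligatory
          have hadj : (J.gad j).Adj a (Sum.inl x) := by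
            rw [hy']
            exact habs
          have hxY := hnb _ hadj
          have hxR : (Sum.inl x : V ⊕ V) ∉ R := by
            rw [hR]
            intro h
            exact hm h.1.2
          have hxS : (Sum.inl x : V ⊕ V) ∈ S := by
            by_contra h
            exact hxR (hreq _ hxY h)
          exact hslk (TT10_in hj hle S 𝒟 a _ hxS hadj)
    · rcases Finset.mem_union.mp ha with h | h
      · exact absurd h haS
      · rw [Finset.mem_biUnion] at h
        obtain ⟨K, hK, haK⟩ := h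
        have haK' : a ∈ K := haK
        have hclosed : ∀ b, (J.gad j).Adj a b → b ∈ S ∪ 𝒟.biUnion id := by
          intro b hb
          rcases (hpart K hK).closed a haK' b hb with h | h
          · exact Finset.mem_union_right _ (Finset.mem_biUnion.mpr ⟨K, hK, h⟩)
          · exact Finset.mem_union_left _ h
        refine ⟨?_, hclosed⟩
        have haR : a ∈ reqN J j N := (hR a).mp ((hpart K hK).sub haK')
        have har : a ∈ J.req j := haR.1
        cases a with
        | inl x => exact Or.inl ⟨x, rfl, har.1, har.2⟩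
        | inr y' =>
          have har' : y' ∈ J.pos y' ∧ y' ≠ J.b1 y' ∧ y' ≠ J.b2 y' := har
          obtain ⟨h1, h2, h3⟩ := har'
          have habs : J.abs j y' y' := ⟨h1, h1, h2, fun _ => h3⟩
          refine Or.inr ⟨y', rfl, habs, ?_⟩
          by_contra hm
          have hadj : (J.gad j).Adj (Sum.inr y') (Sum.inl y') := habs
          have hxY := hclosed _ hadj
          have hxR : (Sum.inl y' : V ⊕ V) ∉ R := by
            rw [hR]
            intro h
            exact hm h.1.2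
          have hxS : (Sum.inl y' : V ⊕ V) ∈ S := by
            by_contra h
            exact hxR (hreq _ hxY h)
          apply hcon' (Sum.inl y') hxS hna
          apply TT10_other hj hle S 𝒟
          · intro x hx hpos
            have : y' = x := Sum.inl.inj hx
            rw [← this]
            omega
          · intro x y'' h
            cases h
  -- spreading in a class
  have spread : ∀ v u v', J.near r (prj y) v → J.E v u → J.E v v' →
      (Sum.inl u : V ⊕ V) ∈ S ∪ 𝒟.biUnion id → v' ∈ J.pos v' →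
      (Sum.inl v' : V ⊕ V) ∈ S ∪ 𝒟.biUnion id := by
    intro v u v' hv hu hv' huY hpos'
    by_cases huv : u = v'
    · rw [← huv]; exact huY
    have hnear : ∀ a, J.E v a → J.near (r + 2) (prj y) a := fun a ha =>
      Inp.near_mono (by omega) (Inp.near_trans hv (Inp.near_E ha))
    obtain ⟨hA1, hA2⟩ := claimA (Sum.inl u) huY (hnear u hu)
    have hob : u ∈ J.pos u ∧ j ≤ J.w u := by
      rcases hA1 with ⟨x, hx, h1, h2⟩ | ⟨y', hy', -⟩
      · have : u = x := Sum.inl.inj hx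
        rw [this]; exact ⟨h1, h2⟩
      · cases hy'
    have hEuv : J.E u v' := J.eqv.trans (J.eqv.symm hu) hv'
    have hp : J.pos u = J.pos v' := pos_congr hEuv
    have hb1 : J.b1 u = J.b1 v' := TT10_b1 hp ⟨u, hob.1⟩
    have hw : J.w u = J.w v' := w_congr J hEuv
    -- an absorber
    obtain ⟨a, ha1, ha2, ha3⟩ : ∃ a, a ∈ J.pos u ∧ a ≠ J.b1 u ∧ J.E v a := by
      by_cases h : u = J.b1 u
      · refine ⟨v', by rw [hp]; exact hpos', ?_, hv'⟩
        intro h'
        exact huv (h.trans h'.symm)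
      · exact ⟨u, hob.1, h, hu⟩
    have habsu : J.abs j u a := ⟨hob.1, ha1, ha2, fun h => absurd hob.2 (not_le.mpr h)⟩
    have habsv : J.abs j v' a := by
      refine ⟨hpos', by rw [← hp]; exact ha1, by rw [← hb1]; exact ha2, fun h => ?_⟩
      rw [← hw] at h
      exact absurd hob.2 (not_le.mpr h)
    have haY : (Sum.inr a : V ⊕ V) ∈ S ∪ 𝒟.biUnion id := hA2 _ habsu
    obtain ⟨-, hB2⟩ := claimA (Sum.inr a) haY (hnear a ha3)
    exact hB2 _ habsv
  -- Claim B
  have claimB : ∀ m, m ≤ r → ∀ v, J.near m (prj y) v →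
      (∃ u, J.E v u ∧ (Sum.inl u : V ⊕ V) ∈ S ∪ 𝒟.biUnion id) ∧
      ∀ v', J.E v v' → v' ∈ J.pos v' → (Sum.inl v' : V ⊕ V) ∈ S ∪ 𝒟.biUnion id := by
    intro m
    induction m with
    | zero =>
      intro _ v hv
      rw [Inp.near_zero] at hv
      have hvr : J.near r (prj y) v := by rw [← hv]; exact Inp.near_refl J r _
      obtain ⟨hA1, hA2⟩ := claimA y hy (Inp.near_refl J _ _)
      have hex : ∃ u, J.E v u ∧ (Sum.inl u : V ⊕ V) ∈ S ∪ 𝒟.biUnion id := by
        rcases hA1 with ⟨x, hx, -⟩ | ⟨y', hy', habs, -⟩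
        · refine ⟨x, ?_, by rw [← hx]; exact hy⟩
          rw [← hv, hx]
          exact J.eqv.refl x
        · refine ⟨y', ?_, ?_⟩
          · rw [← hv, hy']
            exact J.eqv.refl y'
          · apply hA2
            rw [hy']
            exact habs
      obtain ⟨u, hu, huY⟩ := hex
      exact ⟨⟨u, hu, huY⟩, fun v' hv' hp => spread v u v' hvr hu hv' huY hp⟩
    | succ m ih =>
      intro hm v hv
      rcases Inp.near_succ.mp hv with h | ⟨z, hz, hQ⟩
      · exact ih (by omega) v h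
      · obtain ⟨⟨u, hu, huY⟩, hall⟩ := ih (by omega) z hz
        rcases hQ.2 with hadj | hE
        · have hzpos : z ∈ J.pos z := ⟨J.eqv.refl z, v, hadj⟩
          have hzY := hall z (J.eqv.refl z) hzpos
          obtain ⟨-, hA2⟩ := claimA (Sum.inl z) hzY (Inp.near_mono (by omega) hz)
          have hvY : (Sum.inl v : V ⊕ V) ∈ S ∪ 𝒟.biUnion id := hA2 _ hadj
          refine ⟨⟨v, J.eqv.refl v, hvY⟩, fun v' hv' hp => ?_⟩
          exact spread v v v' (Inp.near_mono hm hv) (J.eqv.refl v) hv' hvY hp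
        · refine ⟨⟨u, J.eqv.trans (J.eqv.symm hE) hu, huY⟩, fun v' hv' hp => ?_⟩
          exact hall v' (J.eqv.trans hE hv') hp
  -- the net edge
  have hHn : J.H.Adj n n' := hN.sub hnn
  have hnY : (Sum.inl n : V ⊕ V) ∈ S ∪ 𝒟.biUnion id :=
    (claimB r le_rfl n hn).2 n (J.eqv.refl n) ⟨J.eqv.refl n, n', hHn⟩
  have hn'Y : (Sum.inl n' : V ⊕ V) ∈ S ∪ 𝒟.biUnion id :=
    (claimA (Sum.inl n) hnY (Inp.near_mono (by omega) hn)).2 _ hHn
  have hnR : (Sum.inl n : V ⊕ V) ∉ R := by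
    rw [hR]
    intro h
    exact h.2 n n' hnn rfl
  have hn'R : (Sum.inl n' : V ⊕ V) ∉ R := by
    rw [hR]
    intro h
    exact h.2 n' n hnn.symm rfl
  have hnS : (Sum.inl n : V ⊕ V) ∈ S := by
    by_contra h
    exact hnR (hreq _ hnY h)
  have hn'S : (Sum.inl n' : V ⊕ V) ∈ S := by
    by_contra h
    exact hn'R (hreq _ hn'Y h)
  exact hcon' (Sum.inl n) hnS (Inp.near_mono (by omega) hn)
    (TT10_in hj hle S 𝒟 (Sum.inl n) (Sum.inl n') hn'S hHn)
end TT10

end Pool.MP405d56
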