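import Pool.Agent.Lib.MP_405d56_lc.O2.TT10
open Set
namespace Pool.MP405d56

variable {V : Type}

/-- the set of the vertices of maximal degree of a special class is not empty -/
theorem TT11_max_ne [Finite V] {J : Inp V} {j : ℕ} {x : V} (hx : J.w x = j + 1) :
    {y | y ∈ J.pos x ∧ ∀ z ∈ J.pos x, dg J.H z ≤ dg J.H y}.Nonempty := by
  have hne : (J.pos x).Nonempty := by
    unfold Inp.w cnt at hx
    have h1 : {p : V × V | J.E x p.1 ∧ J.H.Adj p.1 p.2}.Nonempty := by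
      rw [Set.nonempty_iff_ne_empty]
      intro h
      rw [h, Set.ncard_empty] at hx
      omega
    obtain ⟨p, hp1, hp2⟩ := h1
    exact ⟨p.1, hp1, p.2, hp2⟩
  obtain ⟨y, hy, hmax⟩ := Set.exists_max_image (J.pos x) (fun y => dg J.H y) (Set.toFinite _) hne
  exact ⟨y, hy, hmax⟩

theorem TT11_exc {J : Inp V} {j : ℕ} {a : V ⊕ V} (h : 0 < J.exc j a) :
    ∃ x, a = Sum.inl x ∧ J.w x = j + 1 ∧ x = J.v0 x := by
  rcases a with x | y
  · refine ⟨x, rfl, ?_⟩
    by_contra hc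
    have : J.exc j (Sum.inl x) = 0 := by
      unfold Inp.exc
      simp only
      rw [if_neg hc]
    rw [this] at h
    exact lt_irrefl _ h
  · have : J.exc j (Sum.inr y) = 0 := rfl
    rw [this] at h
    exact absurd h (lt_irrefl _)

theorem TT11_v0 [Finite V] {J : Inp V} {j : ℕ} {x : V} (hx : J.w x = j + 1) (hv : x = J.v0 x) :
    ∃ z, J.H.Adj x z := by
  have h1 := pick_mem (x := x) (TT11_max_ne hx)
  have h2 : J.v0 x ∈ J.pos x := h1.1
  rw [← hv] at h2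
  exact h2.2

theorem TT11_v0_congr [Finite V] {J : Inp V} {j : ℕ} {x y : V} (hx : J.w x = j + 1)
    (hxv : x = J.v0 x) (hyv : y = J.v0 y) (h : J.E x y) : x = y := by
  rw [hxv, hyv]
  unfold Inp.v0
  rw [← pos_congr h]
  exact pick_congr (TT11_max_ne hx)

/-- discrete intermediate value along a walk -/
theorem TT11_ivt {J : Inp V} {j : ℕ} {Y : Set (V ⊕ V)} (x0 : V) (d : ℕ) {a b : Y}
    (p : ((J.gad j).induce Y).Walk a b) (ha : J.near d x0 (prj a.1))
    (hb : ¬ J.near d x0 (prj b.1)) :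
    ∃ y : Y, J.near (d + 1) x0 (prj y.1) ∧ ¬ J.near d x0 (prj y.1) := by
  induction p with
  | nil => exact absurd ha hb
  | @cons u v w hadj p ih =>
    by_cases hv : J.near d x0 (prj v.1)
    · exact ih hv hb
    · exact ⟨v, Inp.near_trans ha (gad_near hadj), hv⟩

theorem TT11_reach {J : Inp V} {j : ℕ} {Y : Set (V ⊕ V)} {a b : Y}
    (p : ((J.gad j).induce Y).Walk a b) : J.Q.Reachable (prj a.1) (prj b.1) := by
  induction p with
  | nil => exact SimpleGraph.Reachable.refl _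
  | @cons u v w hadj p ih =>
    exact (Inp.near_reach (gad_near (show (J.gad j).Adj u.1 v.1 from hadj))).trans ih

theorem TT11_deg {J : Inp V} {j : ℕ} {a b : V ⊕ V} (h : (J.gad j).Adj a b) :
    ∃ z, J.H.Adj (prj a) z := by
  rcases a with x | y <;> rcases b with x' | y'
  · exact ⟨x', h⟩
  · have h1 : J.abs j x y' := h
    exact h1.1.2
  · have h1 : J.abs j x' y := h
    exact h1.2.1.2
  · exact absurd h (by intro h; exact h)

/-- an element of a connected set with another element has a neighbour -/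
theorem TT11_nbr {W : Type} {G : SimpleGraph W} {Y : Set W} (hc : (G.induce Y).Connected)
    {a b : W} (ha : a ∈ Y) (hb : b ∈ Y) (hab : a ≠ b) : ∃ c, G.Adj a c := by
  obtain ⟨p⟩ := hc.preconnected ⟨a, ha⟩ ⟨b, hb⟩
  cases p with
  | nil => exact absurd rfl hab
  | @cons u v w hadj p => exact ⟨v.1, hadj⟩

section TT11
variable [Fintype V] [DecidableEq V] {J : Inp V} {j t : ℕ} {Fb : Set V} {N : SimpleGraph V}

/-- one point with slack at distance about `d + 1` of `z` -/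
theorem TT11_point (hj : 2 ≤ j) (hle : ∀ x, J.w x ≤ j + 1) (hN : IsNet J t Fb N)
    (hsparse : ∀ x ∈ Fb, ∀ y ∈ Fb, J.near (T0 j t) x y → J.E x y)
    (R S : Finset (V ⊕ V)) (hR : ∀ a, a ∈ R ↔ a ∈ reqN J j N) (𝒟 : Finset (Finset (V ⊕ V)))
    (hpart : ∀ D ∈ 𝒟, IsBarrierPart (J.gad j) R S D)
    (hconn : ((J.gad j).induce ((S ∪ 𝒟.biUnion id : Finset (V ⊕ V)) : Set (V ⊕ V))).Connected)
    {x x' : V} (hx : Sum.inl x ∈ S) (hx' : Sum.inl x' ∈ S) (hdx : ∃ z, J.H.Adj x z)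
    (hdx' : ∃ z, J.H.Adj x' z) (hfar : ¬ J.near (T0 j t) x x') {d : ℕ} (hd : d ≤ T0 j t) :
    ∃ s ∈ S, 1 / (j : ℝ) ^ 2 ≤ slk J j S 𝒟 s ∧ J.near (d + 1 + (rho t + 3)) x (prj s) ∧
      ∀ m, m + (rho t + 3) ≤ d → ¬ J.near m x (prj s) := by
  have hxY : Sum.inl x ∈ ((S ∪ 𝒟.biUnion id : Finset (V ⊕ V)) : Set (V ⊕ V)) :=
    Finset.mem_coe.2 (Finset.mem_union_left _ hx)
  have hx'Y : Sum.inl x' ∈ ((S ∪ 𝒟.biUnion id : Finset (V ⊕ V)) : Set (V ⊕ V)) :=
    Finset.mem_coe.2 (Finset.mem_union_left _ hx')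
  obtain ⟨p⟩ := hconn.preconnected ⟨Sum.inl x, hxY⟩ ⟨Sum.inl x', hx'Y⟩
  have hne : x ≠ x' := by
    rintro rfl
    exact hfar (Inp.near_refl J _ x)
  obtain ⟨⟨y, hy⟩, hy1, hy2⟩ := TT11_ivt x d p (Inp.near_refl J _ x)
    (fun h => hfar (Inp.near_mono hd h))
  simp only at hy1 hy2
  -- `prj y` has positive degree
  have hdeg : ∃ z, J.H.Adj (prj y) z := by
    by_cases hyx : y = Sum.inl x
    · rw [hyx]; exact hdx
    · obtain ⟨c, hc⟩ := TT11_nbr hconn hy hxY hyx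
      exact TT11_deg hc
  obtain ⟨z, hz⟩ := hdeg
  have hs : ∀ x ∈ Fb, ∀ y ∈ Fb, J.near (2 * t + 10) x y → J.E x y := by
    intro a ha b hb hab
    refine hsparse a ha b hb (Inp.near_mono ?_ hab)
    unfold T0 rho
    omega
  rcases net_comp hN hs hz with ⟨n, n', hnn, hn⟩ | ⟨f, hf, hall⟩
  · obtain ⟨s, hsS, hs1, hs2⟩ := slack_near hj hle hN R S hR 𝒟 hpart y (Finset.mem_coe.1 hy) hnn hn
    refine ⟨s, hsS, hs2, Inp.near_trans hy1 hs1, ?_⟩
    intro m hm hms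
    apply hy2
    exact Inp.near_mono hm (Inp.near_trans hms (Inp.near_symm hs1))
  · exfalso
    obtain ⟨q⟩ := hconn.preconnected ⟨y, hy⟩ ⟨Sum.inl x, hxY⟩
    obtain ⟨q'⟩ := hconn.preconnected ⟨y, hy⟩ ⟨Sum.inl x', hx'Y⟩
    obtain ⟨u, hu⟩ := hdx
    obtain ⟨u', hu'⟩ := hdx'
    have h1 : J.near (t + 4) f x := hall x u (TT11_reach q) hu
    have h2 : J.near (t + 4) f x' := hall x' u' (TT11_reach q') hu'
    apply hfar
    refine Inp.near_mono ?_ (Inp.near_trans (Inp.near_symm h1) h2)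
    unfold T0 rho
    omega

theorem slack_total (hj : 2 ≤ j) (hle : ∀ x, J.w x ≤ j + 1) (hN : IsNet J t Fb N)
    (hspec : ∀ x, J.w x = j + 1 → x ∈ Fb)
    (hsparse : ∀ x ∈ Fb, ∀ y ∈ Fb, J.near (T0 j t) x y → J.E x y)
    (R S : Finset (V ⊕ V)) (hR : ∀ a, a ∈ R ↔ a ∈ reqN J j N) (𝒟 : Finset (Finset (V ⊕ V)))
    (hpart : ∀ D ∈ 𝒟, IsBarrierPart (J.gad j) R S D)
    (hconn : ((J.gad j).induce ((S ∪ 𝒟.biUnion id : Finset (V ⊕ V)) : Set (V ⊕ V))).Connected)
    (Z : Finset (V ⊕ V)) (hZ : Z ⊆ S) (hZe : ∀ s ∈ Z, 0 < J.exc j s) (h2 : 2 ≤ Z.card) :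
    (Z.card : ℝ) / j ≤ ∑ s ∈ S, slk J j S 𝒟 s := by
  classical
  -- distinct points of `Z` are far apart
  have hfar : ∀ x x' : V, Sum.inl x ∈ Z → Sum.inl x' ∈ Z → x ≠ x' → ¬ J.near (T0 j t) x x' := by
    intro x x' hx hx' hne hnear
    obtain ⟨a, ha, ha1, ha2⟩ := TT11_exc (hZe _ hx)
    obtain ⟨b, hb, hb1, hb2⟩ := TT11_exc (hZe _ hx')
    have ea : a = x := (Sum.inl.inj ha).symm
    have eb : b = x' := (Sum.inl.inj hb).symm
    subst ea
    subst eb
    exact hne (TT11_v0_congr ha1 ha2 hb2 (hsparse a (hspec a ha1) b (hspec b hb1) hnear))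
  have hdeg : ∀ x : V, Sum.inl x ∈ Z → ∃ z, J.H.Adj x z := by
    intro x hx
    obtain ⟨a, ha, ha1, ha2⟩ := TT11_exc (hZe _ hx)
    have ea : a = x := (Sum.inl.inj ha).symm
    subst ea
    exact TT11_v0 ha1 ha2
  have hinl : ∀ z ∈ Z, z = Sum.inl (prj z) := by
    intro z hz
    obtain ⟨a, ha, _⟩ := TT11_exc (hZe _ hz)
    rw [ha]
    rfl
  set ρ := rho t with hρ
  have hT0 : T0 j t = 4 * ((j + 2) * (2 * ρ + 10)) + 2 * ρ + 20 := rfl
  -- the points
  have hpt : ∀ z ∈ Z, ∀ i, i < j → ∃ s ∈ S, 1 / (j : ℝ) ^ 2 ≤ slk J j S 𝒟 s ∧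
      J.near ((i + 1) * (2 * ρ + 10) + (ρ + 3)) (prj z) (prj s) ∧
      ∀ m, m + (ρ + 3) + 1 ≤ (i + 1) * (2 * ρ + 10) → ¬ J.near m (prj z) (prj s) := by
    intro z hz i hi
    obtain ⟨z', hz', hzz'⟩ : ∃ z' ∈ Z, z' ≠ z := by
      obtain ⟨z', hz', hne⟩ := Finset.exists_mem_ne (by omega : 1 < Z.card) z
      exact ⟨z', hz', hne⟩
    have e1 := hinl z hz
    have e2 := hinl z' hz'
    have hzS : Sum.inl (prj z) ∈ S := by rw [← e1]; exact hZ hz
    have hz'S : Sum.inl (prj z') ∈ S := by rw [← e2]; exact hZ hz'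
    have hzZ : Sum.inl (prj z) ∈ Z := by rw [← e1]; exact hz
    have hz'Z : Sum.inl (prj z') ∈ Z := by rw [← e2]; exact hz'
    have hne : prj z ≠ prj z' := by
      intro h
      apply hzz'
      rw [e1, e2, h]
    have hmul : (i + 1) * (2 * ρ + 10) ≤ (j + 2) * (2 * ρ + 10) :=
      Nat.mul_le_mul_right _ (by omega)
    have hpos : 1 ≤ (i + 1) * (2 * ρ + 10) := Nat.mul_pos (by omega) (by omega)
    obtain ⟨s, hs, hs1, hs2, hs3⟩ := TT11_point hj hle hN hsparse R S hR 𝒟 hpart hconn hzS hz'S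
      (hdeg _ hzZ) (hdeg _ hz'Z) (hfar _ _ hzZ hz'Z hne) (d := (i + 1) * (2 * ρ + 10) - 1)
      (by rw [hT0]; omega)
    refine ⟨s, hs, hs1, ?_, ?_⟩
    · have e : (i + 1) * (2 * ρ + 10) - 1 + 1 = (i + 1) * (2 * ρ + 10) := by omega
      rw [e] at hs2
      exact hs2
    · intro m hm
      exact hs3 m (by omega)
  choose! g hgS hg1 hg2 hg3 using hpt
  let G : (V ⊕ V) × ℕ → V ⊕ V := fun q => g q.1 q.2
  have hinj : Set.InjOn G ((Z ×ˢ Finset.range j : Finset ((V ⊕ V) × ℕ)) : Set ((V ⊕ V) × ℕ)) := by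
    have haux : ∀ z ∈ Z, ∀ i i', i < j → i' < j → i < i' → g z i ≠ g z i' := by
      intro z hz i i' hi hi' hlt heq
      refine hg3 z hz i' hi' ((i + 1) * (2 * ρ + 10) + (ρ + 3)) ?_ ?_
      · have : (i + 2) * (2 * ρ + 10) ≤ (i' + 1) * (2 * ρ + 10) :=
          Nat.mul_le_mul_right _ (by omega)
        have h3 : (i + 2) * (2 * ρ + 10) = (i + 1) * (2 * ρ + 10) + (2 * ρ + 10) := by ring
        omega
      · rw [← heq]
        exact hg2 z hz i hi
    rintro ⟨z, i⟩ hq ⟨z', i'⟩ hq' heq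
    rw [Finset.mem_coe, Finset.mem_product, Finset.mem_range] at hq hq'
    obtain ⟨hz, hi⟩ := hq
    obtain ⟨hz', hi'⟩ := hq'
    simp only at hz hi hz' hi'
    have heq' : g z i = g z' i' := heq
    by_cases hzz : z = z'
    · subst hzz
      rcases lt_trichotomy i i' with h | h | h
      · exact absurd heq' (haux z hz i i' hi hi' h)
      · rw [h]
      · exact absurd heq'.symm (haux z hz i' i hi' hi h)
    · exfalso
      have e1 := hinl z hz
      have e2 := hinl z' hz'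
      have hne : prj z ≠ prj z' := by
        intro h
        apply hzz
        rw [e1, e2, h]
      refine hfar (prj z) (prj z') (by rw [← e1]; exact hz) (by rw [← e2]; exact hz') hne ?_
      have h1 := hg2 z hz i hi
      have h3 := hg2 z' hz' i' hi'
      rw [← heq'] at h3
      refine Inp.near_mono ?_ (Inp.near_trans h1 (Inp.near_symm h3))
      have m1 : (i + 1) * (2 * ρ + 10) ≤ (j + 2) * (2 * ρ + 10) :=
        Nat.mul_le_mul_right _ (by omega)
      have m2 : (i' + 1) * (2 * ρ + 10) ≤ (j + 2) * (2 * ρ + 10) :=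
        Nat.mul_le_mul_right _ (by omega)
      rw [hT0]
      omega
  have hsub : (Z ×ˢ Finset.range j).image G ⊆ S := by
    intro s hs
    rw [Finset.mem_image] at hs
    obtain ⟨⟨z, i⟩, hq, rfl⟩ := hs
    rw [Finset.mem_product, Finset.mem_range] at hq
    exact hgS z hq.1 i hq.2
  have hj0 : (0 : ℝ) < j := by
    have : (2 : ℝ) ≤ j := by exact_mod_cast hj
    linarith
  calc (Z.card : ℝ) / j = ∑ q ∈ Z ×ˢ Finset.range j, 1 / (j : ℝ) ^ 2 := by
        rw [Finset.sum_const, Finset.card_product, Finset.card_range, nsmul_eq_mul]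
        push_cast
        field_simp
    _ ≤ ∑ q ∈ Z ×ˢ Finset.range j, slk J j S 𝒟 (G q) := by
        refine Finset.sum_le_sum fun q hq => ?_
        rw [Finset.mem_product, Finset.mem_range] at hq
        exact hg1 q.1 hq.1 q.2 hq.2
    _ = ∑ s ∈ (Z ×ˢ Finset.range j).image G, slk J j S 𝒟 s := (Finset.sum_image hinj).symm
    _ ≤ ∑ s ∈ S, slk J j S 𝒟 s :=
        Finset.sum_le_sum_of_subset_of_nonneg hsub fun s _ _ => slk_nonneg hj hle S 𝒟 s

end TT11

end Pool.MP405d56
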