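import Pool.Agent.Lib.MP_405d56_lc.O2.TT11

open Set

namespace Pool.MP405d56

variable {V : Type}

section TT12
variable [Fintype V] [DecidableEq V] {j t L : ℕ} {I : Inp V} {F : Set (Set V)} {Fb : Set V}
  {N : SimpleGraph V}

theorem TT12_exc_le (J : Inp V) (j : ℕ) (a : V ⊕ V) : J.exc j a ≤ 1 / (j : ℝ) := by
  have h0 : (0 : ℝ) ≤ 1 / (j : ℝ) := by positivity
  match a with
  | Sum.inl x =>
    unfold Inp.exc
    dsimp only
    split_ifs
    · exact le_rfl
    · exact h0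
  | Sum.inr _ => exact h0

/-- PROOF: otherwise take the connected violator of `exists_conn_violator`; `Z = S.filter (0 < exc)`. All parts have boundary weight `≥ 1` (`part_ge_one`). Apply `barrier_card_le`:
if `#Z ≤ 1` with `c = 1/j < 1` (`∑_S row sums ≤ ∑ (1 + exc) ≤ #S + 1/j`, other terms nonnegative); if `#Z ≥ 2` with `c = 0`:
`∑_S row sums = #S + ∑ exc - ∑ (1 + exc - row sum)`, `∑ exc = #Z / j ≤ ∑ slk` (`slack_total`). (`plus_w_le` for `hle`.) -/
theorem tutte_level (h : Hyp j t L I F Fb) (hN : IsNet (I.plus F) t Fb N)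
    (R S : Finset (V ⊕ V)) (hR : ∀ a, a ∈ R ↔ a ∈ reqN (I.plus F) j N)
    (𝒟 : Finset (Finset (V ⊕ V))) (hpart : ∀ D ∈ 𝒟, IsBarrierPart ((I.plus F).gad j) R S D)
    (hdisj : ∀ D ∈ 𝒟, ∀ D' ∈ 𝒟, D ≠ D' → Disjoint D D') : 𝒟.card ≤ S.card := by
  by_contra hlt
  push Not at hlt
  obtain ⟨S', 𝒟', hp', hd', hlt', hconn⟩ := exists_conn_violator _ R S 𝒟 hpart hdisj hlt
  have hT1 : L ≤ T1 j t L := by
    unfold T1
    nlinarith [Nat.zero_le (T0 j t), Nat.zero_le (L * T0 j t)]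
  have hle : ∀ x, (I.plus F).w x ≤ j + 1 := fun x =>
    plus_w_le h.fam h.le (fun x y hx hy hxy => h.far x y hx hy (Inp.near_mono hT1 hxy)) x
  have hjpos : (2 : ℝ) ≤ j := by exact_mod_cast h.hj
  have hx0 := xw_nonneg (J := I.plus F) h.hj hle
  have hbd : ∀ D ∈ 𝒟', 1 ≤ ∑ v ∈ D, ∑ w ∈ Dᶜ, (I.plus F).xw j v w := fun D hD =>
    part_ge_one h hN R S' D hR (hp' D hD)
  let _ : DecidablePred (fun s => 0 < (I.plus F).exc j s) := Classical.decPred _
  set Z : Finset (V ⊕ V) := S'.filter (fun s => 0 < (I.plus F).exc j s) with hZ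
  have hexc : ∑ s ∈ S', (I.plus F).exc j s ≤ (Z.card : ℝ) / j := by
    have h1 : ∑ s ∈ S', (I.plus F).exc j s = ∑ s ∈ Z, (I.plus F).exc j s := by
      rw [hZ, Finset.sum_filter]
      refine Finset.sum_congr rfl fun s _ => ?_
      split_ifs with h2
      · rfl
      · exact le_antisymm (not_lt.1 h2) (exc_nonneg s)
    rw [h1]
    calc ∑ s ∈ Z, (I.plus F).exc j s ≤ ∑ _s ∈ Z, 1 / (j : ℝ) :=
          Finset.sum_le_sum fun s _ => TT12_exc_le _ _ s
      _ = (Z.card : ℝ) / j := by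
          rw [Finset.sum_const, nsmul_eq_mul, mul_one_div]
  have hA : 0 ≤ ∑ s ∈ S', ∑ w ∈ (S' ∪ 𝒟'.biUnion id)ᶜ, (I.plus F).xw j s w :=
    Finset.sum_nonneg fun s _ => Finset.sum_nonneg fun w _ => hx0 s w
  have hB : 0 ≤ ∑ s ∈ S', ∑ w ∈ S', (I.plus F).xw j s w :=
    Finset.sum_nonneg fun s _ => Finset.sum_nonneg fun w _ => hx0 s w
  by_cases h2 : 2 ≤ Z.card
  · have h3 := slack_total h.hj hle hN h.spec h.sparse R S' hR 𝒟' hp' hconn Z
      (Finset.filter_subset _ _) (fun s hs => (Finset.mem_filter.1 hs).2) h2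
    have h4 : ∑ s ∈ S', slk (I.plus F) j S' 𝒟' s = (S'.card : ℝ) + ∑ s ∈ S', (I.plus F).exc j s
        - ∑ s ∈ S', ∑ b, (I.plus F).xw j s b
        + (∑ s ∈ S', ∑ w ∈ (S' ∪ 𝒟'.biUnion id)ᶜ, (I.plus F).xw j s w)
        + ∑ s ∈ S', ∑ w ∈ S', (I.plus F).xw j s w := by
      unfold slk
      rw [Finset.sum_add_distrib, Finset.sum_add_distrib, Finset.sum_sub_distrib,
        Finset.sum_add_distrib, Finset.sum_const, nsmul_eq_mul, mul_one]
    have h5 := barrier_card_le ((I.plus F).gad j) R S' 𝒟' ((I.plus F).xw j) 0 (by norm_num) hx0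
      xw_symm (fun v w hvw => xw_supp hvw) hp' hd' hbd (by linarith)
    omega
  · have h3 : (Z.card : ℝ) ≤ 1 := by
      have : Z.card ≤ 1 := by omega
      exact_mod_cast this
    have h4 : ∑ s ∈ S', ∑ b, (I.plus F).xw j s b
        ≤ (S'.card : ℝ) + ∑ s ∈ S', (I.plus F).exc j s := by
      calc ∑ s ∈ S', ∑ b, (I.plus F).xw j s b ≤ ∑ s ∈ S', (1 + (I.plus F).exc j s) :=
            Finset.sum_le_sum fun s _ => xw_sum_le h.hj hle s
        _ = _ := by rw [Finset.sum_add_distrib, Finset.sum_const, nsmul_eq_mul, mul_one]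
    have h5 : (Z.card : ℝ) / j ≤ 1 / j := by
      apply div_le_div_of_nonneg_right h3
      linarith
    have h6 : (1 : ℝ) / j < 1 := by
      rw [div_lt_one (by linarith)]
      linarith
    have h7 := barrier_card_le ((I.plus F).gad j) R S' 𝒟' ((I.plus F).xw j) (1 / j) h6 hx0
      xw_symm (fun v w hvw => xw_supp hvw) hp' hd' hbd (by linarith)
    omega
end TT12

end Pool.MP405d56
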