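import Pool.Agent.Lib.MP_405d56_lc.O2.TT12
open Set
namespace Pool.MP405d56

variable {V : Type}
variable {j t L : ℕ} {I : Inp V} {F : Set (Set V)} {Fb : Set V}

theorem TT13_net_unique {J : Inp V} {N : SimpleGraph V} (hN : IsNet J t Fb N) {x y z : V}
    (hxy : N.Adj x y) (hxz : N.Adj x z) : y = z := by
  have h1 : J.near (t + 2) y z := by
    have h2 := Inp.near_trans (Inp.near_adj (hN.sub hxy.symm)) (Inp.near_adj (hN.sub hxz))
    exact Inp.near_mono (by omega) h2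
  rcases hN.sep y x z x hxy.symm hxz.symm h1 with h | h
  · exact h.symm
  · exact (hxz.ne h.symm).elim

/-- the pairs to be added -/
def TT13_P (N : SimpleGraph V) (M : V ⊕ V → V ⊕ V) (a : V ⊕ V) (m : V) : Prop :=
  ∃ n, a = Sum.inl n ∧ N.Adj n m ∧ M (Sum.inl n) = Sum.inl n ∧ M (Sum.inl m) = Sum.inl m

theorem level_matching [Finite V] (h : Hyp j t L I F Fb) :
    ∃ (μ : V ⊕ V → V ⊕ V) (Z : Set V), IsInv ((I.plus F).gad j) μ ∧
      (∀ a ∈ (I.plus F).req j, μ a = a → ∃ z ∈ Z, a = Sum.inl z) ∧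
      (∀ z ∈ Z, ∀ z' ∈ Z, (I.plus F).near t z z' → z = z') ∧
      ∀ z ∈ Z, ∀ f ∈ Fb, ¬ (I.plus F).near t z f := by
  classical
  have := Fintype.ofFinite V
  obtain ⟨N, hN⟩ := exists_net (I.plus F) t Fb
  set R : Finset (V ⊕ V) := Finset.univ.filter (fun a => a ∈ reqN (I.plus F) j N) with hRdef
  have hR : ∀ a, a ∈ R ↔ a ∈ reqN (I.plus F) j N := fun a => by simp [hRdef]
  obtain ⟨M, hM1, hM2, hM3⟩ := exists_matching_covering ((I.plus F).gad j) R
    (fun S 𝒟 hpart hdisj => tutte_level h hN R S hR 𝒟 hpart hdisj)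
  let μ : V ⊕ V → V ⊕ V := fun a => if h : ∃ m, TT13_P N M a m then Sum.inl h.choose else M a
  have hμ1 : ∀ n m, N.Adj n m → M (Sum.inl n) = Sum.inl n → M (Sum.inl m) = Sum.inl m →
      μ (Sum.inl n) = Sum.inl m := by
    intro n m hnm h1 h2
    have hex : ∃ m', TT13_P N M (Sum.inl n) m' := ⟨m, n, rfl, hnm, h1, h2⟩
    have h3 : μ (Sum.inl n) = Sum.inl hex.choose := dif_pos hex
    rw [h3]
    obtain ⟨n', hn', h4, h5, h6⟩ := hex.choose_spec
    have h7 : n = n' := Sum.inl_injective hn'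
    subst h7
    rw [TT13_net_unique hN h4 hnm]
  have hμ2 : ∀ a, (¬ ∃ m, TT13_P N M a m) → μ a = M a := fun a ha => dif_neg ha
  have hμ3 : ∀ a m, TT13_P N M a m → μ a = Sum.inl m := by
    rintro a m ⟨n, rfl, h1, h2, h3⟩
    exact hμ1 n m h1 h2 h3
  have hinv : IsInv ((I.plus F).gad j) μ := by
    constructor
    · intro a
      by_cases ha : ∃ m, TT13_P N M a m
      · obtain ⟨m, n, rfl, h1, h2, h3⟩ := ha
        rw [hμ1 n m h1 h2 h3, hμ1 m n h1.symm h3 h2]
      · rw [hμ2 a ha, hμ2 (M a) ?_, hM1]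
        rintro ⟨m, n, hn, h1, h2, h3⟩
        apply ha
        have h4 : M a = a := by
          have h5 := hM1 a
          rw [hn, h2] at h5
          rw [← h5, h2]
        exact ⟨m, n, h4 ▸ hn, h1, h2, h3⟩
    · intro a hne
      by_cases ha : ∃ m, TT13_P N M a m
      · obtain ⟨m, n, rfl, h1, h2, h3⟩ := ha
        rw [hμ1 n m h1 h2 h3]
        exact hN.sub h1
      · rw [hμ2 a ha] at hne ⊢
        exact hM2 a hne
  have hZ : ∀ n m, N.Adj n m → μ (Sum.inl n) = Sum.inl n → μ (Sum.inl m) = Sum.inl m → False := by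
    intro n m hnm h1 h2
    have key : ∀ a : V ⊕ V, μ a = a → (¬ ∃ m, TT13_P N M a m) := by
      rintro a hfix ⟨m', n', rfl, h1', h2', h3'⟩
      rw [hμ1 n' m' h1' h2' h3'] at hfix
      exact h1'.ne (Sum.inl_injective hfix).symm
    have h3 : M (Sum.inl n) = Sum.inl n := by
      rw [← hμ2 _ (key _ h1)]; exact h1
    have h4 : M (Sum.inl m) = Sum.inl m := by
      rw [← hμ2 _ (key _ h2)]; exact h2
    exact key _ h1 ⟨m, n, rfl, hnm, h3, h4⟩
  refine ⟨μ, {z | μ (Sum.inl z) = Sum.inl z ∧ ∃ n', N.Adj z n'}, hinv, ?_, ?_, ?_⟩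
  · intro a ha hfix
    by_cases hex : ∃ m, TT13_P N M a m
    · obtain ⟨m, n, rfl, h1, h2, h3⟩ := hex
      rw [hμ1 n m h1 h2 h3] at hfix
      exact (h1.ne (Sum.inl_injective hfix).symm).elim
    · have h1 : M a = a := by rw [← hμ2 a hex]; exact hfix
      have h2 : a ∉ R := fun hR' => hM3 a hR' h1
      rw [hR] at h2
      by_contra hcon
      apply h2
      refine ⟨ha, ?_⟩
      intro n n' hnn hna
      subst hna
      exact hcon ⟨n, ⟨hfix, n', hnn⟩, rfl⟩
  · rintro z ⟨hz, n, hn⟩ z' ⟨hz', n', hn'⟩ hnear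
    rcases hN.sep z n z' n' hn hn' (Inp.near_mono (by omega) hnear) with h1 | h1
    · exact h1.symm
    · subst h1
      exact (hZ z z' hn hz hz').elim
  · rintro z ⟨hz, n, hn⟩ f hf hnear
    exact hN.off z n hn f hf (Inp.near_mono (by omega) hnear)

end Pool.MP405d56
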