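import Pool.Agent.Lib.MP_405d56_lc.O2.TT1

/-! # MP_405d56_lc, row TT2: weights -/

open Set

namespace Pool.MP405d56

variable {V : Type}

section TT2
variable {J : Inp V} {j : ℕ}

theorem xw_symm (a b : V ⊕ V) : J.xw j a b = J.xw j b a := by
  rcases a with x | x <;> rcases b with y | y <;> simp only [Inp.xw]
  by_cases h : J.H.Adj x y
  · rw [if_pos h, if_pos h.symm]
  · rw [if_neg h, if_neg (fun h' => h h'.symm)]

theorem xw_supp {a b : V ⊕ V} (h : ¬ (J.gad j).Adj a b) : J.xw j a b = 0 := by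
  rcases a with x | x <;> rcases b with y | y <;> simp only [Inp.xw]
  · exact if_neg h
  · exact if_neg h
  · exact if_neg h

theorem TT2_pos_card [Finite V] (x : V) : (J.pos x).ncard ≤ J.w x := by
  have h : J.pos x ⊆ Prod.fst '' {p : V × V | J.E x p.1 ∧ J.H.Adj p.1 p.2} := by
    rintro y ⟨h1, z, h2⟩
    exact ⟨(y, z), ⟨h1, h2⟩, rfl⟩
  exact (Set.ncard_le_ncard h (Set.toFinite _)).trans (Set.ncard_image_le (Set.toFinite _))

theorem TT2_gw [Finite V] (hj : 2 ≤ j) (hle : ∀ x, J.w x ≤ j + 1) {x y : V}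
    (h : J.abs j x y) : 1 / (j : ℝ) ^ 2 ≤ J.gw j x := by
  obtain ⟨hx, hy, hyb, -⟩ := h
  have hne : (J.pos x).Nonempty := ⟨x, hx⟩
  have hb : J.b1 x ∈ J.pos x := pick_mem hne
  have hj0 : (0 : ℝ) < j := by exact_mod_cast (by omega : 0 < j)
  have hlt : J.dgp j x + 1 ≤ j := by
    by_cases hxy : x = y
    · subst hxy
      exact dgp_lt hj hle hx hb hyb
    · exact dgp_lt hj hle hx hy hxy
  have hyv : 1 / (j : ℝ) ≤ J.yv j x := by
    have h1 : (J.dgp j x : ℝ) + 1 ≤ j := by exact_mod_cast hlt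
    unfold Inp.yv
    rw [div_le_iff₀ hj0]
    have : (1 - (J.dgp j x : ℝ) / j) * j = j - J.dgp j x := by field_simp
    rw [this]; linarith
  have hr2 : 2 ≤ (J.pos x).ncard := by
    have h1 : ({J.b1 x, y} : Set V) ⊆ J.pos x := by
      rintro z (rfl | rfl)
      · exact hb
      · exact hy
    have h2 := Set.ncard_le_ncard h1 (Set.toFinite _)
    rwa [Set.ncard_pair (Ne.symm hyb)] at h2
  have hr2' : (2 : ℝ) ≤ ((J.pos x).ncard : ℝ) := by exact_mod_cast hr2
  have hrw : (J.pos x).ncard ≤ J.w x := TT2_pos_card x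
  have key : ∀ d : ℝ, 0 < d → d ≤ j → 1 / (j : ℝ) ^ 2 ≤ J.yv j x / d := by
    intro d hd0 hdj
    calc 1 / (j : ℝ) ^ 2 = (1 / (j : ℝ)) / j := by rw [sq, div_div]
      _ ≤ (1 / (j : ℝ)) / d := div_le_div_of_nonneg_left (by positivity) hd0 hdj
      _ ≤ J.yv j x / d := div_le_div_of_nonneg_right hyv hd0.le
  unfold Inp.gw
  split_ifs with hm
  · refine key _ (by linarith) ?_
    have : (J.pos x).ncard ≤ j + 1 := hrw.trans (hle x)
    have : ((J.pos x).ncard : ℝ) ≤ (j : ℝ) + 1 := by exact_mod_cast this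
    linarith
  · push Not at hm
    have hw : (J.w x : ℝ) < j := by exact_mod_cast hm
    have h1 : (J.w x : ℝ) / j < 1 := by rwa [div_lt_one hj0]
    have h0 : (0 : ℝ) ≤ (J.w x : ℝ) / j := by positivity
    refine key _ (by linarith) ?_
    have : ((J.pos x).ncard : ℝ) ≤ (J.w x : ℝ) := by exact_mod_cast hrw
    linarith

theorem xw_ge [Finite V] (hj : 2 ≤ j) (hle : ∀ x, J.w x ≤ j + 1) {a b : V ⊕ V}
    (h : (J.gad j).Adj a b) : 1 / (j : ℝ) ^ 2 ≤ J.xw j a b := by
  have hj0 : (0 : ℝ) < j := by exact_mod_cast (by omega : 0 < j)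
  rcases a with x | x <;> rcases b with y | y
  · have h' : J.H.Adj x y := h
    simp only [Inp.xw, if_pos h']
    have hj1 : (1 : ℝ) ≤ j := by exact_mod_cast (by omega : 1 ≤ j)
    apply one_div_le_one_div_of_le hj0
    nlinarith
  · have h' : J.abs j x y := h
    simp only [Inp.xw, if_pos h']
    exact TT2_gw hj hle h'
  · have h' : J.abs j y x := h
    simp only [Inp.xw, if_pos h']
    exact TT2_gw hj hle h'
  · exact absurd h (by simp [Inp.gad])

theorem xw_nonneg [Finite V] (hj : 2 ≤ j) (hle : ∀ x, J.w x ≤ j + 1) (a b : V ⊕ V) :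
    0 ≤ J.xw j a b := by
  by_cases h : (J.gad j).Adj a b
  · exact le_trans (by positivity) (xw_ge hj hle h)
  · rw [xw_supp h]

theorem exc_nonneg (a : V ⊕ V) : 0 ≤ J.exc j a := by
  rcases a with x | x
  · simp only [Inp.exc]
    split_ifs
    · positivity
    · exact le_rfl
  · exact le_rfl

end TT2

end Pool.MP405d56
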