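import Pool.Agent.Lib.MP_405d56_lc.O2.TT2

open Set

namespace Pool.MP405d56

section TT3a
variable {V : Type}
variable [Fintype V] [DecidableEq V] {J : Inp V} {j : ℕ}

open Classical in
theorem TT3a_ll (x y : V) : J.xw j (Sum.inl x) (Sum.inl y) = if J.H.Adj x y then 1 / (j : ℝ) else 0 := by
  unfold Inp.xw
  rfl

open Classical in
theorem TT3a_lr (x y : V) : J.xw j (Sum.inl x) (Sum.inr y) = if J.abs j x y then J.gw j x else 0 := by
  unfold Inp.xw
  rfl

open Classical in
theorem TT3a_rl (x y : V) : J.xw j (Sum.inr y) (Sum.inl x) = if J.abs j x y then J.gw j x else 0 := by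
  unfold Inp.xw
  rfl

theorem TT3a_rr (x y : V) : J.xw j (Sum.inr y) (Sum.inr x) = 0 := by
  unfold Inp.xw
  rfl

theorem TT3a_sum_ll (x : V) : ∑ y, J.xw j (Sum.inl x) (Sum.inl y) = (dg J.H x : ℝ) / j := by
  classical
  simp only [TT3a_ll]
  rw [← Finset.sum_filter, Finset.sum_const, nsmul_eq_mul]
  have : ((Finset.univ.filter (fun y => J.H.Adj x y)).card : ℕ) = dg J.H x := by
    unfold dg
    rw [← Set.ncard_coe_finset]
    congr 1
    ext y
    simp
  rw [this]
  ring

theorem TT3a_sum_lr (x : V) :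
    ∑ y, J.xw j (Sum.inl x) (Sum.inr y) = ({y | J.abs j x y}.ncard : ℝ) * J.gw j x := by
  classical
  simp only [TT3a_lr]
  rw [← Finset.sum_filter, Finset.sum_const, nsmul_eq_mul]
  have : ((Finset.univ.filter (fun y => J.abs j x y)).card : ℕ) = {y | J.abs j x y}.ncard := by
    rw [← Set.ncard_coe_finset]
    congr 1
    ext y
    simp
  rw [this]

theorem TT3a_dg_pos {x : V} (hx : x ∈ J.pos x) : 1 ≤ dg J.H x := by
  obtain ⟨_, z, hz⟩ := hx
  unfold dg
  rw [Nat.one_le_iff_ne_zero]
  intro h0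
  rw [Set.ncard_eq_zero (Set.toFinite _)] at h0
  have : z ∈ ({y | J.H.Adj x y} : Set V) := hz
  rw [h0] at this
  exact this

/-- obligatory real vertices. -/
theorem xw_sum_must (hj : 2 ≤ j) (hle : ∀ x, J.w x ≤ j + 1) {x : V} (hx : x ∈ J.pos x)
    (hm : j ≤ J.w x) : ∑ b, J.xw j (Sum.inl x) b = 1 + J.exc j (Sum.inl x) := by
  classical
  rw [Fintype.sum_sum_type, TT3a_sum_ll, TT3a_sum_lr]
  have hj0 : (j : ℝ) ≠ 0 := by
    have : (0 : ℝ) < j := by exact_mod_cast (by omega : 0 < j)
    exact this.ne'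
  have hcard := (Pool.MP405d56.abs_card (j := j) hx).1 hm
  have hgw : J.gw j x = J.yv j x / (((J.pos x).ncard : ℝ) - 1) := by
    unfold Inp.gw
    rw [if_pos hm]
  have hyv : ({y | J.abs j x y}.ncard : ℝ) * J.gw j x = J.yv j x := by
    have hc : ((J.pos x).ncard : ℝ) - 1 = ({y | J.abs j x y}.ncard : ℝ) := by
      rw [← hcard]; push_cast; ring
    rw [hgw, hc]
    by_cases h0 : {y | J.abs j x y}.ncard = 0
    · -- r = 1
      have hr : (J.pos x).ncard = 1 := by omega
      obtain ⟨a, ha⟩ := Set.ncard_eq_one.1 hr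
      have hxa : x = a := by
        have : x ∈ ({a} : Set V) := ha ▸ hx
        simpa using this
      have hs := Pool.MP405d56.sum_dgp hle hx hm ({x} : Finset V) (by
        rw [ha, hxa]; simp)
      rw [Finset.sum_singleton] at hs
      rw [h0]
      unfold Inp.yv
      rw [hs, div_self hj0]
      simp
    · have h1 : ({y | J.abs j x y}.ncard : ℝ) ≠ 0 := by exact_mod_cast h0
      field_simp
  rw [hyv]
  have hd := TT3a_dg_pos hx
  unfold Inp.yv Inp.exc Inp.dgp
  by_cases hs : J.w x = j + 1 ∧ x = J.v0 x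
  · simp only [if_pos hs]
    rw [Nat.cast_sub hd]
    push_cast
    field_simp
    ring
  · simp only [if_neg hs]
    ring

/-- absorbers. -/
theorem xw_sum_abs (hj : 2 ≤ j) (hle : ∀ x, J.w x ≤ j + 1) {x y : V} (h : J.abs j x y) :
    ∑ b, J.xw j (Sum.inr y) b = 1 := by
  classical
  obtain ⟨hx, hy, hyb1, hyb2⟩ := id h
  have hj0 : (0 : ℝ) < j := by exact_mod_cast (by omega : 0 < j)
  rw [Fintype.sum_sum_type]
  simp only [TT3a_rr, Finset.sum_const_zero, add_zero, TT3a_rl]
  -- the vertices joined to `inr y`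
  have hcongr : ∀ z, z ∈ J.pos x → J.pos z = J.pos x := fun z hz =>
    (Pool.MP405d56.pos_congr hz.1).symm
  have hb1 : ∀ z, z ∈ J.pos x → J.b1 z = J.b1 x := by
    intro z hz
    unfold Inp.b1
    rw [hcongr z hz]
    exact pick_congr ⟨x, hx⟩
  have hb2 : ∀ z, z ∈ J.pos x → J.b2 z = J.b2 x := by
    intro z hz
    unfold Inp.b2
    rw [hcongr z hz, hb1 z hz]
    exact pick_congr ⟨y, hy, hyb1⟩
  have hw : ∀ z, z ∈ J.pos x → J.w z = J.w x := fun z hz => (w_congr J hz.1).symm
  have hiff : ∀ z, J.abs j z y ↔ z ∈ J.pos x := by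
    intro z
    constructor
    · rintro ⟨hz, hyz, -, -⟩
      have hxz : J.E x z := J.eqv.trans hy.1 (J.eqv.symm hyz.1)
      rw [Pool.MP405d56.pos_congr hxz]
      exact hz
    · intro hz
      refine ⟨?_, ?_, ?_, ?_⟩
      · rw [hcongr z hz]; exact hz
      · rw [hcongr z hz]; exact hy
      · rw [hb1 z hz]; exact hyb1
      · rw [hw z hz, hb2 z hz]; exact hyb2
  simp only [hiff]
  rw [← Finset.sum_filter]
  set P : Finset V := Finset.univ.filter (fun z => z ∈ J.pos x) with hPdef
  have hP : (P : Set V) = J.pos x := by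
    ext z; simp [hPdef]
  have hPc : P.card = (J.pos x).ncard := by
    rw [← hP, Set.ncard_coe_finset]
  have hmem : ∀ z ∈ P, z ∈ J.pos x := fun z hz => by
    have : z ∈ (P : Set V) := hz
    rwa [hP] at this
  have hyv : ∑ z ∈ P, J.yv j z = (P.card : ℝ) - ((∑ z ∈ P, J.dgp j z : ℕ) : ℝ) / j := by
    unfold Inp.yv
    rw [Finset.sum_sub_distrib, Finset.sum_const, nsmul_eq_mul, mul_one, ← Finset.sum_div]
    push_cast
    rfl
  by_cases hm : j ≤ J.w x
  · have hsum := Pool.MP405d56.sum_dgp hle hx hm P hP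
    have hcard := (Pool.MP405d56.abs_card (j := j) hx).1 hm
    have hapos : 0 < {y | J.abs j x y}.ncard := by
      rw [Set.ncard_pos (Set.toFinite _)]
      exact ⟨y, h⟩
    have hgw : ∀ z ∈ P, J.gw j z = J.yv j z / (((J.pos x).ncard : ℝ) - 1) := by
      intro z hz
      have hz' := hmem z hz
      unfold Inp.gw
      rw [hw z hz', if_pos hm, hcongr z hz']
    rw [Finset.sum_congr rfl hgw, ← Finset.sum_div, hyv, hsum, hPc, div_self hj0.ne']
    apply div_self
    have : (1 : ℝ) < (J.pos x).ncard := by exact_mod_cast (by omega : 1 < (J.pos x).ncard)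
    linarith [this]
  · have hwsum : ∑ z ∈ P, J.dgp j z = J.w x := by
      have h1 : ∀ z ∈ P, J.dgp j z = dg J.H z := by
        intro z hz
        unfold Inp.dgp
        rw [if_neg]
        rintro ⟨h1, -⟩
        rw [hw z (hmem z hz)] at h1
        omega
      rw [Finset.sum_congr rfl h1]
      unfold Inp.w
      rw [cnt_eq_sum]
      apply Finset.sum_subset_zero_on_sdiff
      · intro z hz
        have := hmem z hz
        simp only [Finset.mem_filter, Finset.mem_univ, true_and]
        exact this.1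
      · intro z hz
        simp only [Finset.mem_sdiff, Finset.mem_filter, Finset.mem_univ, true_and, hPdef] at hz
        unfold dg
        rw [Set.ncard_eq_zero (Set.toFinite _)]
        ext u
        simp only [Set.mem_ofPred_eq, Set.mem_empty_iff_false, iff_false]
        intro hu
        exact hz.2 ⟨hz.1, u, hu⟩
      · intro z _
        rfl
    have hgw : ∀ z ∈ P, J.gw j z = J.yv j z / (((J.pos x).ncard : ℝ) - (J.w x : ℝ) / j) := by
      intro z hz
      have hz' := hmem z hz
      unfold Inp.gw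
      rw [hw z hz', if_neg hm, hcongr z hz']
    rw [Finset.sum_congr rfl hgw, ← Finset.sum_div, hyv, hwsum, hPc]
    apply div_self
    have h1 : (1 : ℝ) ≤ (J.pos x).ncard := by
      have : 0 < (J.pos x).ncard := by
        rw [Set.ncard_pos (Set.toFinite _)]
        exact ⟨x, hx⟩
      exact_mod_cast this
    have h2 : (J.w x : ℝ) / j < 1 := by
      rw [div_lt_one hj0]
      exact_mod_cast (not_le.1 hm)
    linarith [h1, h2]

end TT3a

end Pool.MP405d56
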