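import Pool.Agent.Lib.MP_405d56_lc.O2.TT3a

/-!
# MP_405d56_lc, outer process: row TT3b (row sums)
-/

open Set

namespace Pool.MP405d56

set_option linter.unusedSectionVars false

variable {V : Type}

section TT3
variable [Fintype V] [DecidableEq V] {J : Inp V} {j : ℕ}

/-- a class has at least as many darts as vertices of positive degree -/
theorem TT3b_pos_le_w (J : Inp V) (x : V) : (J.pos x).ncard ≤ J.w x := by
  classical
  unfold Inp.w cnt
  apply Set.ncard_le_ncard_of_injOn
    (fun y => (y, if h : ∃ z, J.H.Adj y z then h.choose else y))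
  · intro y hy
    refine ⟨hy.1, ?_⟩
    show J.H.Adj y (if h : ∃ z, J.H.Adj y z then h.choose else y)
    rw [dif_pos hy.2]
    exact hy.2.choose_spec
  · intro y _ y' _ h
    exact (Prod.mk.inj h).1

/-- the sum over the real neighbours -/
theorem TT3b_sum_inl (J : Inp V) (j : ℕ) (x : V) :
    ∑ b, J.xw j (Sum.inl x) (Sum.inl b) = (dg J.H x : ℝ) / j := by
  classical
  have h1 : ∀ b, J.xw j (Sum.inl x) (Sum.inl b) = if J.H.Adj x b then 1 / (j : ℝ) else 0 := by
    intro b
    unfold Inp.xw
    by_cases h : J.H.Adj x b <;> simp [h]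
  rw [Finset.sum_congr rfl (fun b _ => h1 b), ← Finset.sum_filter, Finset.sum_const]
  have h2 : dg J.H x = (Finset.univ.filter (fun b => J.H.Adj x b)).card := by
    unfold dg
    rw [← Set.ncard_coe_finset]
    congr 1
    ext z
    simp
  rw [h2, nsmul_eq_mul]
  ring

/-- the sum over the absorbers -/
theorem TT3b_sum_inr (J : Inp V) (j : ℕ) (x : V) :
    ∑ b, J.xw j (Sum.inl x) (Sum.inr b) = ({y | J.abs j x y}.ncard : ℝ) * J.gw j x := by
  classical
  have h1 : ∀ b, J.xw j (Sum.inl x) (Sum.inr b) = if J.abs j x b then J.gw j x else 0 := by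
    intro b
    unfold Inp.xw
    by_cases h : J.abs j x b <;> simp [h]
  rw [Finset.sum_congr rfl (fun b _ => h1 b), ← Finset.sum_filter, Finset.sum_const]
  have h2 : {y | J.abs j x y}.ncard = (Finset.univ.filter (fun b => J.abs j x b)).card := by
    rw [← Set.ncard_coe_finset]
    congr 1
    ext z
    simp
  rw [h2, nsmul_eq_mul]

theorem xw_sum_other (hj : 2 ≤ j) (hle : ∀ x, J.w x ≤ j + 1) (a : V ⊕ V)
    (h1 : ∀ x, a = Sum.inl x → x ∈ J.pos x → J.w x < j)
    (h2 : ∀ x y, a = Sum.inr y → ¬ J.abs j x y) :
    ∑ b, J.xw j a b + 1 / (j : ℝ) ^ 2 ≤ 1 := by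
  classical
  have hjR : (2 : ℝ) ≤ j := by exact_mod_cast hj
  have hj0 : (0 : ℝ) < j := by linarith
  have hsq : 1 / (j : ℝ) ^ 2 ≤ 1 := by
    rw [div_le_one (by positivity)]
    nlinarith
  have hsq' : 1 / (j : ℝ) ^ 2 ≤ 1 / j := by
    apply one_div_le_one_div_of_le hj0
    nlinarith
  cases a with
  | inr y =>
    have h0 : ∑ b, J.xw j (Sum.inr y) b = 0 := by
      apply Finset.sum_eq_zero
      intro b _
      cases b with
      | inl x =>
        have := h2 x y rfl
        unfold Inp.xw
        simp [this]
      | inr z => rfl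
    rw [h0]
    linarith
  | inl x =>
    rw [Fintype.sum_sum_type, TT3b_sum_inl, TT3b_sum_inr]
    by_cases hx : x ∈ J.pos x
    · have hw := h1 x rfl hx
      have hdw := dg_le_w J x
      have hrw := TT3b_pos_le_w J x
      have hac := (Pool.MP405d56.abs_card (j := j) hx).2 hw
      have hdR : (dg J.H x : ℝ) ≤ (j : ℝ) - 1 := by
        have : dg J.H x + 1 ≤ j := by omega
        have : ((dg J.H x : ℝ)) + 1 ≤ j := by exact_mod_cast this
        linarith
      by_cases hr : (J.pos x).ncard ≤ 2
      · have hz : {y | J.abs j x y}.ncard = 0 := by rw [hac]; omega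
        rw [hz]
        simp only [Nat.cast_zero, zero_mul, add_zero]
        have : (dg J.H x : ℝ) / j ≤ 1 - 1 / j := by
          rw [div_le_iff₀ hj0, sub_mul, div_mul_cancel₀ _ hj0.ne']
          linarith
        linarith
      · push Not at hr
        have hcast : ({y | J.abs j x y}.ncard : ℝ) = ((J.pos x).ncard : ℝ) - 2 := by
          rw [hac, Nat.cast_sub (by omega)]
          norm_num
        have hgw : J.gw j x = (1 - (dg J.H x : ℝ) / j) /
            (((J.pos x).ncard : ℝ) - (J.w x : ℝ) / j) := by
          unfold Inp.gw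
          rw [if_neg (not_le.2 hw)]
          unfold Inp.yv Inp.dgp
          rw [if_neg (by rintro ⟨h, _⟩; omega)]
        rw [hcast, hgw]
        set r : ℝ := ((J.pos x).ncard : ℝ) with hrdef
        set w : ℝ := (J.w x : ℝ) with hwdef
        set d : ℝ := (dg J.H x : ℝ) with hddef
        have hr3 : (3 : ℝ) ≤ r := by
          rw [hrdef]
          exact_mod_cast hr
        have hrj : r ≤ j := by
          rw [hrdef]
          exact_mod_cast (by omega : (J.pos x).ncard ≤ j)
        have hwj : w / j ≤ 1 := by
          rw [div_le_one hj0, hwdef]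
          exact_mod_cast hw.le
        have hw0 : 0 ≤ w / j := by
          rw [hwdef]
          positivity
        have hy : 1 / (j : ℝ) ≤ 1 - d / j := by
          rw [div_le_iff₀ hj0, sub_mul, div_mul_cancel₀ _ hj0.ne']
          linarith
        set y : ℝ := 1 - d / j with hydef
        have hdy : d / j = 1 - y := by rw [hydef]; ring
        rw [hdy]
        have hden : 0 < r - w / j := by linarith
        have hid : 1 - (1 - y + (r - 2) * (y / (r - w / j))) = y * (2 - w / j) / (r - w / j) := by
          have hne : r - w / j ≠ 0 := hden.ne'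
          clear_value r w y
          generalize w / (j : ℝ) = q at hne ⊢
          rw [eq_div_iff hne]
          have : (r - 2) * (y / (r - q)) * (r - q) = (r - 2) * y := by
            rw [mul_assoc, div_mul_cancel₀ _ hne]
          linear_combination (-1) * this
        have hlow : 1 / (j : ℝ) ^ 2 ≤ y * (2 - w / j) / (r - w / j) := by
          rw [le_div_iff₀ hden]
          have e1 : 1 / (j : ℝ) ^ 2 * (r - w / j) ≤ 1 / (j : ℝ) ^ 2 * j := by
            apply mul_le_mul_of_nonneg_left _ (by positivity)
            linarith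
          have e2 : 1 / (j : ℝ) ^ 2 * j = 1 / j := by
            field_simp
          have e3 : y ≤ y * (2 - w / j) := by
            have : 0 ≤ y := le_trans (by positivity) hy
            nlinarith
          linarith
        linarith
    · have hn : ∀ z, ¬ J.H.Adj x z := by
        intro z hz
        exact hx ⟨J.eqv.refl x, z, hz⟩
      have hd0 : dg J.H x = 0 := by
        unfold dg
        rw [Set.ncard_eq_zero (Set.toFinite _)]
        ext z
        simp [hn z]
      have ha0 : {y | J.abs j x y}.ncard = 0 := by
        rw [Set.ncard_eq_zero (Set.toFinite _)]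
        ext z
        simp only [Set.mem_ofPred_eq, Set.mem_empty_iff_false, iff_false]
        intro h
        exact hx h.1
      rw [hd0, ha0]
      simp only [Nat.cast_zero, zero_div, zero_mul, add_zero, zero_add]
      exact hsq

theorem xw_sum_le (hj : 2 ≤ j) (hle : ∀ x, J.w x ≤ j + 1) (a : V ⊕ V) :
    ∑ b, J.xw j a b ≤ 1 + J.exc j a := by
  classical
  have hjR : (2 : ℝ) ≤ j := by exact_mod_cast hj
  have he := Pool.MP405d56.exc_nonneg (J := J) (j := j) a
  have hp : (0 : ℝ) ≤ 1 / (j : ℝ) ^ 2 := by positivity
  cases a with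
  | inl x =>
    by_cases h : x ∈ J.pos x ∧ j ≤ J.w x
    · exact (Pool.MP405d56.xw_sum_must hj hle h.1 h.2).le
    · have := xw_sum_other hj hle (Sum.inl x) (by
        intro x' hx' hp'
        obtain rfl := Sum.inl.inj hx'
        by_contra hc
        exact h ⟨hp', not_lt.1 hc⟩) (by
        intro x' y' h'
        cases h')
      linarith
  | inr y =>
    by_cases h : ∃ x, J.abs j x y
    · obtain ⟨x, hx⟩ := h
      rw [Pool.MP405d56.xw_sum_abs hj hle hx]
      linarith
    · have := xw_sum_other hj hle (Sum.inr y) (by
        intro x' hx'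
        cases hx') (by
        intro x' y' h' ha
        obtain rfl := Sum.inr.inj h'
        exact h ⟨x', ha⟩)
      linarith
end TT3

end Pool.MP405d56
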