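import Pool.Agent.Lib.MP_405d56_lc.O2.TT3b

open Set

namespace Pool.MP405d56

variable {V : Type}
variable [Fintype V] [DecidableEq V] {J : Inp V} {j : ℕ}

theorem TT4_arith (n α : ℕ) (Y : ℝ) (hn : 1 ≤ n) (hY0 : 0 ≤ Y) (hYn : Y ≤ n) (hα : α + 1 ≤ n)
    (h : 1 ≤ Y ∨ (1 ≤ α ∧ Y ≤ 1)) : (n : ℝ) ≤ Y * ((n : ℝ) - α) + α * ((n : ℝ) - Y) := by
  have hα' : (α : ℝ) + 1 ≤ n := by exact_mod_cast hα
  have hα0 : (0 : ℝ) ≤ α := Nat.cast_nonneg _
  rcases Nat.lt_or_ge n 2 with h2 | h2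
  · have hn1 : n = 1 := by omega
    subst hn1
    have hα1 : α = 0 := by omega
    subst hα1
    rcases h with h | h
    · push_cast; linarith
    · omega
  · have h2' : (2 : ℝ) ≤ n := by exact_mod_cast h2
    rcases h with h | ⟨h3, h4⟩
    · rcases le_total (2 * Y) n with h5 | h5
      · nlinarith [mul_nonneg hα0 (by linarith : (0 : ℝ) ≤ n - 2 * Y),
          mul_nonneg (by linarith : (0 : ℝ) ≤ (n : ℝ)) (by linarith : (0 : ℝ) ≤ Y - 1)]
      · have h6 : ((n : ℝ) - 1 - α) * (2 * Y - n) ≥ 0 :=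
          mul_nonneg (by linarith) (by linarith)
        have h7 : ((n : ℝ) - 2) * (n - Y) ≥ 0 := mul_nonneg (by linarith) (by linarith)
        nlinarith
    · have h3' : (1 : ℝ) ≤ α := by exact_mod_cast h3
      rcases le_total (2 * (α : ℝ)) n with h5 | h5
      · nlinarith [mul_nonneg hY0 (by linarith : (0 : ℝ) ≤ n - 2 * α),
          mul_nonneg (by linarith : (0 : ℝ) ≤ (n : ℝ)) (by linarith : (0 : ℝ) ≤ (α : ℝ) - 1)]
      · have h6 : (1 - Y) * (2 * (α : ℝ) - n) ≥ 0 := mul_nonneg (by linarith) (by linarith)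
        have h7 : (α : ℝ) * ((n : ℝ) - 2) ≥ 0 := mul_nonneg (by linarith) (by linarith)
        nlinarith

omit [DecidableEq V] in
theorem TT4_yv_nonneg (hj : 2 ≤ j) (hle : ∀ x, J.w x ≤ j + 1) (x : V) : 0 ≤ J.yv j x := by
  have h := dgp_le hle x
  have hj' : (0 : ℝ) < j := by exact_mod_cast (by omega : 0 < j)
  unfold Inp.yv
  have : (J.dgp j x : ℝ) / j ≤ 1 := by
    rw [div_le_one hj']; exact_mod_cast h
  linarith

omit [Fintype V] [DecidableEq V] in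
theorem TT4_yv_le (x : V) : J.yv j x ≤ 1 := by
  unfold Inp.yv
  have : (0 : ℝ) ≤ (J.dgp j x : ℝ) / j := by positivity
  linarith

/-- an obligatory class -/
theorem TT4_main (hj : 2 ≤ j) (hle : ∀ x, J.w x ≤ j + 1) (K : Finset (V ⊕ V))
    (hK : ∀ a ∈ K, a ∈ J.req j) {x0 : V} (hx0 : x0 ∈ J.pos x0) (hw0 : j ≤ J.w x0)
    (hh : (∃ y, J.E x0 y ∧ Sum.inr y ∈ K) ∨
      ∃ x y, x ≠ y ∧ Sum.inl x ∈ K ∧ Sum.inl y ∈ K ∧ J.E x0 x ∧ J.E x0 y) :
    1 ≤ ∑ v ∈ K, ∑ w ∈ Kᶜ, J.xw j v w := by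
  classical
  set P : Finset V := Finset.univ.filter (fun x => x ∈ J.pos x0) with hP
  have hPc : (P : Set V) = J.pos x0 := by
    ext x; simp [hP]
  have memP : ∀ {x}, x ∈ P ↔ x ∈ J.pos x0 := fun {x} => by simp [hP]
  have hne : (J.pos x0).Nonempty := ⟨x0, hx0⟩
  have hb1 : J.b1 x0 ∈ J.pos x0 := pick_mem hne
  -- the points of the class
  have hposeq : ∀ x, J.E x0 x → J.pos x = J.pos x0 := fun x hx => (pos_congr hx).symm
  have hself : ∀ x ∈ P, x ∈ J.pos x := by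
    intro x hx
    have h1 := memP.1 hx
    rw [hposeq x h1.1]; exact h1
  have hwx : ∀ x ∈ P, J.w x = J.w x0 := fun x hx => (w_congr J (memP.1 hx).1).symm
  have hb1x : ∀ x, J.E x0 x → J.b1 x = J.b1 x0 := by
    intro x hx
    unfold Inp.b1
    rw [hposeq x hx]; exact pick_congr hne
  have hreqE : ∀ y, J.E x0 y → Sum.inr y ∈ K → y ∈ P ∧ y ≠ J.b1 x0 ∧ y ≠ J.b2 y := by
    intro y hy hyK
    obtain ⟨h1, h2, h3⟩ : y ∈ J.pos y ∧ y ≠ J.b1 y ∧ y ≠ J.b2 y := hK _ hyK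
    refine ⟨memP.2 ?_, ?_, h3⟩
    · rw [← hposeq y hy]; exact h1
    · rw [← hb1x y hy]; exact h2
  have hreqL : ∀ y, J.E x0 y → Sum.inl y ∈ K → y ∈ P := by
    intro y hy hyK
    obtain ⟨h1, -⟩ : y ∈ J.pos y ∧ j ≤ J.w y := hK _ hyK
    refine memP.2 ?_
    rw [← hposeq y hy]; exact h1
  -- at least two points
  have hP2 : 2 ≤ P.card := by
    rcases hh with ⟨y, hy, hyK⟩ | ⟨x, y, hxy, hx, hy, hEx, hEy⟩
    · obtain ⟨h1, h2, -⟩ := hreqE y hy hyK
      exact Finset.one_lt_card.2 ⟨y, h1, J.b1 x0, memP.2 hb1, h2⟩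
    · exact Finset.one_lt_card.2 ⟨x, hreqL x hEx hx, y, hreqL y hEy hy, hxy⟩
  have hne2 : (J.pos x0 \ {J.b1 x0}).Nonempty := by
    obtain ⟨a, ha, hab⟩ := Finset.exists_mem_ne (by omega : 1 < P.card) (J.b1 x0)
    exact ⟨a, memP.1 ha, hab⟩
  have hb2 : J.b2 x0 ∈ J.pos x0 \ {J.b1 x0} := pick_mem hne2
  have hb2x : ∀ x, J.E x0 x → J.b2 x = J.b2 x0 := by
    intro x hx
    unfold Inp.b2
    rw [hposeq x hx, hb1x x hx]; exact pick_congr hne2
  set A : Finset V := P.erase (J.b1 x0) with hA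
  set S : Finset V := P.filter (fun x => Sum.inl x ∈ K) with hS
  set B : Finset V := A.filter (fun y => Sum.inr y ∈ K) with hB
  obtain ⟨n, hn⟩ : ∃ n, P.card = n + 1 := ⟨P.card - 1, by omega⟩
  have hn1 : 1 ≤ n := by omega
  have hAc : A.card = n := by
    rw [hA, Finset.card_erase_of_mem (memP.2 hb1), hn]; rfl
  have hBc : B.card + 1 ≤ n := by
    have h1 : B ⊆ A.erase (J.b2 x0) := by
      intro y hy
      obtain ⟨hyA, hyK⟩ := Finset.mem_filter.1 hy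
      have hyE : J.E x0 y := (memP.1 (Finset.mem_of_mem_erase hyA)).1
      have h2 := (hreqE y hyE hyK).2.2
      rw [hb2x y hyE] at h2
      exact Finset.mem_erase.2 ⟨h2, hyA⟩
    have h3 : J.b2 x0 ∈ A := Finset.mem_erase.2 ⟨hb2.2, memP.2 hb2.1⟩
    have h4 := Finset.card_le_card h1
    rw [Finset.card_erase_of_mem h3, hAc] at h4
    omega
  have hABc : (A \ B).card = n - B.card := by
    rw [Finset.card_sdiff_of_subset (Finset.filter_subset _ _), hAc]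
  -- weights
  have hnc : ((J.pos x0).ncard : ℝ) = n + 1 := by
    rw [← hPc, Set.ncard_coe_finset, hn]; push_cast; ring
  have habs : ∀ x ∈ P, ∀ y ∈ A, J.abs j x y := by
    intro x hx y hy
    have hEx := (memP.1 hx).1
    refine ⟨hself x hx, ?_, ?_, ?_⟩
    · rw [hposeq x hEx]; exact memP.1 (Finset.mem_of_mem_erase hy)
    · rw [hb1x x hEx]; exact Finset.ne_of_mem_erase hy
    · intro h; rw [hwx x hx] at h; omega
  have hgw : ∀ x ∈ P, J.gw j x = J.yv j x / n := by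
    intro x hx
    unfold Inp.gw
    rw [if_pos (by rw [hwx x hx]; exact hw0), hposeq x (memP.1 hx).1, hnc]
    congr 1; ring
  have hxw1 : ∀ x ∈ P, ∀ y ∈ A, J.xw j (Sum.inl x) (Sum.inr y) = J.yv j x / n := by
    intro x hx y hy
    rw [← hgw x hx]
    simp only [Inp.xw, if_pos (habs x hx y hy)]
  have hxw2 : ∀ x ∈ P, ∀ y ∈ A, J.xw j (Sum.inr y) (Sum.inl x) = J.yv j x / n := by
    intro x hx y hy
    rw [← hgw x hx]
    simp only [Inp.xw, if_pos (habs x hx y hy)]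
  have hsumd := sum_dgp hle hx0 hw0 P hPc
  have hj' : (0 : ℝ) < j := by exact_mod_cast (by omega : 0 < j)
  have hsumy : ∀ Q : Finset V, ∑ x ∈ Q, J.yv j x = Q.card - ((∑ x ∈ Q, J.dgp j x : ℕ) : ℝ) / j := by
    intro Q
    unfold Inp.yv
    rw [Finset.sum_sub_distrib, Finset.sum_const, nsmul_eq_mul, mul_one, ← Finset.sum_div]
    push_cast; rfl
  have hYP : ∑ x ∈ P, J.yv j x = n := by
    rw [hsumy, hsumd, hn, div_self hj'.ne']; push_cast; ring
  set Y : ℝ := ∑ x ∈ S, J.yv j x with hY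
  have hSP : S ⊆ P := Finset.filter_subset _ _
  have hY0 : 0 ≤ Y := Finset.sum_nonneg fun x _ => TT4_yv_nonneg hj hle x
  have hYn : Y ≤ n := by
    rw [← hYP]
    exact Finset.sum_le_sum_of_subset_of_nonneg hSP fun x _ _ => TT4_yv_nonneg hj hle x
  have hYS : Y ≤ S.card := by
    calc Y ≤ ∑ x ∈ S, (1 : ℝ) := Finset.sum_le_sum fun x _ => TT4_yv_le x
      _ = S.card := by simp
  have hYS' : (S.card : ℝ) - 1 ≤ Y := by
    rw [hY, hsumy]
    have h1 : ∑ x ∈ S, J.dgp j x ≤ j :=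
      le_trans (Finset.sum_le_sum_of_subset (f := fun x => J.dgp j x) hSP) hsumd.le
    have h2 : ((∑ x ∈ S, J.dgp j x : ℕ) : ℝ) / j ≤ 1 := by
      rw [div_le_one hj']; exact_mod_cast h1
    linarith
  have hcomp : ∑ x ∈ P \ S, J.yv j x = n - Y := by
    have := Finset.sum_sdiff (f := fun x => J.yv j x) hSP
    rw [hYP] at this
    linarith
  have hcond : 1 ≤ Y ∨ (1 ≤ B.card ∧ Y ≤ 1) := by
    by_cases hS2 : 2 ≤ S.card
    · left
      have : (2 : ℝ) ≤ S.card := by exact_mod_cast hS2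
      linarith
    · right
      have hS1 : (S.card : ℝ) ≤ 1 := by exact_mod_cast (by omega : S.card ≤ 1)
      refine ⟨?_, by linarith⟩
      rcases hh with ⟨y, hy, hyK⟩ | ⟨x, y, hxy, hx, hy, hEx, hEy⟩
      · obtain ⟨h1, h2, -⟩ := hreqE y hy hyK
        exact Finset.card_pos.2 ⟨y, Finset.mem_filter.2 ⟨Finset.mem_erase.2 ⟨h2, h1⟩, hyK⟩⟩
      · exact absurd (Finset.one_lt_card.2 ⟨x, Finset.mem_filter.2 ⟨hreqL x hEx hx, hx⟩, y,
          Finset.mem_filter.2 ⟨hreqL y hEy hy, hy⟩, hxy⟩) hS2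
  have harith := TT4_arith n B.card Y hn1 hY0 hYn hBc hcond
  have hn0 : (0 : ℝ) < n := by exact_mod_cast hn1
  -- comparison of sums
  have hnn := fun a b => xw_nonneg (J := J) (j := j) hj hle a b
  have hrow1 : ∀ x ∈ S, ((n : ℝ) - B.card) * (J.yv j x / n) ≤
      ∑ w ∈ Kᶜ, J.xw j (Sum.inl x) w := by
    intro x hx
    have h1 : ∑ w ∈ (A \ B).map ⟨Sum.inr, Sum.inr_injective⟩, J.xw j (Sum.inl x) w ≤
        ∑ w ∈ Kᶜ, J.xw j (Sum.inl x) w := by
      refine Finset.sum_le_sum_of_subset_of_nonneg ?_ fun _ _ _ => hnn _ _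
      intro w hw
      obtain ⟨y, hy, rfl⟩ := Finset.mem_map.1 hw
      obtain ⟨hyA, hyB⟩ := Finset.mem_sdiff.1 hy
      refine Finset.mem_compl.2 fun hyK => hyB ?_
      exact Finset.mem_filter.2 ⟨hyA, hyK⟩
    rw [Finset.sum_map] at h1
    refine le_trans (le_of_eq ?_) h1
    have h2 : ∀ y ∈ A \ B, J.xw j (Sum.inl x) ((⟨Sum.inr, Sum.inr_injective⟩ : V ↪ V ⊕ V) y) =
        J.yv j x / n := fun y hy => hxw1 x (hSP hx) y (Finset.mem_sdiff.1 hy).1
    rw [Finset.sum_congr rfl h2, Finset.sum_const, nsmul_eq_mul, hABc,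
      Nat.cast_sub (by omega)]
  have hrow2 : ∀ y ∈ B, ((n : ℝ) - Y) / n ≤ ∑ w ∈ Kᶜ, J.xw j (Sum.inr y) w := by
    intro y hy
    have hyA : y ∈ A := (Finset.mem_filter.1 hy).1
    have h1 : ∑ w ∈ (P \ S).map ⟨Sum.inl, Sum.inl_injective⟩, J.xw j (Sum.inr y) w ≤
        ∑ w ∈ Kᶜ, J.xw j (Sum.inr y) w := by
      refine Finset.sum_le_sum_of_subset_of_nonneg ?_ fun _ _ _ => hnn _ _
      intro w hw
      obtain ⟨x, hx, rfl⟩ := Finset.mem_map.1 hw
      obtain ⟨hxP, hxS⟩ := Finset.mem_sdiff.1 hx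
      refine Finset.mem_compl.2 fun hxK => hxS ?_
      exact Finset.mem_filter.2 ⟨hxP, hxK⟩
    rw [Finset.sum_map] at h1
    refine le_trans (le_of_eq ?_) h1
    have h2 : ∀ x ∈ P \ S, J.xw j (Sum.inr y) ((⟨Sum.inl, Sum.inl_injective⟩ : V ↪ V ⊕ V) x) =
        J.yv j x / n := fun x hx => hxw2 x (Finset.mem_sdiff.1 hx).1 y hyA
    rw [Finset.sum_congr rfl h2, ← Finset.sum_div, hcomp]
  have hsub : S.disjSum B ⊆ K := by
    intro a ha
    rcases a with x | y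
    · exact (Finset.mem_filter.1 (Finset.inl_mem_disjSum.1 ha)).2
    · exact (Finset.mem_filter.1 (Finset.inr_mem_disjSum.1 ha)).2
  have htot : ∑ v ∈ S.disjSum B, ∑ w ∈ Kᶜ, J.xw j v w ≤ ∑ v ∈ K, ∑ w ∈ Kᶜ, J.xw j v w :=
    Finset.sum_le_sum_of_subset_of_nonneg hsub fun _ _ _ =>
      Finset.sum_nonneg fun _ _ => hnn _ _
  rw [Finset.sum_disjSum] at htot
  have h1 := Finset.sum_le_sum hrow1
  have h2 := Finset.sum_le_sum hrow2
  rw [← Finset.mul_sum, ← Finset.sum_div, ← hY] at h1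
  rw [Finset.sum_const, nsmul_eq_mul] at h2
  have h3 : (1 : ℝ) ≤ ((n : ℝ) - B.card) * (Y / n) + B.card * (((n : ℝ) - Y) / n) := by
    have : ((n : ℝ) - B.card) * (Y / n) + B.card * (((n : ℝ) - Y) / n) =
        (Y * ((n : ℝ) - B.card) + B.card * ((n : ℝ) - Y)) / n := by ring
    rw [this, le_div_iff₀ hn0, one_mul]
    exact harith
  linarith

/-- a connected set which contains a vertex without neighbours in the set is a singleton -/
theorem TT4_single {W : Type} {G : SimpleGraph W} {K : Set W} (hconn : (G.induce K).Connected)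
    {a : W} (ha : a ∈ K) (hno : ∀ b ∈ K, ¬ G.Adj a b) : ∀ b ∈ K, b = a := by
  intro b hb
  by_contra hne
  obtain ⟨p⟩ := hconn.preconnected ⟨a, ha⟩ ⟨b, hb⟩
  cases p with
  | nil => exact hne rfl
  | cons h q => exact hno _ (Subtype.property _) h

/-- PROOF. Let `C` be the class. (i) `C` not obligatory: then `K` contains an absorber `inr y` of `C` (vertices `inl x`, `w x < j`, are not
required), all its neighbours are not required, so `K = {inr y}` by connectedness and the sum is `1` (`xw_sum_abs`).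
(ii) `C` obligatory, `r = #pos ≥ 2`. Consider only the gadget edges of `C`: with `Y = ∑ yv x` over the `inl x ∈ K`, `x ∈ pos`,
`α` = number of absorbers of `C` in `K` (`α ≤ r - 2` because the optional absorber `inr b2` is not required), total `∑ yv = r - 1`
(`sum_dgp`), the crossing weight is `f = (Y (r - 1 - α) + α (r - 1 - Y)) / (r - 1) = Y + α - 2αY/(r - 1)`. It is `≥ 1`:
let `m = #{inl x ∈ K}`. `m = 0`: `f = α ≥ 1`. `m = r`: `Y = r - 1`, `f = r - 1 - α ≥ 1`. `m ≥ 2`: `m - 1 ≤ Y ≤ r - 1` (`∑ dgp ≤ j`), `f` is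
linear in `α`, `f(0) = Y ≥ 1`, `f(r-2) = (r-2) - Y (r-3)/(r-1) ≥ 1` if `r ≥ 3` (and `α = 0` if `r = 2`). `m = 1`, `α ≥ 1`: `r ≥ 3`,
`0 ≤ Y ≤ 1`, `f = Y + α (1 - 2Y/(r-1)) ≥ Y + (1 - Y) = 1`. -/
theorem gad_cross (hj : 2 ≤ j) (hle : ∀ x, J.w x ≤ j + 1) (K : Finset (V ⊕ V))
    (hK : ∀ a ∈ K, a ∈ J.req j) (hconn : ((J.gad j).induce (K : Set (V ⊕ V))).Connected)
    (h : (∃ y, Sum.inr y ∈ K) ∨ ∃ x y, x ≠ y ∧ Sum.inl x ∈ K ∧ Sum.inl y ∈ K ∧ J.E x y) :
    1 ≤ ∑ v ∈ K, ∑ w ∈ Kᶜ, J.xw j v w := by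
  rcases h with ⟨y, hyK⟩ | ⟨x, y, hxy, hxK, hyK, hE⟩
  · obtain ⟨h1, h2, h3⟩ : y ∈ J.pos y ∧ y ≠ J.b1 y ∧ y ≠ J.b2 y := hK _ hyK
    by_cases hw : j ≤ J.w y
    · exact TT4_main hj hle K hK h1 hw (Or.inl ⟨y, J.eqv.refl y, hyK⟩)
    · have habs : J.abs j y y := ⟨h1, h1, h2, fun _ => h3⟩
      have hno : ∀ b ∈ (K : Set (V ⊕ V)), ¬ (J.gad j).Adj (Sum.inr y) b := by
        intro b hb hadj
        rcases b with x | z
        · have hxy : J.abs j x y := hadj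
          obtain ⟨-, hwx⟩ : x ∈ J.pos x ∧ j ≤ J.w x := hK _ hb
          have hE : J.E x y := hxy.2.1.1
          have := w_congr J hE
          omega
        · exact hadj
      have hKs : K = {Sum.inr y} := by
        refine Finset.eq_singleton_iff_unique_mem.2 ⟨hyK, fun b hb => ?_⟩
        exact TT4_single hconn (Finset.mem_coe.2 hyK) hno b (Finset.mem_coe.2 hb)
      have hsum := xw_sum_abs (J := J) (j := j) hj hle habs
      have h0 : J.xw j (Sum.inr y) (Sum.inr y) = 0 := rfl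
      rw [hKs, Finset.sum_singleton]
      have h4 := Finset.sum_compl_add_sum ({Sum.inr y} : Finset (V ⊕ V))
        (fun b => J.xw j (Sum.inr y) b)
      rw [Finset.sum_singleton, h0, add_zero] at h4
      rw [h4, hsum]
  · obtain ⟨h1, h2⟩ : x ∈ J.pos x ∧ j ≤ J.w x := hK _ hxK
    exact TT4_main hj hle K hK h1 h2 (Or.inr ⟨x, y, hxy, hxK, hyK, J.eqv.refl x, hE⟩)

end Pool.MP405d56
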