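import Pool.Agent.Lib.MP_405d56_lc.O2.TT4

/-!
# MP_405d56_lc, outer process, row TT5: real parts
-/

open Set

namespace Pool.MP405d56

variable {V : Type}

/-! ## TT5: real parts -/
section TT5
variable [Fintype V] [DecidableEq V] {J : Inp V} {j : ℕ}

/-- degrees and reduced degrees -/
theorem TT5_dg_exc (hj : 2 ≤ j) {x : V} (hx : x ∈ J.pos x) :
    (j : ℝ) * J.exc j (Sum.inl x) + J.dgp j x = dg J.H x := by
  classical
  have hj0 : (j : ℝ) ≠ 0 := by positivity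
  have hd : 1 ≤ dg J.H x := by
    obtain ⟨_, z, hz⟩ := hx
    unfold dg
    exact (Set.ncard_pos (Set.toFinite _)).2 ⟨z, hz⟩
  by_cases h : J.w x = j + 1 ∧ x = J.v0 x
  · have he : J.exc j (Sum.inl x) = 1 / (j : ℝ) := if_pos h
    have hp : J.dgp j x = dg J.H x - 1 := if_pos h
    rw [he, hp, Nat.cast_sub hd]
    field_simp
    push_cast
    ring
  · have he : J.exc j (Sum.inl x) = 0 := if_neg h
    have hp : J.dgp j x = dg J.H x := if_neg h
    rw [he, hp]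
    ring

theorem TT5_dgp_le_dg (x : V) : J.dgp j x ≤ dg J.H x := by
  unfold Inp.dgp
  split
  · exact Nat.sub_le _ _
  · exact le_rfl

/-- inner darts -/
theorem TT5_e2 (H : SimpleGraph V) (D : Finset V) [DecidableRel H.Adj] :
    ∑ x ∈ D, (D.filter (fun y => H.Adj x y)).card = e2 H (D : Set V) := by
  classical
  unfold e2
  have h : {p : V × V | p.1 ∈ (D : Set V) ∧ p.2 ∈ (D : Set V) ∧ H.Adj p.1 p.2} =
      (((D ×ˢ D).filter (fun p => H.Adj p.1 p.2) : Finset (V × V)) : Set (V × V)) := by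
    ext ⟨a, b⟩
    simp [and_assoc]
  rw [h, Set.ncard_coe_finset, Finset.card_filter, Finset.sum_product]
  refine Finset.sum_congr rfl fun x _ => ?_
  rw [Finset.card_filter]

theorem TT5_sum_dg (H : SimpleGraph V) (D : Finset V) :
    ∑ x ∈ D, dg H x = e2 H (D : Set V) + bdn H (D : Set V) := by
  classical
  rw [← sum_dg H (D : Set V)]
  refine Finset.sum_congr ?_ fun _ _ => rfl
  ext x
  simp

/-- PROOF: `K = D.map inl`. For `x ∈ D` the row sum is `1 + exc = dg x / j + yv x` (`xw_sum_must`), i.e. the gadget edges at `inl x` (all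
of them leave `K`) have total weight `yv x`, and the real edges leaving `D` contribute `bdn / j`. -/
theorem real_cross (hj : 2 ≤ j) (hle : ∀ x, J.w x ≤ j + 1) (D : Finset V)
    (hD : ∀ x ∈ D, x ∈ J.pos x ∧ j ≤ J.w x) (K : Finset (V ⊕ V))
    (hK : ∀ a, a ∈ K ↔ ∃ x ∈ D, a = Sum.inl x) :
    (j : ℝ) * ∑ v ∈ K, ∑ w ∈ Kᶜ, J.xw j v w
      = bdn J.H (D : Set V) + ((∑ x ∈ D, (j - J.dgp j x) : ℕ) : ℝ) := by
  classical
  have hj0 : (j : ℝ) ≠ 0 := by positivity
  have hKD : K = D.map ⟨Sum.inl, Sum.inl_injective⟩ := by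
    ext a
    rw [hK, Finset.mem_map]
    constructor
    · rintro ⟨x, hx, rfl⟩
      exact ⟨x, hx, rfl⟩
    · rintro ⟨x, hx, rfl⟩
      exact ⟨x, hx, rfl⟩
  have hrow : ∀ x ∈ D, (j : ℝ) * ∑ w ∈ Kᶜ, J.xw j (Sum.inl x) w =
      j + j * J.exc j (Sum.inl x) - ((D.filter (fun y => J.H.Adj x y)).card : ℝ) := by
    intro x hx
    obtain ⟨h1, h2⟩ := hD x hx
    have h3 := xw_sum_must hj hle h1 h2
    have h4 : ∑ w ∈ K, J.xw j (Sum.inl x) w + ∑ w ∈ Kᶜ, J.xw j (Sum.inl x) w =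
        1 + J.exc j (Sum.inl x) := by
      rw [Finset.sum_add_sum_compl, h3]
    have h5 : (j : ℝ) * ∑ w ∈ K, J.xw j (Sum.inl x) w =
        ((D.filter (fun y => J.H.Adj x y)).card : ℝ) := by
      rw [hKD, Finset.sum_map, Finset.mul_sum, Finset.card_filter]
      push_cast
      refine Finset.sum_congr rfl fun y _ => ?_
      show (j : ℝ) * (if J.H.Adj x y then 1 / (j : ℝ) else 0) = _
      split
      · field_simp
      · ring
    have h6 : ∑ w ∈ Kᶜ, J.xw j (Sum.inl x) w =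
        1 + J.exc j (Sum.inl x) - ∑ w ∈ K, J.xw j (Sum.inl x) w := by
      rw [← h4]; ring
    rw [h6, mul_sub, h5]
    ring
  have hsum : (j : ℝ) * ∑ v ∈ K, ∑ w ∈ Kᶜ, J.xw j v w =
      ∑ x ∈ D, ((j : ℝ) + j * J.exc j (Sum.inl x) -
        ((D.filter (fun y => J.H.Adj x y)).card : ℝ)) := by
    rw [Finset.mul_sum]
    conv_lhs => rw [hKD]
    rw [Finset.sum_map]
    refine Finset.sum_congr rfl fun x hx => ?_
    rw [← hKD]
    exact hrow x hx
  rw [hsum, Finset.sum_sub_distrib]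
  have he : (∑ x ∈ D, ((D.filter (fun y => J.H.Adj x y)).card : ℝ)) = (e2 J.H (D : Set V) : ℝ) := by
    rw [← TT5_e2 J.H D]
    push_cast
    rfl
  have hd : (∑ x ∈ D, (dg J.H x : ℝ)) = (e2 J.H (D : Set V) : ℝ) + bdn J.H (D : Set V) := by
    have := TT5_sum_dg J.H D
    exact_mod_cast this
  have hc : ((∑ x ∈ D, (j - J.dgp j x) : ℕ) : ℝ) = ∑ x ∈ D, ((j : ℝ) - J.dgp j x) := by
    rw [Nat.cast_sum]
    refine Finset.sum_congr rfl fun x _ => ?_
    rw [Nat.cast_sub (dgp_le hle x)]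
  have hz : ∑ x ∈ D, ((j : ℝ) + j * J.exc j (Sum.inl x)) =
      ∑ x ∈ D, ((j : ℝ) - J.dgp j x) + ∑ x ∈ D, (dg J.H x : ℝ) := by
    rw [← Finset.sum_add_distrib]
    refine Finset.sum_congr rfl fun x hx => ?_
    rw [← TT5_dg_exc hj (hD x hx).1]
    ring
  rw [he, hz, hd, hc]
  ring

/-- PROOF: `∑_D dg = e2 + bdn` (`sum_dg`), `dg ≥ dgp`, so `j |D| ≤ e2 + bdn + ∑ (j - dgp) ≤ e2 + j - 1`; parity: `e2` is even (`e2_even`), `|D|`
odd, so `j |D| - e2 ≡ j` is not `j - 1`. -/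
theorem dense_of_light (D : Finset V) (hodd : Odd D.card) (hle : ∀ x, J.w x ≤ j + 1)
    (hlt : bdn J.H (D : Set V) + ∑ x ∈ D, (j - J.dgp j x) < j) :
    j * (D : Set V).ncard + 2 ≤ e2 J.H (D : Set V) + j := by
  rw [Set.ncard_coe_finset]
  have h1 : j * D.card ≤ ∑ x ∈ D, dg J.H x + ∑ x ∈ D, (j - J.dgp j x) := by
    rw [← Finset.sum_add_distrib, mul_comm, ← smul_eq_mul, ← Finset.sum_const]
    refine Finset.sum_le_sum fun x _ => ?_
    have := TT5_dgp_le_dg (J := J) (j := j) x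
    omega
  have h2 := TT5_sum_dg J.H D
  obtain ⟨k, hk⟩ := hodd
  obtain ⟨e, he⟩ := e2_even J.H (D : Set V)
  have h3 : j * D.card = 2 * (j * k) + j := by rw [hk]; ring
  omega
end TT5

end Pool.MP405d56
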