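import Pool.Agent.Lib.MP_405d56_lc.O2.TT5

/-!
# MP_405d56_lc, outer process, row TT6: nets
-/

open Set

namespace Pool.MP405d56

variable {V : Type}

section TT6
variable {J : Inp V} {t : ℕ} {Fb : Set V} {N : SimpleGraph V}

/-- add one edge -/
def TT6_add (N : SimpleGraph V) (x y : V) (h : x ≠ y) : SimpleGraph V where
  Adj a b := N.Adj a b ∨ (a = x ∧ b = y) ∨ (a = y ∧ b = x)
  symm := ⟨fun a b hab => by
    rcases hab with hab | ⟨h1, h2⟩ | ⟨h1, h2⟩
    · exact Or.inl hab.symm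
    · exact Or.inr (Or.inr ⟨h2, h1⟩)
    · exact Or.inr (Or.inl ⟨h2, h1⟩)⟩
  loopless := ⟨fun a hab => by
    rcases hab with hab | ⟨h1, h2⟩ | ⟨h1, h2⟩
    · exact hab.ne rfl
    · exact h (h1.symm.trans h2)
    · exact h (h2.symm.trans h1)⟩

theorem exists_net [Finite V] (J : Inp V) (t : ℕ) (Fb : Set V) : ∃ N, IsNet J t Fb N := by
  classical
  let P : Set (SimpleGraph V) := {N | N ≤ J.H ∧
    (∀ x x' y y', N.Adj x x' → N.Adj y y' → J.near (t + 2) x y → y = x ∨ y = x') ∧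
    ∀ x x', N.Adj x x' → ∀ f ∈ Fb, ¬ J.near (t + 2) x f}
  have hfin : P.Finite := Set.toFinite _
  have hne : P.Nonempty := by
    refine ⟨⊥, bot_le, ?_, ?_⟩
    · intro x x' y y' h
      exact absurd h (by simp)
    · intro x x' h
      exact absurd h (by simp)
  obtain ⟨N, hN⟩ := hfin.exists_maximal hne
  obtain ⟨hsub, hsep, hoff⟩ := hN.prop
  refine ⟨N, hsub, hsep, hoff, ?_⟩
  intro x y hxy
  by_contra hcon
  rw [not_or] at hcon
  obtain ⟨hc1, hc2⟩ := hcon
  have h1 : ∀ n n', N.Adj n n' → ¬ J.near (t + 3) x n := fun n n' hn hx => hc1 ⟨n, n', hn, hx⟩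
  have h2 : ∀ f ∈ Fb, ¬ J.near (t + 3) x f := fun f hf hx => hc2 ⟨f, hf, hx⟩
  have h3 : ∀ a b, ((a = x ∧ b = y) ∨ (a = y ∧ b = x)) → J.near 1 x a := by
    rintro a b (⟨h, _⟩ | ⟨h, _⟩)
    · rw [h]; exact Inp.near_refl J 1 x
    · rw [h]; exact Inp.near_adj hxy
  have h4 : ∀ a b c, ((a = x ∧ b = y) ∨ (a = y ∧ b = x)) → J.near (t + 2) a c →
      J.near (t + 3) x c := by
    intro a b c hab hac
    have := Inp.near_trans (h3 a b hab) hac
    rwa [show 1 + (t + 2) = t + 3 by omega] at this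
  have hN' : TT6_add N x y hxy.ne ∈ P := by
    refine ⟨?_, ?_, ?_⟩
    · intro a b hab
      rcases hab with hab | ⟨h1, h2⟩ | ⟨h1, h2⟩
      · exact hsub hab
      · rw [h1, h2]; exact hxy
      · rw [h1, h2]; exact hxy.symm
    · intro a a' b b' ha hb hab
      rcases ha with ha | ha
      · rcases hb with hb | hb
        · exact hsep a a' b b' ha hb hab
        · exact absurd (h4 b b' a hb (Inp.near_symm hab)) (h1 a a' ha)
      · rcases hb with hb | hb
        · exact absurd (h4 a a' b ha hab) (h1 b b' hb)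
        · rcases ha with ⟨e1, e2⟩ | ⟨e1, e2⟩ <;> rcases hb with ⟨e3, e4⟩ | ⟨e3, e4⟩
          · exact Or.inl (e3.trans e1.symm)
          · exact Or.inr (e3.trans e2.symm)
          · exact Or.inr (e3.trans e2.symm)
          · exact Or.inl (e3.trans e1.symm)
    · intro a a' ha f hf hab
      rcases ha with ha | ha
      · exact hoff a a' ha f hf hab
      · exact h2 f hf (h4 a a' f ha hab)
  have hle : N ≤ TT6_add N x y hxy.ne := fun a b hab => Or.inl hab
  have hback : TT6_add N x y hxy.ne ≤ N := hN.le_of_ge hN' hle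
  have hadj : N.Adj x y := hback (Or.inr (Or.inl ⟨rfl, rfl⟩))
  exact h1 x y hadj (Inp.near_refl J _ x)

theorem net_comp [Finite V] (hN : IsNet J t Fb N)
    (hs : ∀ x ∈ Fb, ∀ y ∈ Fb, J.near (2 * t + 10) x y → J.E x y) {x z : V} (hx : J.H.Adj x z) :
    (∃ n n', N.Adj n n' ∧ J.near (rho t) x n) ∨
      ∃ f ∈ Fb, ∀ y z, J.Q.Reachable x y → J.H.Adj y z → J.near (t + 4) f y := by
  by_cases hnet : ∃ n n', N.Adj n n' ∧ J.near (rho t) x n
  · exact Or.inl hnet
  right
  have hno : ∀ n n', N.Adj n n' → ¬ J.near (rho t) x n := fun n n' hn h => hnet ⟨n, n', hn, h⟩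
  have hrho : rho t = 4 * t + 22 := by unfold rho; ring
  rcases hN.dense x z hx with ⟨n, n', hn, h⟩ | ⟨f0, hf0, hxf⟩
  · exact absurd (Inp.near_mono (by rw [hrho]; omega) h) (hno n n' hn)
  -- vertices of positive degree near `f0`
  have hA : ∀ u v, J.H.Adj u v → J.near (t + 6) f0 u → J.near (t + 4) f0 u := by
    intro u v huv hu
    rcases hN.dense u v huv with ⟨n, n', hn, h⟩ | ⟨f1, hf1, h⟩
    · exfalso
      have h1 := Inp.near_trans (Inp.near_trans hxf hu) h
      exact hno n n' hn (Inp.near_mono (by rw [hrho]; omega) h1)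
    · have h1 := Inp.near_trans hu h
      have h2 := hs f0 hf0 f1 hf1 (Inp.near_mono (by omega) h1)
      have h3 := Inp.near_trans (Inp.near_E h2) (Inp.near_symm h)
      exact Inp.near_mono (by omega) h3
  have hB : ∀ {u y : V} (p : J.Q.Walk u y),
      (∃ w, (∃ v, J.H.Adj w v) ∧ J.E w u ∧ J.near (t + 4) f0 w) →
      ∃ w, (∃ v, J.H.Adj w v) ∧ J.E w y ∧ J.near (t + 4) f0 w := by
    intro u y p
    induction p with
    | nil => exact fun h => h
    | cons hadj q ih =>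
      rename_i a b c
      rintro ⟨w, hw1, hw2, hw3⟩
      apply ih
      rcases hadj.2 with h | h
      · refine ⟨b, ⟨a, h.symm⟩, J.eqv.refl b, ?_⟩
        have h1 := Inp.near_trans (Inp.near_trans hw3 (Inp.near_E hw2)) (Inp.near_adj h)
        exact hA b a h.symm (Inp.near_mono (by omega) h1)
      · exact ⟨w, hw1, J.eqv.trans hw2 h, hw3⟩
  refine ⟨f0, hf0, ?_⟩
  rintro y v ⟨p⟩ hy
  obtain ⟨w, -, hw2, hw3⟩ := hB p ⟨x, ⟨z, hx⟩, J.eqv.refl x,
    Inp.near_mono (by omega) (Inp.near_symm hxf)⟩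
  have h1 := Inp.near_trans hw3 (Inp.near_E hw2)
  exact hA y v hy (Inp.near_mono (by omega) h1)

end TT6

end Pool.MP405d56
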