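import Pool.Agent.Lib.MP_405d56_lc.O2.TT6

open Set

namespace Pool.MP405d56

variable {V : Type}

/-! ## TT7: light parts are small -/
section TT7
variable {j t L : ℕ} {I : Inp V} {F : Set (Set V)} {Fb : Set V} {N : SimpleGraph V}

/-- all the darts of the class are at `u` -/
theorem TT7_iso [Finite V] (J : Inp V) {u y z : V} (hw : J.w u ≤ dg J.H u) (huy : J.E u y)
    (hyu : y ≠ u) : ¬ J.H.Adj y z := by
  intro hyz
  have h1 : dg J.H u + 1 ≤ J.w u := by
    have h2 : (insert (y, z) ((fun v => (u, v)) '' {v | J.H.Adj u v}) : Set (V × V)).ncard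
        = dg J.H u + 1 := by
      rw [Set.ncard_insert_of_notMem, Set.ncard_image_of_injective]
      · rfl
      · intro a b hab
        exact (Prod.mk.inj hab).2
      · rintro ⟨v, -, hv⟩
        exact hyu (Prod.mk.inj hv).1.symm
    rw [← h2]
    unfold Inp.w cnt
    refine Set.ncard_le_ncard ?_ (Set.toFinite _)
    rintro ⟨a, b⟩ (hab | ⟨v, hv, hab⟩)
    · obtain ⟨rfl, rfl⟩ := Prod.mk.inj hab
      exact ⟨huy, hyz⟩
    · obtain ⟨rfl, rfl⟩ := Prod.mk.inj hab
      exact ⟨J.eqv.refl _, hv⟩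
  omega

open Classical in
/-- the number of exits of the first kind -/
theorem TT7_exits [Fintype V] (J : Inp V) (j : ℕ) (D X1 : Finset V)
    (hX : ∀ u ∈ X1, u ∈ D ∧ ((∃ z, z ∉ D ∧ J.H.Adj u z) ∨ J.dgp j u < j)) :
    X1.card ≤ bdn J.H (D : Set V) + ∑ x ∈ D, (j - J.dgp j x) := by
  have ha : (D.filter fun u => ∃ z, z ∉ D ∧ J.H.Adj u z).card ≤ bdn J.H (D : Set V) := by
    have hch : ∀ u : V, ∃ z : V, (∃ z, z ∉ D ∧ J.H.Adj u z) → z ∉ D ∧ J.H.Adj u z := by
      intro u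
      by_cases h : ∃ z, z ∉ D ∧ J.H.Adj u z
      · obtain ⟨z, hz⟩ := h
        exact ⟨z, fun _ => hz⟩
      · exact ⟨u, fun h' => absurd h' h⟩
    choose f hf using hch
    unfold bdn
    rw [← Set.ncard_coe_finset]
    apply Set.ncard_le_ncard_of_injOn (fun u => (u, f u))
    · intro u hu
      rw [Finset.mem_coe, Finset.mem_filter] at hu
      obtain ⟨h1, h2⟩ := hf u hu.2
      exact ⟨hu.1, h1, h2⟩
    · intro a _ b _ hab
      exact (Prod.mk.inj hab).1
  have hb : (D.filter fun u => J.dgp j u < j).card ≤ ∑ x ∈ D, (j - J.dgp j x) := by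
    rw [Finset.card_eq_sum_ones]
    calc ∑ x ∈ D.filter (fun u => J.dgp j u < j), 1
        ≤ ∑ x ∈ D.filter (fun u => J.dgp j u < j), (j - J.dgp j x) := by
          refine Finset.sum_le_sum fun x hx => ?_
          rw [Finset.mem_filter] at hx
          omega
      _ ≤ ∑ x ∈ D, (j - J.dgp j x) :=
          Finset.sum_le_sum_of_subset (Finset.filter_subset _ _)
  have hsub : X1 ⊆ (D.filter fun u => ∃ z, z ∉ D ∧ J.H.Adj u z) ∪
      (D.filter fun u => J.dgp j u < j) := by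
    intro u hu
    obtain ⟨h1, h2 | h2⟩ := hX u hu
    · exact Finset.mem_union_left _ (Finset.mem_filter.2 ⟨h1, h2⟩)
    · exact Finset.mem_union_right _ (Finset.mem_filter.2 ⟨h1, h2⟩)
  exact (Finset.card_le_card hsub).trans
    ((Finset.card_union_le _ _).trans (Nat.add_le_add ha hb))

/-- (b): around a point of `D` without exits nearby -/
theorem TT7_claim (J I : Inp V) (D X : Set V) (ρ : ℕ)
    (hE : ∀ u ∈ D, ∀ y, J.E u y ↔ I.E u y)
    (hA : ∀ u ∈ D, ∀ z, J.H.Adj u z → I.H.Adj u z)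
    (hX1 : ∀ u ∈ D, u ∉ X → ∀ z, J.H.Adj u z → z ∈ D)
    (hX2 : ∀ u ∈ D, u ∉ X → ∀ y z, J.E u y → y ≠ u → ¬ J.H.Adj y z)
    {x : V} (hx : x ∈ D) (hno : ∀ u ∈ D, u ∈ X → ¬ I.near ρ x u) :
    ∀ m ≤ ρ, ∀ y, J.near m x y → I.near m x y ∧
      (y ∈ D ∨ ∃ u ∈ D, u ∉ X ∧ J.E u y ∧ y ≠ u) := by
  intro m
  induction m with
  | zero =>
    intro _ y h
    rw [Inp.near_zero] at h
    subst h
    exact ⟨Inp.near_refl I 0 _, Or.inl hx⟩
  | succ m ih =>
    intro hm y h
    rcases Inp.near_succ.1 h with h | ⟨z, hz, hzy⟩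
    · obtain ⟨h1, h2⟩ := ih (by omega) y h
      exact ⟨Inp.near_mono (Nat.le_succ m) h1, h2⟩
    · obtain ⟨h1, h2⟩ := ih (by omega) z hz
      obtain ⟨hne, hadj⟩ := hzy
      rcases h2 with hzD | ⟨u, huD, huX, huz, hzu⟩
      · have hzX : z ∉ X := fun h => hno z hzD h (Inp.near_mono (by omega) h1)
        rcases hadj with hadj | hadj
        · exact ⟨Inp.near_trans h1 (Inp.near_adj (hA z hzD y hadj)),
            Or.inl (hX1 z hzD hzX y hadj)⟩
        · exact ⟨Inp.near_trans h1 (Inp.near_E ((hE z hzD y).1 hadj)),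
            Or.inr ⟨z, hzD, hzX, hadj, hne.symm⟩⟩
      · rcases hadj with hadj | hadj
        · exact absurd hadj (hX2 u huD huX z y huz hzu)
        · have huy : J.E u y := J.eqv.trans huz hadj
          have h3 : I.E z y :=
            I.eqv.trans (I.eqv.symm ((hE u huD z).1 huz)) ((hE u huD y).1 huy)
          refine ⟨Inp.near_trans h1 (Inp.near_E h3), ?_⟩
          by_cases hyu : y = u
          · left
            rw [hyu]
            exact huD
          · exact Or.inr ⟨u, huD, huX, huy, hyu⟩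

theorem light_small [Fintype V] [DecidableEq V] (h : Hyp j t L I F Fb)
    (hN : IsNet (I.plus F) t Fb N) (D : Finset V)
    (hconn : ((I.plus F).H.induce (D : Set V)).Connected)
    (one : ∀ x ∈ D, ∀ y ∈ D, (I.plus F).E x y → x = y)
    (hmust : ∀ x ∈ D, x ∈ (I.plus F).pos x ∧ j ≤ (I.plus F).w x)
    (hnet : ∀ n n', N.Adj n n' → n ∉ D)
    (hlt : bdn (I.plus F).H (D : Set V) + ∑ x ∈ D, (j - (I.plus F).dgp j x) < j) :
    ∀ x ∈ D, ∀ y ∈ D, I.near L x y := by
  classical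
  set J := I.plus F with hJ
  set ρ := rho t with hρ
  have hρ' : ρ = 4 * (t + 3) + 10 := rfl
  have hL0 : (j + 4) * (2 * ρ + 4) ≤ L := h.hL
  have hT0 : T0 j t = 4 * ((j + 2) * (2 * ρ + 10)) + 2 * ρ + 20 := rfl
  have hT1 : T1 j t L = (L + 2) * (T0 j t + 1) + 2 * L + 4 * ρ + 20 := rfl
  have hLT : L ≤ T1 j t L := by rw [hT1]; omega
  have hfar : ∀ x y, I.w x = j + 1 → I.w y = j + 1 → I.near L x y → I.E x y :=
    fun x y hx hy hxy => h.far x y hx hy (Inp.near_mono hLT hxy)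
  have hfree := fun u (hu : u ∈ D) =>
    plus_free h.fam (free_of_must h.fam h.le hfar (hmust u hu).2)
  have hE : ∀ u ∈ (D : Set V), ∀ y, J.E u y ↔ I.E u y := fun u hu => (hfree u hu).1
  have hA : ∀ u ∈ (D : Set V), ∀ z, J.H.Adj u z → I.H.Adj u z :=
    fun u hu z hz => ((hfree u hu).2.1 u (I.eqv.refl u) z).1 hz
  have hw : ∀ u ∈ D, J.w u = I.w u := fun u hu => (hfree u hu).2.2
  have hle : ∀ x, J.w x ≤ j + 1 := plus_w_le h.fam h.le hfar
  -- the exits
  set X1 : Finset V := D.filter fun u => (∃ z, z ∉ D ∧ J.H.Adj u z) ∨ J.dgp j u < j with hX1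
  set X : Set V := {u | u ∈ X1 ∨ J.w u = j + 1} with hX
  have hX1c : X1.card < j :=
    (TT7_exits J j D X1 (fun u hu => Finset.mem_filter.1 hu)).trans_lt hlt
  have hXa : ∀ u ∈ (D : Set V), u ∉ X → ∀ z, J.H.Adj u z → z ∈ (D : Set V) := by
    intro u hu huX z hz
    by_contra hzD
    exact huX (Or.inl (Finset.mem_filter.2 ⟨hu, Or.inl ⟨z, hzD, hz⟩⟩))
  have hXb : ∀ u ∈ (D : Set V), u ∉ X → ∀ y z, J.E u y → y ≠ u → ¬ J.H.Adj y z := by
    intro u hu huX y z huy hyu
    refine TT7_iso J ?_ huy hyu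
    have h1 : J.w u ≠ j + 1 := fun h => huX (Or.inr h)
    have h2 : ¬ J.dgp j u < j := fun h => huX (Or.inl (Finset.mem_filter.2 ⟨hu, Or.inr h⟩))
    have h3 : J.dgp j u = dg J.H u := by
      unfold Inp.dgp
      rw [if_neg (fun h => h1 h.1)]
    have h4 := hle u
    omega
  -- reachability in `D`
  have hreach : ∀ x ∈ D, ∀ y ∈ D, J.Q.Reachable x y := by
    intro x hx y hy
    have h1 := hconn.preconnected ⟨x, hx⟩ ⟨y, hy⟩
    exact h1.map (⟨Subtype.val, fun {a b} hab => ⟨fun h => hab.ne (Subtype.ext h), Or.inl hab⟩⟩ :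
      (J.H.induce (D : Set V)) →g J.Q)
  by_cases hcase : ∃ x ∈ D, ∀ u ∈ (D : Set V), u ∈ X → ¬ I.near ρ x u
  · -- (b)
    obtain ⟨x, hx, hno⟩ := hcase
    have claim := TT7_claim J I (D : Set V) X ρ hE hA hXa hXb hx hno
    have hpos : ∀ m ≤ ρ, ∀ y z, J.near m x y → J.H.Adj y z → y ∈ D := by
      intro m hm y z hy hyz
      rcases (claim m hm y hy).2 with h1 | ⟨u, hu, huX, huy, hyu⟩
      · exact h1
      · exact absurd hyz (hXb u hu huX y z huy hyu)
    obtain ⟨-, ⟨x', hxx'⟩⟩ := (hmust x hx).1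
    have hs : ∀ x ∈ Fb, ∀ y ∈ Fb, J.near (2 * t + 10) x y → J.E x y := by
      intro a ha b hb hab
      refine h.sparse a ha b hb (Inp.near_mono ?_ hab)
      rw [hT0]
      omega
    rcases net_comp hN hs hxx' with ⟨n, n', hn, hxn⟩ | ⟨f, hf, hall⟩
    · exact absurd (hpos _ le_rfl n n' hxn (hN.sub hn)) (hnet n n' hn)
    · have hnear : ∀ y ∈ D, I.near (2 * t + 8) x y := by
        intro y hy
        obtain ⟨-, ⟨y', hyy'⟩⟩ := (hmust y hy).1
        have h1 := hall x x' (SimpleGraph.Reachable.refl x) hxx'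
        have h2 := hall y y' (hreach x hx y hy) hyy'
        have h3 : J.near (2 * t + 8) x y :=
          Inp.near_mono (by omega) (Inp.near_trans (Inp.near_symm h1) h2)
        exact (claim _ (by omega) y h3).1
      intro a ha b hb
      refine Inp.near_mono ?_ (Inp.near_trans (Inp.near_symm (hnear a ha)) (hnear b hb))
      refine le_trans ?_ hL0
      have h5 : 1 * (2 * ρ + 4) ≤ (j + 4) * (2 * ρ + 4) := Nat.mul_le_mul_right _ (by omega)
      omega
  · -- (c)
    push Not at hcase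
    intro x hx y hy
    by_contra hxy
    have hpt : ∀ i, i ≤ j + 1 → ∃ c ∈ D, I.near (i * (2 * ρ + 2)) x c ∧
        (1 ≤ i → ¬ I.near (i * (2 * ρ + 2) - 1) x c) := by
      intro i hi
      rcases Nat.eq_zero_or_pos i with rfl | hi0
      · exact ⟨x, hx, Inp.near_refl I _ x, fun h => absurd h (by omega)⟩
      · have hiL : i * (2 * ρ + 2) ≤ L := by
          refine le_trans ?_ hL0
          exact Nat.mul_le_mul (by omega) (by omega)
        have hi1 : 1 ≤ i * (2 * ρ + 2) := Nat.mul_pos hi0 (by omega)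
        obtain ⟨p⟩ := hconn.preconnected ⟨x, hx⟩ ⟨y, hy⟩
        obtain ⟨d, -, hd1, hd2⟩ := p.exists_boundary_dart
          {v | I.near (i * (2 * ρ + 2) - 1) x v.1} (Inp.near_refl I _ x)
          (fun hh => hxy (Inp.near_mono (by omega) hh))
        refine ⟨d.snd.1, d.snd.2, ?_, fun _ => hd2⟩
        have h1 := Inp.near_trans hd1 (Inp.near_adj (hA d.fst.1 d.fst.2 d.snd.1 d.adj))
        exact Inp.near_mono (by omega) h1
    have hex : ∀ i, ∃ c u, i ≤ j + 1 → (c ∈ D ∧ I.near (i * (2 * ρ + 2)) x c ∧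
        (1 ≤ i → ¬ I.near (i * (2 * ρ + 2) - 1) x c)) ∧ u ∈ D ∧ u ∈ X ∧ I.near ρ c u := by
      intro i
      by_cases hi : i ≤ j + 1
      · obtain ⟨c, hc⟩ := hpt i hi
        obtain ⟨u, hu1, hu2, hu3⟩ := hcase c hc.1
        exact ⟨c, u, fun _ => ⟨hc, hu1, hu2, hu3⟩⟩
      · exact ⟨x, x, fun h => absurd h hi⟩
    choose c u hcu using hex
    have hinj : ∀ i k, i < k → k ≤ j + 1 → u i ≠ u k := by
      intro i k hik hk heq
      obtain ⟨⟨-, h1, -⟩, -, -, h2⟩ := hcu i (by omega)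
      obtain ⟨⟨-, -, h3⟩, -, -, h4⟩ := hcu k hk
      refine h3 (by omega) ?_
      rw [heq] at h2
      have h5 := Inp.near_trans (Inp.near_trans h1 h2) (Inp.near_symm h4)
      refine Inp.near_mono ?_ h5
      have h6 : (i + 1) * (2 * ρ + 2) ≤ k * (2 * ρ + 2) := Nat.mul_le_mul_right _ hik
      have h7 : (i + 1) * (2 * ρ + 2) = i * (2 * ρ + 2) + (2 * ρ + 2) := by ring
      omega
    set U : Finset V := (Finset.range (j + 2)).image u with hU
    have hUc : U.card = j + 2 := by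
      rw [hU, Finset.card_image_of_injOn, Finset.card_range]
      intro a ha b hb hab
      rw [Finset.mem_coe, Finset.mem_range] at ha hb
      rcases lt_trichotomy a b with h1 | h1 | h1
      · exact absurd hab (hinj a b h1 (by omega))
      · exact h1
      · exact absurd hab.symm (hinj b a h1 (by omega))
    have hcard : 1 < (U \ X1).card := by
      have := Finset.le_card_sdiff X1 U
      omega
    obtain ⟨a, ha, b, hb, hab⟩ := Finset.one_lt_card.1 hcard
    have hget : ∀ a ∈ U \ X1, a ∈ D ∧ J.w a = j + 1 ∧ I.near ((j + 1) * (2 * ρ + 2) + ρ) x a := by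
      intro a ha
      rw [Finset.mem_sdiff, hU, Finset.mem_image] at ha
      obtain ⟨⟨i, hi, rfl⟩, haX⟩ := ha
      rw [Finset.mem_range] at hi
      obtain ⟨⟨-, h1, -⟩, h2, h3, h4⟩ := hcu i (by omega)
      refine ⟨h2, h3.resolve_left haX, ?_⟩
      refine Inp.near_mono ?_ (Inp.near_trans h1 h4)
      have : i * (2 * ρ + 2) ≤ (j + 1) * (2 * ρ + 2) := Nat.mul_le_mul_right _ (by omega)
      omega
    obtain ⟨ha1, ha2, ha3⟩ := hget a ha
    obtain ⟨hb1, hb2, hb3⟩ := hget b hb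
    apply hab
    refine one a ha1 b hb1 ?_
    rw [hE a ha1 b]
    refine h.far a b (by rw [← hw a ha1]; exact ha2) (by rw [← hw b hb1]; exact hb2) ?_
    refine Inp.near_mono ?_ (Inp.near_trans (Inp.near_symm ha3) hb3)
    rw [hT1, hT0]
    have h1 : 2 * (4 * ((j + 2) * (2 * ρ + 10)) + 2 * ρ + 20 + 1) ≤
        (L + 2) * (4 * ((j + 2) * (2 * ρ + 10)) + 2 * ρ + 20 + 1) :=
      Nat.mul_le_mul_right _ (by omega)
    have h2 : (j + 1) * (2 * ρ + 2) ≤ (j + 2) * (2 * ρ + 10) :=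
      Nat.mul_le_mul (by omega) (by omega)
    omega
end TT7

end Pool.MP405d56
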