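import Pool.Agent.Lib.MP_405d56_lc.O2.TT7

/-!
# MP_405d56_lc, outer process, row TT8: every part has boundary weight at least one
-/

open Set

namespace Pool.MP405d56

variable {V : Type}

section TT8
variable [Fintype V] [DecidableEq V] {j t L : ℕ} {I : Inp V} {F : Set (Set V)} {Fb : Set V}
  {N : SimpleGraph V}

omit [Fintype V] [DecidableEq V] in
/-- the separation hypothesis for the old special classes at distance `L` -/
theorem TT8_far (h : Hyp j t L I F Fb) :
    ∀ x y, I.w x = j + 1 → I.w y = j + 1 → I.near L x y → I.E x y := by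
  intro x y hx hy hxy
  refine h.far x y hx hy (Inp.near_mono ?_ hxy)
  unfold T1
  have h1 : L + 2 ≤ (L + 2) * (T0 j t + 1) := Nat.le_mul_of_pos_right _ (Nat.succ_pos _)
  omega

/-- the free classes of the points of a set of obligatory vertices -/
theorem TT8_free (h : Hyp j t L I F Fb) {x : V} (hx : j ≤ (I.plus F).w x) :
    (∀ D ∈ F, ∀ u ∈ D, ¬ I.E x u) ∧ (∀ y, (I.plus F).E x y ↔ I.E x y) ∧
      (∀ z, (I.plus F).H.Adj x z ↔ I.H.Adj x z) ∧ (I.plus F).w x = I.w x := by
  have h1 := free_of_must h.fam h.le (TT8_far h) hx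
  obtain ⟨h2, h3, h4⟩ := plus_free h.fam h1
  exact ⟨h1, h2, h3 x (I.eqv.refl x), h4⟩

/-- a set of obligatory vertices, dense in `I.plus F`, is a lump of `I`, which is impossible -/
theorem TT8_no_lump (h : Hyp j t L I F Fb) (D : Finset V) (hodd : Odd D.card)
    (hconn : ((I.plus F).H.induce (D : Set V)).Connected)
    (one : ∀ x ∈ D, ∀ y ∈ D, (I.plus F).E x y → x = y)
    (hmust : ∀ x ∈ D, j ≤ (I.plus F).w x)
    (hdense : j * (D : Set V).ncard + 2 ≤ e2 (I.plus F).H (D : Set V) + j)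
    (hsmall : ∀ x ∈ D, ∀ y ∈ D, I.near L x y) : False := by
  have hadj : ∀ x ∈ D, ∀ z, (I.plus F).H.Adj x z ↔ I.H.Adj x z :=
    fun x hx z => (TT8_free h (hmust x hx)).2.2.1 z
  have hind : I.H.induce (D : Set V) = (I.plus F).H.induce (D : Set V) := by
    ext a b
    exact (hadj a.1 (Finset.mem_coe.1 a.2) b.1).symm
  have he2 : e2 (I.plus F).H (D : Set V) = e2 I.H (D : Set V) := by
    unfold e2
    congr 1
    ext ⟨a, b⟩
    constructor
    · rintro ⟨h1, h2, h3⟩
      exact ⟨h1, h2, (hadj a (Finset.mem_coe.1 h1) b).1 h3⟩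
    · rintro ⟨h1, h2, h3⟩
      exact ⟨h1, h2, (hadj a (Finset.mem_coe.1 h1) b).2 h3⟩
  have hl : IsLump L j I (D : Set V) :=
    { odd := by rw [Set.ncard_coe_finset]; exact hodd
      conn := by rw [hind]; exact hconn
      one := fun x hx y hy hxy => one x (Finset.mem_coe.1 hx) y (Finset.mem_coe.1 hy)
        (((TT8_free h (hmust x (Finset.mem_coe.1 hx))).2.1 y).2 hxy)
      must := fun x hx => by
        have h1 := hmust x (Finset.mem_coe.1 hx)
        rwa [(TT8_free h h1).2.2.2] at h1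
      dense := by rw [← he2]; exact hdense
      small := fun x hx y hy => hsmall x (Finset.mem_coe.1 hx) y (Finset.mem_coe.1 hy) }
  obtain ⟨D', hD', x, hx, y, hy, hxy⟩ := h.fam.max _ hl
  exact (TT8_free h (hmust x (Finset.mem_coe.1 hx))).1 D' hD' y hy hxy

theorem part_ge_one (h : Hyp j t L I F Fb) (hN : IsNet (I.plus F) t Fb N)
    (R S K : Finset (V ⊕ V)) (hR : ∀ a, a ∈ R ↔ a ∈ reqN (I.plus F) j N)
    (hK : IsBarrierPart ((I.plus F).gad j) R S K) :
    1 ≤ ∑ v ∈ K, ∑ w ∈ Kᶜ, (I.plus F).xw j v w := by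
  classical
  have hle : ∀ x, (I.plus F).w x ≤ j + 1 := plus_w_le h.fam h.le (TT8_far h)
  have hreq : ∀ a ∈ K, a ∈ (I.plus F).req j := fun a ha => ((hR a).1 (hK.sub ha)).1
  by_cases hc : (∃ y, Sum.inr y ∈ K) ∨
      ∃ x y, x ≠ y ∧ Sum.inl x ∈ K ∧ Sum.inl y ∈ K ∧ (I.plus F).E x y
  · exact gad_cross h.hj hle K hreq hK.conn hc
  · rw [not_or] at hc
    obtain ⟨hinr, hone⟩ := hc
    obtain ⟨D, hDdef⟩ : ∃ D : Finset V, ∀ x, x ∈ D ↔ Sum.inl x ∈ K :=
      ⟨Finset.univ.filter (fun x => Sum.inl x ∈ K), fun x => by simp⟩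
    have hKD : ∀ a, a ∈ K ↔ ∃ x ∈ D, a = Sum.inl x := by
      intro a
      constructor
      · intro ha
        cases a with
        | inl x => exact ⟨x, (hDdef x).2 ha, rfl⟩
        | inr y => exact absurd ⟨y, ha⟩ hinr
      · rintro ⟨x, hx, rfl⟩
        exact (hDdef x).1 hx
    have hKmap : K = D.map ⟨(Sum.inl : V → V ⊕ V), Sum.inl_injective⟩ := by
      ext a
      rw [hKD, Finset.mem_map]
      constructor
      · rintro ⟨x, hx, rfl⟩
        exact ⟨x, hx, rfl⟩
      · rintro ⟨x, hx, rfl⟩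
        exact ⟨x, hx, rfl⟩
    have hodd : Odd D.card := by
      have := hK.odd
      rwa [hKmap, Finset.card_map] at this
    have one : ∀ x ∈ D, ∀ y ∈ D, (I.plus F).E x y → x = y := by
      intro x hx y hy hxy
      by_contra hne
      exact hone ⟨x, y, hne, (hDdef x).1 hx, (hDdef y).1 hy, hxy⟩
    have hmust : ∀ x ∈ D, x ∈ (I.plus F).pos x ∧ j ≤ (I.plus F).w x :=
      fun x hx => hreq _ ((hDdef x).1 hx)
    have hnet : ∀ n n', N.Adj n n' → n ∉ D := by
      intro n n' hnn hn
      exact ((hR _).1 (hK.sub ((hDdef n).1 hn))).2 n n' hnn rfl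
    have hconn : ((I.plus F).H.induce (D : Set V)).Connected := by
      let f : ↥(D : Set V) → ↥(K : Set (V ⊕ V)) := fun x =>
        ⟨Sum.inl x.1, Finset.mem_coe.2 ((hDdef x.1).1 (Finset.mem_coe.1 x.2))⟩
      have hf : Function.Bijective f := by
        constructor
        · intro a b hab
          apply Subtype.ext
          exact Sum.inl_injective (congrArg Subtype.val hab)
        · rintro ⟨b, hb⟩
          obtain ⟨x, hx, hbx⟩ := (hKD b).1 (Finset.mem_coe.1 hb)
          refine ⟨⟨x, Finset.mem_coe.2 hx⟩, ?_⟩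
          apply Subtype.ext
          exact hbx.symm
      let e : ((I.plus F).H.induce (D : Set V)) ≃g (((I.plus F).gad j).induce (K : Set (V ⊕ V))) :=
        { toEquiv := Equiv.ofBijective f hf
          map_rel_iff' := Iff.rfl }
      exact e.connected_iff.2 hK.conn
    by_contra hlt
    rw [not_le] at hlt
    have hrc := real_cross h.hj hle D hmust K hKD
    have hj0 : (0 : ℝ) < j := by
      have := h.hj
      exact_mod_cast (by omega : 0 < j)
    have hlt' : bdn (I.plus F).H (D : Set V) + ∑ x ∈ D, (j - (I.plus F).dgp j x) < j := by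
      have h1 : (j : ℝ) * ∑ v ∈ K, ∑ w ∈ Kᶜ, (I.plus F).xw j v w < j := by
        calc (j : ℝ) * ∑ v ∈ K, ∑ w ∈ Kᶜ, (I.plus F).xw j v w < j * 1 :=
              mul_lt_mul_of_pos_left hlt hj0
          _ = j := mul_one _
      rw [hrc] at h1
      exact_mod_cast h1
    have hsmall := light_small h hN D hconn one hmust hnet hlt'
    have hdense := dense_of_light (J := I.plus F) D hodd hle hlt'
    exact TT8_no_lump h D hodd hconn one (fun x hx => (hmust x hx).2) hdense hsmall

end TT8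

end Pool.MP405d56
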