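import Pool.Agent.Lib.MP_405d56_lc.O2.TT8

open Set

namespace Pool.MP405d56

theorem TT9_reach {W : Type} (G : SimpleGraph W) (Y D : Finset W) (hDY : D ⊆ Y)
    {x y : (D : Set W)} (h : (G.induce (D : Set W)).Reachable x y) :
    Relation.ReflTransGen (fun u v => u ∈ Y ∧ v ∈ Y ∧ G.Adj u v) x.1 y.1 := by
  obtain ⟨p⟩ := h
  induction p with
  | nil => exact Relation.ReflTransGen.refl
  | @cons u v w h p ih =>
    refine Relation.ReflTransGen.head ⟨hDY u.2, hDY v.2, ?_⟩ ih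
    exact h

theorem TT9_conn {W : Type} (G : SimpleGraph W) (Y : Finset W) {x : W} (hx : x ∈ Y)
    (h : ∀ y ∈ Y, Relation.ReflTransGen (fun u v => u ∈ Y ∧ v ∈ Y ∧ G.Adj u v) x y) :
    (G.induce (Y : Set W)).Connected := by
  rw [SimpleGraph.connected_iff_exists_forall_reachable]
  refine ⟨⟨x, hx⟩, ?_⟩
  have key : ∀ y, Relation.ReflTransGen (fun u v => u ∈ Y ∧ v ∈ Y ∧ G.Adj u v) x y →
      ∀ hy : y ∈ (Y : Set W), (G.induce (Y : Set W)).Reachable ⟨x, hx⟩ ⟨y, hy⟩ := by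
    intro y hxy
    induction hxy with
    | refl => intro hy; exact SimpleGraph.Reachable.refl _
    | @tail u v _ huv ih =>
      intro hy
      refine (ih huv.1).trans (SimpleGraph.Adj.reachable ?_)
      exact huv.2.2
  rintro ⟨y, hy⟩
  exact key y (h y hy) hy

/-- row TT9 -/
theorem exists_conn_violator {W : Type} [Fintype W] [DecidableEq W] (G : SimpleGraph W)
    (R S : Finset W) (𝒟 : Finset (Finset W)) (hpart : ∀ D ∈ 𝒟, IsBarrierPart G R S D)
    (hdisj : ∀ D ∈ 𝒟, ∀ D' ∈ 𝒟, D ≠ D' → Disjoint D D') (hlt : S.card < 𝒟.card) :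
    ∃ (S' : Finset W) (𝒟' : Finset (Finset W)), (∀ D ∈ 𝒟', IsBarrierPart G R S' D) ∧
      (∀ D ∈ 𝒟', ∀ D' ∈ 𝒟', D ≠ D' → Disjoint D D') ∧ S'.card < 𝒟'.card ∧
      (G.induce ((S' ∪ 𝒟'.biUnion id : Finset W) : Set W)).Connected := by
  classical
  induction hn : S.card + 𝒟.card using Nat.strong_induction_on generalizing S 𝒟 with
  | _ n ih =>
  set Y : Finset W := S ∪ 𝒟.biUnion id with hY
  have hDY : ∀ D ∈ 𝒟, D ⊆ Y := by
    intro D hD x hx
    rw [hY, Finset.mem_union, Finset.mem_biUnion]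
    exact Or.inr ⟨D, hD, hx⟩
  have hSY : S ⊆ Y := Finset.subset_union_left
  obtain ⟨D0, hD0⟩ := Finset.card_pos.1 (Nat.lt_of_le_of_lt (Nat.zero_le _) hlt)
  obtain ⟨y0, hy0⟩ := Finset.card_pos.1 (hpart D0 hD0).odd.pos
  have hy0Y : y0 ∈ Y := hDY D0 hD0 hy0
  set r : W → W → Prop := fun u v => u ∈ Y ∧ v ∈ Y ∧ G.Adj u v with hr
  by_cases hall : ∀ y ∈ Y, Relation.ReflTransGen r y0 y
  · exact ⟨S, 𝒟, hpart, hdisj, hlt, TT9_conn G Y hy0Y hall⟩
  push Not at hall
  obtain ⟨y1, hy1Y, hy1⟩ := hall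
  -- the two sides
  have hDside : ∀ D ∈ 𝒟, ∀ x ∈ D, Relation.ReflTransGen r y0 x →
      ∀ y ∈ D, Relation.ReflTransGen r y0 y := by
    intro D hD x hx hx' y hy
    have := (hpart D hD).conn.preconnected ⟨x, hx⟩ ⟨y, hy⟩
    exact hx'.trans (TT9_reach G Y D (hDY D hD) this)
  have hadj : ∀ x ∈ Y, ∀ y ∈ Y, G.Adj x y → (Relation.ReflTransGen r y0 x ↔
      Relation.ReflTransGen r y0 y) := by
    intro x hx y hy h
    exact ⟨fun h1 => h1.tail ⟨hx, hy, h⟩, fun h1 => h1.tail ⟨hy, hx, h.symm⟩⟩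
  set S1 := S.filter (fun x => Relation.ReflTransGen r y0 x) with hS1
  set S2 := S.filter (fun x => ¬ Relation.ReflTransGen r y0 x) with hS2
  set D1 := 𝒟.filter (fun D => ∀ x ∈ D, Relation.ReflTransGen r y0 x) with hD1
  set D2 := 𝒟.filter (fun D => ¬ ∀ x ∈ D, Relation.ReflTransGen r y0 x) with hD2
  have hcS : S1.card + S2.card = S.card := Finset.card_filter_add_card_filter_not _
  have hcD : D1.card + D2.card = 𝒟.card := Finset.card_filter_add_card_filter_not _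
  have hp1 : ∀ D ∈ D1, IsBarrierPart G R S1 D := by
    intro D hD
    rw [hD1, Finset.mem_filter] at hD
    have hp := hpart D hD.1
    refine ⟨hp.odd, hp.sub, hp.disj.mono_right (Finset.filter_subset _ _), ?_, hp.conn⟩
    intro v hv w hvw
    rcases hp.closed v hv w hvw with h | h
    · exact Or.inl h
    · refine Or.inr (Finset.mem_filter.2 ⟨h, ?_⟩)
      exact (hadj v (hDY D hD.1 hv) w (hSY h) hvw).1 (hD.2 v hv)
  have hp2 : ∀ D ∈ D2, IsBarrierPart G R S2 D := by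
    intro D hD
    rw [hD2, Finset.mem_filter] at hD
    have hp := hpart D hD.1
    refine ⟨hp.odd, hp.sub, hp.disj.mono_right (Finset.filter_subset _ _), ?_, hp.conn⟩
    intro v hv w hvw
    rcases hp.closed v hv w hvw with h | h
    · exact Or.inl h
    · refine Or.inr (Finset.mem_filter.2 ⟨h, fun hw => ?_⟩)
      have hv' := (hadj v (hDY D hD.1 hv) w (hSY h) hvw).2 hw
      exact hD.2 (hDside D hD.1 v hv hv')
  have hpos1 : 0 < S1.card + D1.card := by
    have : D0 ∈ D1 := by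
      rw [hD1, Finset.mem_filter]
      exact ⟨hD0, hDside D0 hD0 y0 hy0 Relation.ReflTransGen.refl⟩
    have := Finset.card_pos.2 ⟨D0, this⟩
    omega
  have hpos2 : 0 < S2.card + D2.card := by
    have hmem := hy1Y
    rw [hY, Finset.mem_union, Finset.mem_biUnion] at hmem
    rcases hmem with h | ⟨D, hD, h⟩
    · have : y1 ∈ S2 := Finset.mem_filter.2 ⟨h, hy1⟩
      have := Finset.card_pos.2 ⟨y1, this⟩
      omega
    · have : D ∈ D2 := Finset.mem_filter.2 ⟨hD, fun h' => hy1 (h' y1 h)⟩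
      have := Finset.card_pos.2 ⟨D, this⟩
      omega
  by_cases h1 : S1.card < D1.card
  · exact ih (S1.card + D1.card) (by omega) S1 D1 hp1 (fun D hD D' hD' hne =>
      hdisj D (Finset.mem_filter.1 hD).1 D' (Finset.mem_filter.1 hD').1 hne) h1 rfl
  · exact ih (S2.card + D2.card) (by omega) S2 D2 hp2 (fun D hD D' hD' hne =>
      hdisj D (Finset.mem_filter.1 hD).1 D' (Finset.mem_filter.1 hD').1 hne) (by omega) rfl

end Pool.MP405d56
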