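import Pool.Agent.Lib.MP_405d56_lc.O2.TT13

/-!
# MP_405d56_lc, outer process, row W1a: `lump_agree`, `fam_exists`
-/

open Set

namespace Pool.MP405d56

variable {V : Type}

section W1
variable {I I' : Inp V} {L j r : ℕ}

theorem W1a_conf_symm {D D' : Set V} (h : Conf I D D') : Conf I D' D := by
  obtain ⟨x, hx, y, hy, hxy⟩ := h
  exact ⟨y, hy, x, hx, I.eqv.symm hxy⟩

theorem lump_agree {D : Set V} (hA : Agree I I' (I.nbd (L + 1) D)) (hD : IsLump L j I D) :
    IsLump L j I' D := by
  have hAD : Agree I I' D := hA.mono (Inp.subset_nbd _ _)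
  have hind : I.H.induce D = I'.H.induce D := by
    ext x y
    exact (hAD x.1 x.2 y.1).1
  have he2 : e2 I.H D = e2 I'.H D := by
    unfold e2
    congr 1
    ext ⟨x, y⟩
    constructor
    · rintro ⟨h1, h2, h3⟩
      exact ⟨h1, h2, (hAD x h1 y).1.1 h3⟩
    · rintro ⟨h1, h2, h3⟩
      exact ⟨h1, h2, (hAD x h1 y).1.2 h3⟩
  refine ⟨hD.odd, ?_, ?_, ?_, ?_, ?_⟩
  · rw [← hind]; exact hD.conn
  · intro x hx y hy hxy
    exact hD.one x hx y hy ((hAD x hx y).2.2 hxy)
  · intro x hx
    have h1 : Agree I I' (I.nbd 1 D) := hA.mono (Inp.nbd_mono (by omega) le_rfl)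
    rw [← h1.w hx]
    exact hD.must x hx
  · rw [← he2]; exact hD.dense
  · intro x hx y hy
    exact (hA.near hx (by omega) y).1 (hD.small x hx y hy)

theorem W1a_nonempty {D : Set V} (hD : IsLump L j I D) : D.Nonempty := by
  by_contra h
  rw [Set.not_nonempty_iff_eq_empty] at h
  have := hD.odd
  rw [h] at this
  simp at this

theorem fam_exists [Finite V] (L j : ℕ) (I : Inp V) : ∃ F, Fam L j I F := by
  classical
  have hfin : (Set.univ : Set (Set (Set V))).Finite := Set.toFinite _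
  let P : Set (Set (Set V)) := {F | (∀ D ∈ F, IsLump L j I D) ∧
    ∀ D ∈ F, ∀ D' ∈ F, Conf I D D' → D = D'}
  have hP : P.Finite := hfin.subset (Set.subset_univ _)
  have hne : P.Nonempty := ⟨∅, by constructor <;> intro D hD <;> exact absurd hD (by simp)⟩
  obtain ⟨F, hF⟩ := hP.exists_maximal hne
  refine ⟨F, hF.prop.1, hF.prop.2, ?_⟩
  intro D hD
  by_contra hno
  have hno' : ∀ D' ∈ F, ¬ Conf I D D' := fun D' hD' hc => hno ⟨D', hD', hc⟩
  have hmem : insert D F ∈ P := by
    constructor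
    · intro D' hD'
      rcases Set.mem_insert_iff.1 hD' with rfl | h
      · exact hD
      · exact hF.prop.1 D' h
    · intro D1 h1 D2 h2 hc
      rcases Set.mem_insert_iff.1 h1 with e1 | g1
      · rcases Set.mem_insert_iff.1 h2 with e2 | g2
        · rw [e1, e2]
        · rw [e1] at hc
          exact absurd hc (hno' D2 g2)
      · rcases Set.mem_insert_iff.1 h2 with e2 | g2
        · rw [e2] at hc
          exact absurd (W1a_conf_symm hc) (hno' D1 g1)
        · exact hF.prop.2 D1 g1 D2 g2 hc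
  have hle : insert D F ≤ F := hF.le_of_ge hmem (Set.subset_insert D F)
  have hDF : D ∈ F := hle (Set.mem_insert D F)
  obtain ⟨x, hx⟩ := W1a_nonempty hD
  exact hno' D hDF ⟨x, hx, x, hx, I.eqv.refl x⟩

end W1

end Pool.MP405d56
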