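import Pool.Agent.Lib.MP_405d56_lc.O2.W1a

open Set

namespace Pool.MP405d56

variable {V : Type}

section W1b
variable {I I' : Inp V} {L j r : ℕ}

theorem W1b_conf_symm {D D' : Set V} (h : Conf I D D') : Conf I D' D := by
  obtain ⟨x, hx, y, hy, hxy⟩ := h
  exact ⟨y, hy, x, hx, I.eqv.symm hxy⟩

theorem W1b_conf_self {D : Set V} (h : IsLump L j I D) : Conf I D D := by
  have h1 : D.ncard ≠ 0 := by
    intro h0
    have h2 := h.odd
    rw [h0] at h2
    exact absurd h2 (by decide)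
  obtain ⟨x, hx⟩ := Set.nonempty_of_ncard_ne_zero h1
  exact ⟨x, hx, x, hx, I.eqv.refl x⟩

/-- a family of non-conflicting lumps extends to a `Fam` -/
theorem W1b_extend [Finite V] {F0 : Set (Set V)} (h0 : ∀ D ∈ F0, IsLump L j I D)
    (h1 : ∀ D ∈ F0, ∀ D' ∈ F0, Conf I D D' → D = D') : ∃ F, F0 ⊆ F ∧ Fam L j I F := by
  classical
  let P : Set (Set V) → Prop := fun F =>
    (∀ D ∈ F, IsLump L j I D) ∧ ∀ D ∈ F, ∀ D' ∈ F, Conf I D D' → D = D'
  have hP : P F0 := ⟨h0, h1⟩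
  obtain ⟨F, hle, hmax⟩ := Finite.exists_le_maximal (p := P) hP
  refine ⟨F, hle, ⟨hmax.prop.1, hmax.prop.2, ?_⟩⟩
  intro D hD
  by_contra hcon
  push Not at hcon
  have hP' : P (insert D F) := by
    refine ⟨?_, ?_⟩
    · intro D' hD'
      rcases Set.mem_insert_iff.1 hD' with rfl | h
      · exact hD
      · exact hmax.prop.1 D' h
    · intro D1 hD1 D2 hD2 hc
      rcases Set.mem_insert_iff.1 hD1 with rfl | h1
      · rcases Set.mem_insert_iff.1 hD2 with rfl | h2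
        · rfl
        · exact absurd hc (hcon D2 h2)
      · rcases Set.mem_insert_iff.1 hD2 with rfl | h2
        · exact absurd (W1b_conf_symm hc) (hcon D1 h1)
        · exact hmax.prop.2 D1 h1 D2 h2 hc
  have hin : D ∈ F := hmax.le_of_ge hP' (Set.subset_insert D F) (Set.mem_insert D F)
  exact hcon D hin (W1b_conf_self hD)

/-- Extension of a family of lumps. -/
theorem fam_ext [Finite V] {Ω : Set V} {F' : Set (Set V)} (hF' : Fam L j I' F')
    (hA : Agree I I' (I.nbd (r + 4 * L + 10) Ω)) :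
    ∃ F, Fam L j I F ∧ ∀ x ∈ I.nbd r Ω, ∀ D, x ∈ D → (D ∈ F ↔ D ∈ F') := by
  -- the members of `F'` near `Ω`
  let F0 : Set (Set V) := {D | D ∈ F' ∧ ∃ x ∈ D, x ∈ I.nbd (r + 2 * L + 5) Ω}
  have hsub : ∀ D ∈ F0, D ⊆ I.nbd (r + 3 * L + 5) Ω := by
    rintro D ⟨hD, x, hxD, hx⟩ y hy
    have h1 : Agree I I' (I.nbd L (I.nbd (r + 2 * L + 5) Ω)) :=
      hA.mono ((Inp.nbd_nbd Ω).trans (Inp.nbd_mono (by omega) (Set.Subset.refl _)))
    have h2 : I.near L x y := (h1.near hx (Nat.le_succ L) y).2 ((hF'.lump D hD).small x hxD y hy)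
    exact Inp.nbd_mono (by omega) (Set.Subset.refl _) (Inp.mem_nbd_of_near hx h2)
  have hlump : ∀ D ∈ F0, IsLump L j I D := by
    intro D hD
    have h1 : I.nbd (L + 1) D ⊆ I.nbd (r + 4 * L + 10) Ω :=
      (Inp.nbd_mono le_rfl (hsub D hD)).trans ((Inp.nbd_nbd Ω).trans
        (Inp.nbd_mono (by omega) (Set.Subset.refl _)))
    have h2 : Agree I I' (I.nbd (L + 1) D) := hA.mono h1
    have h3 : I.nbd (L + 1) D = I'.nbd (L + 1) D := h2.nbd (Nat.le_succ _)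
    refine lump_agree (I := I') (I' := I) ?_ (hF'.lump D hD.1)
    rw [← h3]
    exact h2.symm
  have hbig : I.nbd (r + 3 * L + 5) Ω ⊆ I.nbd (r + 4 * L + 10) Ω :=
    Inp.nbd_mono (by omega) (Set.Subset.refl _)
  have hdisj : ∀ D ∈ F0, ∀ D' ∈ F0, Conf I D D' → D = D' := by
    rintro D hD D' hD' ⟨x, hx, y, hy, hxy⟩
    exact hF'.disj D hD.1 D' hD'.1 ⟨x, hx, y, hy, (hA x (hbig (hsub D hD hx)) y).2.1 hxy⟩
  obtain ⟨F, hF0, hF⟩ := W1b_extend hlump hdisj
  refine ⟨F, hF, ?_⟩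
  intro x hx D hxD
  constructor
  · intro hD
    have hsubD : D ⊆ I.nbd (r + L) Ω := fun y hy =>
      Inp.mem_nbd_of_near hx ((hF.lump D hD).small x hxD y hy)
    have h1 : I.nbd (L + 1) D ⊆ I.nbd (r + 4 * L + 10) Ω :=
      (Inp.nbd_mono le_rfl hsubD).trans ((Inp.nbd_nbd Ω).trans
        (Inp.nbd_mono (by omega) (Set.Subset.refl _)))
    have h2 : IsLump L j I' D := lump_agree (hA.mono h1) (hF.lump D hD)
    obtain ⟨D', hD', u, hu, v, hv, huv⟩ := hF'.max D h2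
    have hu1 : u ∈ I.nbd (r + 4 * L + 10) Ω :=
      Inp.nbd_mono (by omega) (Set.Subset.refl _) (hsubD hu)
    have huv' : I.E u v := (hA u hu1 v).2.2 huv
    have hv1 : v ∈ I.nbd (r + L + 1) Ω := Inp.mem_nbd_of_near (hsubD hu) (Inp.near_E huv')
    have hD0 : D' ∈ F0 := ⟨hD', v, hv, Inp.nbd_mono (by omega) (Set.Subset.refl _) hv1⟩
    have heq : D = D' := hF.disj D hD D' (hF0 hD0) ⟨u, hu, v, hv, huv'⟩
    rw [heq]
    exact hD'
  · intro hD
    exact hF0 ⟨hD, x, hxD, Inp.nbd_mono (by omega) (Set.Subset.refl _) hx⟩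
end W1b

end Pool.MP405d56
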