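import Pool.Agent.Lib.MP_405d56_lc.O2.W1b

/-! Row W2a: switching vertices for the union of two matchings.

A state is a vertex together with the type of the next step. `F` is one step, `R` reverses the
direction: `F (R (F x)) = R x`. -/

open Set

namespace Pool.MP405d56

section abs
variable {S : Type} {F R : S → S} {H : S → ℕ} {a b : ℕ}

/-- crossings from height `≤ a` to height `≥ b` -/
def W2a_Cr (F : S → S) (H : S → ℕ) (a b : ℕ) (x : S) (m : ℕ) : Prop :=
  H x ≤ a ∧ b ≤ H (F^[m] x) ∧ ∀ i, 0 < i → i < m → a < H (F^[i] x) ∧ H (F^[i] x) < b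

theorem W2a_inj (hF : ∀ x, F (R (F x)) = R x) (hR : ∀ x, R (R x) = x) :
    Function.Injective F := by
  intro x y h
  have h1 := hF x
  rw [h, hF y] at h1
  rw [← hR x, ← h1, hR]

theorem W2a_iter (hF : ∀ x, F (R (F x)) = R x) (n : ℕ) (x : S) :
    F^[n] (R (F^[n] x)) = R x := by
  induction n with
  | zero => rfl
  | succ n ih =>
    rw [Function.iterate_succ_apply' F n x, Function.iterate_succ_apply F n, hF]
    exact ih

theorem W2a_iter2 (hF : ∀ x, F (R (F x)) = R x) {j n : ℕ} (h : j ≤ n) (x : S) :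
    F^[j] (R (F^[n] x)) = R (F^[n - j] x) := by
  have e : F^[n] x = F^[j] (F^[n - j] x) := by
    rw [← Function.iterate_add_apply]
    congr 2
    omega
  rw [e]
  exact W2a_iter hF j _

theorem W2a_pos {x : S} {m : ℕ} (hab : a < b) (hc : W2a_Cr F H a b x m) : 0 < m := by
  rcases Nat.eq_zero_or_pos m with h | h
  · have h1 := hc.1
    have h2 := hc.2.1
    rw [h] at h2
    have h3 : b ≤ H x := h2
    omega
  · exact h

/-- all states but the first are above `a` -/
theorem W2a_gt {x : S} {m : ℕ} (hab : a < b) (hc : W2a_Cr F H a b x m) {i : ℕ} (h0 : 0 < i)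
    (hi : i ≤ m) : a < H (F^[i] x) := by
  rcases Nat.lt_or_ge i m with h | h
  · exact (hc.2.2 i h0 h).1
  · have : i = m := le_antisymm hi h
    rw [this]
    exact lt_of_lt_of_le hab hc.2.1

/-- all states but the last are below `b` -/
theorem W2a_lt {x : S} {m : ℕ} (hab : a < b) (hc : W2a_Cr F H a b x m) {i : ℕ}
    (hi : i < m) : H (F^[i] x) < b := by
  rcases Nat.eq_zero_or_pos i with h | h
  · rw [h]
    exact lt_of_le_of_lt hc.1 hab
  · exact (hc.2.2 i h hi).2

theorem W2a_dist (hF : ∀ x, F (R (F x)) = R x) (hR : ∀ x, R (R x) = x)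
    (hH : ∀ x, H (R x) = H x) (hne : ∀ x, R x ≠ x) (hab : a < b) {x : S} {m : ℕ}
    (hc : W2a_Cr F H a b x m) {i l : ℕ} (hi : i ≤ m) (hl : l ≤ m)
    (h : F^[i] x = R (F^[l] x)) : False := by
  have h1 : F^[l + i] x = R x := by rw [Function.iterate_add_apply, h, W2a_iter hF]
  rcases Nat.lt_or_ge m (l + i) with hm | hm
  · obtain ⟨e, he⟩ : ∃ e, l + i = e + m := ⟨l + i - m, by omega⟩
    rw [he, Function.iterate_add_apply] at h1
    have h2 := W2a_iter hF e x
    have h3 : F^[m] x = R (F^[e] x) := (W2a_inj hF hR).iterate e (h1.trans h2.symm)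
    rcases Nat.lt_or_ge e m with hem | hem
    · have h4 := W2a_lt hab hc hem
      have h5 := hc.2.1
      rw [h3, hH] at h5
      omega
    · have : e = m := by omega
      rw [this] at h3
      exact hne _ h3.symm
  · rcases Nat.eq_zero_or_pos (l + i) with h0 | h0
    · rw [h0] at h1
      exact hne x h1.symm
    · have h4 := W2a_gt hab hc h0 hm
      rw [h1, hH] at h4
      have := hc.1
      omega

theorem W2a_dist2 (hF : ∀ x, F (R (F x)) = R x) (hR : ∀ x, R (R x) = x) (hab : a < b) {x : S}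
    {m : ℕ} (hc : W2a_Cr F H a b x m) {i l : ℕ} (hi : i ≤ m) (hl : l ≤ m)
    (h : F^[i] x = F^[l] x) : i = l := by
  have key : ∀ i l : ℕ, i < l → l ≤ m → F^[i] x = F^[l] x → False := by
    intro i l hil hl h
    obtain ⟨d, rfl⟩ : ∃ d, l = i + d := ⟨l - i, by omega⟩
    rw [Function.iterate_add_apply] at h
    have h1 : x = F^[d] x := (W2a_inj hF hR).iterate i h
    have h4 := W2a_gt hab hc (i := d) (by omega) (by omega)
    rw [← h1] at h4
    have := hc.1
    omega
  rcases lt_trichotomy i l with h' | h' | h'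
  · exact (key i l h' hl h).elim
  · exact h'
  · exact (key l i h' hi h.symm).elim

theorem W2a_uniq (hF : ∀ x, F (R (F x)) = R x) (hR : ∀ x, R (R x) = x) {x x' : S}
    {m m' : ℕ} (hc : W2a_Cr F H a b x m) (hc' : W2a_Cr F H a b x' m') {i i' : ℕ} (hi : i < m)
    (hi' : i' < m') (h : F^[i] x = F^[i'] x') : x = x' := by
  have key : ∀ (x x' : S) (m' : ℕ) (i i' : ℕ), H x ≤ a → W2a_Cr F H a b x' m' → i ≤ i' →
      i' < m' → F^[i] x = F^[i'] x' → x = x' := by
    intro x x' m' i i' hx hc' hii hi' h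
    obtain ⟨d, rfl⟩ : ∃ d, i' = i + d := ⟨i' - i, by omega⟩
    rw [Function.iterate_add_apply] at h
    have h1 : x = F^[d] x' := (W2a_inj hF hR).iterate i h
    rcases Nat.eq_zero_or_pos d with h0 | h0
    · rw [h0] at h1
      exact h1
    · have h4 := (hc'.2.2 d h0 (by omega)).1
      rw [← h1] at h4
      omega
  rcases le_total i i' with h' | h'
  · exact key x x' m' i i' hc.1 hc' h' hi' h
  · exact (key x' x m i' i hc'.1 hc h' hi h.symm).symm

theorem W2a_opp (hF : ∀ x, F (R (F x)) = R x) (hH : ∀ x, H (R x) = H x) (hab : a < b) {x x' : S}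
    {m m' : ℕ} (hc : W2a_Cr F H a b x m) (hc' : W2a_Cr F H a b x' m') {l i' : ℕ} (hl : l < m)
    (h0 : 0 < i') (hi' : i' < m') (h : F^[i'] x' = R (F^[l] x)) : False := by
  rcases Nat.lt_or_ge (l + i') m' with hm | hm
  · have h1 : F^[l + i'] x' = R x := by rw [Function.iterate_add_apply, h, W2a_iter hF]
    have h4 := (hc'.2.2 (l + i') (by omega) hm).1
    rw [h1, hH] at h4
    have := hc.1
    omega
  · obtain ⟨t, ht⟩ : ∃ t, m' = t + i' := ⟨m' - i', by omega⟩
    have h1 : F^[m'] x' = R (F^[l - t] x) := by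
      rw [ht, Function.iterate_add_apply, h]
      exact W2a_iter2 hF (by omega) x
    have h2 := hc'.2.1
    rw [h1, hH] at h2
    have h3 := W2a_lt hab hc (i := l - t) (by omega)
    omega

theorem W2a_len {x : S} {m m' : ℕ} (hab : a < b) (hc : W2a_Cr F H a b x m)
    (hc' : W2a_Cr F H a b x m') : m = m' := by
  rcases lt_trichotomy m m' with h | h | h
  · have h1 := W2a_lt hab hc' h
    have h2 := hc.2.1
    omega
  · exact h
  · have h1 := W2a_lt hab hc h
    have h2 := hc'.2.1
    omega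

end abs

variable {W : Type}

theorem W2a_bool {σ τ : Bool} (h : ¬ σ = τ) : τ = !σ := by
  cases σ <;> cases τ <;> first | rfl | exact absurd rfl h

/-- the involution of type `τ` -/
def W2a_mu (μ0 μ1 : W → W) : Bool → W → W
  | false => μ0
  | true => μ1

/-- Switching vertices. -/
theorem exists_switch [Finite W] (Γ : SimpleGraph W) (h : W → ℕ)
    (hh : ∀ v w, Γ.Adj v w → h v ≤ h w + 1) (μ0 μ1 : W → W) (i0 : ∀ v, μ0 (μ0 v) = v)
    (a b : ℕ) (m0 : ∀ v, h v < b → μ0 v ≠ v → Γ.Adj v (μ0 v)) (m1 : IsInv Γ μ1)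
    (Cf : SimpleGraph W) (Dc : ℕ) (hCf : ∀ v, {w | Cf.Adj v w}.ncard ≤ Dc)
    (Cand : Set W) (k : ℕ) (hk : 1 ≤ k)
    (rich : ∀ p : ℕ → W, (∀ i i', i ≤ 2 * k → i' ≤ 2 * k → p i = p i' → i = i') →
      (∀ i ≤ 2 * k, a < h (p i) ∧ h (p i) < b) →
      (∀ i < k, μ1 (p (2 * i)) = p (2 * i + 1)) → (∀ i < k, μ0 (p (2 * i + 1)) = p (2 * i + 2)) →
      ∃ i < k, p (2 * i + 1) ∈ Cand)
    (hab : a + (2 * k + 2) * (4 * Dc + 4) + 4 ≤ b) :
    ∃ Sw : Set W, (∀ s ∈ Sw, s ∈ Cand ∧ a < h s ∧ h s < b) ∧
      (∀ v ∈ Sw, ∀ w ∈ Sw, v ≠ w → ¬ Cf.Adj v w) ∧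
      (∀ v w, (GG μ0 μ1 Sw).Reachable v w → h v ≤ a → h w < b) ∧
      ∀ s ∈ Sw, (∃ v, h v ≤ a ∧ (GG μ0 μ1 Sw).Reachable v (μ1 s)) ∧ μ1 s ∉ Sw ∧
        (∃ w, b ≤ h w ∧ (GG μ0 μ1 Sw).Reachable (μ0 s) w) ∧ μ0 s ∉ Sw := by
  classical
  have := Fintype.ofFinite W
  have i1 := m1.inv
  have hlt : a < b := by omega
  obtain ⟨F, hFd⟩ : ∃ F : W × Bool → W × Bool, ∀ x, F x = (W2a_mu μ0 μ1 x.2 x.1, !x.2) :=
    ⟨_, fun _ => rfl⟩
  obtain ⟨R, hRd⟩ : ∃ R : W × Bool → W × Bool, ∀ x, R x = (x.1, !x.2) := ⟨_, fun _ => rfl⟩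
  obtain ⟨H, hHd⟩ : ∃ H : W × Bool → ℕ, ∀ x, H x = h x.1 := ⟨_, fun _ => rfl⟩
  have hF : ∀ x, F (R (F x)) = R x := by
    rintro ⟨v, τ⟩
    rw [hFd (v, τ), hRd, hRd, hFd]
    cases τ
    · exact Prod.ext (i0 v) rfl
    · exact Prod.ext (i1 v) rfl
  have hR : ∀ x, R (R x) = x := by
    rintro ⟨v, τ⟩
    rw [hRd, hRd]
    exact Prod.ext rfl (Bool.not_not τ)
  have hne : ∀ x, R x ≠ x := by
    rintro ⟨v, τ⟩ h
    rw [hRd] at h
    have h2 : (!τ) = τ := congrArg Prod.snd h
    cases τ <;> simp at h2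
  have hH : ∀ x, H (R x) = H x := by
    intro x
    rw [hHd, hHd, hRd]
  have hpair : ∀ y z : W × Bool, y.1 = z.1 → y = z ∨ y = R z := by
    rintro ⟨v, σ⟩ ⟨w, τ⟩ h
    have h' : v = w := h
    subst h'
    rw [hRd]
    cases σ <;> cases τ <;> simp
  -- vertices of a crossing are distinct
  have vdist : ∀ x m, W2a_Cr F H a b x m → ∀ i l, i ≤ m → l ≤ m → (F^[i] x).1 = (F^[l] x).1 →
      i = l := by
    intro x m hc i l hi hl he
    rcases hpair _ _ he with h1 | h1
    · exact W2a_dist2 hF hR hlt hc hi hl h1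
    · exact (W2a_dist hF hR hH hne hlt hc hi hl h1).elim
  -- steps
  have adjG : ∀ y : W × Bool, h y.1 < b → (F y).1 ≠ y.1 → Γ.Adj y.1 (F y).1 := by
    rintro ⟨v, τ⟩ h1 h2
    rw [hFd] at h2 ⊢
    cases τ
    · exact m0 v h1 h2
    · exact m1.adj v h2
  have hlen : ∀ x m, W2a_Cr F H a b x m → ∀ i, i ≤ m → H (F^[i] x) ≤ a + i := by
    intro x m hc i
    induction i with
    | zero => intro _; exact hc.1
    | succ i ih =>
      intro hi
      have h1 := ih (by omega)
      have h2 := W2a_lt hlt hc (i := i) (by omega)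
      rw [Function.iterate_succ_apply']
      rw [hHd] at h1 h2 ⊢
      have h3 : (F (F^[i] x)).1 ≠ (F^[i] x).1 := by
        intro he
        rw [← Function.iterate_succ_apply' F i x] at he
        have := vdist x m hc (i + 1) i hi (by omega) he
        omega
      have h4 := hh _ _ (adjG _ h2 h3).symm
      omega
  have par : ∀ n x, (F^[2 * n] x).2 = x.2 := by
    intro n x
    induction n with
    | zero => rfl
    | succ n ih =>
      rw [show 2 * (n + 1) = 2 * n + 1 + 1 by ring, Function.iterate_succ_apply',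
        Function.iterate_succ_apply', hFd, hFd]
      show (!!(F^[2 * n] x).2) = x.2
      rw [Bool.not_not, ih]
  -- the candidates of a crossing
  obtain ⟨A, hA⟩ : ∃ A : W × Bool → Finset W, ∀ x v, v ∈ A x ↔ (v ∈ Cand ∧
      ∃ i m, W2a_Cr F H a b x m ∧ 0 < i ∧ i < m ∧ F^[i] x = (v, false)) :=
    ⟨fun x => Finset.univ.filter (fun v => v ∈ Cand ∧
      ∃ i m, W2a_Cr F H a b x m ∧ 0 < i ∧ i < m ∧ F^[i] x = (v, false)), fun x v => by simp⟩
  have hcard : ∀ x m, W2a_Cr F H a b x m → 4 * Dc + 1 ≤ (A x).card := by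
    intro x m hc
    have hm : b ≤ a + m := by
      have h1 := hlen x m hc m le_rfl
      have h2 := hc.2.1
      omega
    have hm2 : (2 * k + 2) * (4 * Dc + 4) + 4 ≤ m := by omega
    have hm3 : 2 * k * (4 * Dc + 1) + 3 ≤ m := by nlinarith
    obtain ⟨s0, hs1, hs2, hs3⟩ : ∃ s0, 1 ≤ s0 ∧ s0 ≤ 2 ∧ (F^[s0] x).2 = true := by
      cases hx : x.2
      · refine ⟨1, le_rfl, by omega, ?_⟩
        show (F x).2 = true
        rw [hFd, hx]
        rfl
      · refine ⟨2, by omega, le_rfl, ?_⟩
        have := par 1 x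
        rw [hx] at this
        exact this
    have hwin : ∀ q, q ≤ 4 * Dc → ∃ t, s0 + 2 * (k * q) < t ∧ t < s0 + 2 * (k * q) + 2 * k ∧
        (F^[t] x).1 ∈ Cand ∧ (F^[t] x).2 = false := by
      intro q hq
      have hkq : k * q ≤ k * (4 * Dc) := Nat.mul_le_mul_left k hq
      have hm4 : s0 + 2 * (k * q) + 2 * k < m := by nlinarith
      have e1 : ∀ i, (F^[s0 + 2 * (k * q) + 2 * i] x).2 = true := by
        intro i
        have : s0 + 2 * (k * q) + 2 * i = 2 * (k * q + i) + s0 := by ring
        rw [this, Function.iterate_add_apply, par, hs3]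
      have e2 : ∀ i, (F^[s0 + 2 * (k * q) + (2 * i + 1)] x).2 = false := by
        intro i
        rw [show s0 + 2 * (k * q) + (2 * i + 1) = s0 + 2 * (k * q) + 2 * i + 1 by ring,
          Function.iterate_succ_apply', hFd, e1]
        rfl
      have r1 : ∀ i i', i ≤ 2 * k → i' ≤ 2 * k →
          (F^[s0 + 2 * (k * q) + i] x).1 = (F^[s0 + 2 * (k * q) + i'] x).1 → i = i' := by
        intro i i' hi hi' he
        have := vdist x m hc _ _ (by omega) (by omega) he
        omega
      have r2 : ∀ i ≤ 2 * k, a < h (F^[s0 + 2 * (k * q) + i] x).1 ∧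
          h (F^[s0 + 2 * (k * q) + i] x).1 < b := by
        intro i hi
        have := hc.2.2 (s0 + 2 * (k * q) + i) (by omega) (by omega)
        rw [hHd] at this
        exact this
      have r3 : ∀ i < k, μ1 (F^[s0 + 2 * (k * q) + 2 * i] x).1 =
          (F^[s0 + 2 * (k * q) + (2 * i + 1)] x).1 := by
        intro i hi
        rw [show s0 + 2 * (k * q) + (2 * i + 1) = s0 + 2 * (k * q) + 2 * i + 1 by ring,
          Function.iterate_succ_apply', hFd, e1]
        rfl
      have r4 : ∀ i < k, μ0 (F^[s0 + 2 * (k * q) + (2 * i + 1)] x).1 =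
          (F^[s0 + 2 * (k * q) + (2 * i + 2)] x).1 := by
        intro i hi
        rw [show s0 + 2 * (k * q) + (2 * i + 2) = s0 + 2 * (k * q) + (2 * i + 1) + 1 by ring,
          Function.iterate_succ_apply', hFd, e2]
        rfl
      obtain ⟨i, hi, hC⟩ := rich (fun j => (F^[s0 + 2 * (k * q) + j] x).1) r1 r2 r3 r4
      exact ⟨s0 + 2 * (k * q) + (2 * i + 1), by omega, by omega, hC, e2 i⟩
    have hwin' : ∀ q, ∃ t, q ≤ 4 * Dc → (s0 + 2 * (k * q) < t ∧ t < s0 + 2 * (k * q) + 2 * k ∧
        (F^[t] x).1 ∈ Cand ∧ (F^[t] x).2 = false) := by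
      intro q
      by_cases hq : q ≤ 4 * Dc
      · obtain ⟨t, ht⟩ := hwin q hq
        exact ⟨t, fun _ => ht⟩
      · exact ⟨0, fun h => absurd h hq⟩
    choose t ht using hwin'
    have htm : ∀ q, q ≤ 4 * Dc → t q < m := by
      intro q hq
      have hkq : k * q ≤ k * (4 * Dc) := Nat.mul_le_mul_left k hq
      have := (ht q hq).2.1
      nlinarith
    have h1 : (Finset.range (4 * Dc + 1)).card ≤ (A x).card := by
      refine Finset.card_le_card_of_injOn (fun q => (F^[t q] x).1) ?_ ?_
      · intro q hq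
        rw [Finset.coe_range, Set.mem_Iio] at hq
        have hq' : q ≤ 4 * Dc := by omega
        obtain ⟨c1, c2, c3, c4⟩ := ht q hq'
        rw [Finset.mem_coe, hA]
        exact ⟨c3, t q, m, hc, by omega, htm q hq', Prod.ext rfl c4⟩
      · intro q hq q' hq' he
        rw [Finset.coe_range, Set.mem_Iio] at hq hq'
        have hq1 : q ≤ 4 * Dc := by omega
        have hq1' : q' ≤ 4 * Dc := by omega
        have e : t q = t q' := vdist x m hc _ _ (htm q hq1).le (htm q' hq1').le he
        obtain ⟨c1, c2, _, _⟩ := ht q hq1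
        obtain ⟨c1', c2', _, _⟩ := ht q' hq1'
        rcases lt_trichotomy q q' with hl | hl | hl
        · have : k * (q + 1) ≤ k * q' := Nat.mul_le_mul_left k hl
          rw [Nat.mul_add, Nat.mul_one] at this
          omega
        · exact hl
        · have : k * (q' + 1) ≤ k * q := Nat.mul_le_mul_left k hl
          rw [Nat.mul_add, Nat.mul_one] at this
          omega
    rwa [Finset.card_range] at h1
  -- the transversal
  obtain ⟨f, hfA, hfC⟩ := exists_indep_transversal Cf
    (fun x : {x : W × Bool // ∃ m, W2a_Cr F H a b x m} => A x.1)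
    (by
      intro x x' hxx
      rw [Finset.disjoint_left]
      intro v hv hv'
      rw [hA] at hv hv'
      obtain ⟨_, i, m, hc, _, hi, he⟩ := hv
      obtain ⟨_, i', m', hc', _, hi', he'⟩ := hv'
      exact hxx (Subtype.ext (W2a_uniq hF hR hc hc' hi hi' (he.trans he'.symm))))
    Dc
    (by
      intro x v _
      refine (Set.ncard_le_ncard ?_ (Set.toFinite _)).trans (hCf v)
      rintro w ⟨_, hw⟩
      exact hw)
    (by
      rintro ⟨x, m, hc⟩
      have := hcard x m hc
      show 4 * Dc ≤ (A x).card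
      omega)
    (by
      rintro ⟨x, m, hc⟩
      have := hcard x m hc
      rw [← Finset.card_pos]
      show 0 < (A x).card
      omega)
  obtain ⟨Sw, hSw⟩ : ∃ Sw : Set W, Sw = Set.range f := ⟨_, rfl⟩
  -- the switching vertex of a crossing
  have hs : ∀ x m (hc : W2a_Cr F H a b x m), ∃ i, 0 < i ∧ i < m ∧
      F^[i] x = (f ⟨x, m, hc⟩, false) := by
    intro x m hc
    have h1 := hfA ⟨x, m, hc⟩
    rw [hA] at h1
    obtain ⟨_, i, m', hc', h0, hi, he⟩ := h1
    have hc'' : W2a_Cr F H a b x m' := hc'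
    rw [← W2a_len hlt hc hc''] at hi
    exact ⟨i, h0, hi, he⟩
  have hmid : ∀ s ∈ Sw, s ∈ Cand ∧ a < h s ∧ h s < b := by
    intro s hsS
    rw [hSw] at hsS
    obtain ⟨⟨x, m, hc⟩, rfl⟩ := hsS
    have h1 := hfA ⟨x, m, hc⟩
    rw [hA] at h1
    obtain ⟨i, h0, hi, he⟩ := hs x m hc
    have h2 := hc.2.2 i h0 hi
    rw [hHd, he] at h2
    exact ⟨h1.1, h2⟩
  -- a vertex of a crossing in `Sw` is the switching vertex of the crossing
  have hinner : ∀ x m (hc : W2a_Cr F H a b x m) l, l < m → (F^[l] x).1 ∈ Sw →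
      (F^[l] x).1 = f ⟨x, m, hc⟩ := by
    intro x m hc l hl hlS
    rw [hSw] at hlS
    obtain ⟨⟨x', m', hc'⟩, he⟩ := hlS
    obtain ⟨i', h0', hi', he'⟩ := hs x' m' hc'
    cases hτ : (F^[l] x).2
    · have h1 : F^[l] x = F^[i'] x' := by
        rw [he']
        exact Prod.ext he.symm hτ
      have h2 := W2a_uniq hF hR hc hc' hl hi' h1
      subst h2
      rw [← he]
    · exfalso
      refine W2a_opp hF hH hlt hc hc' hl h0' hi' ?_
      rw [he', hRd]
      refine Prod.ext he ?_
      show false = !(F^[l] x).2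
      rw [hτ]
      rfl
  -- adjacency in `GG`
  have hGG : ∀ y : W × Bool, (F y).1 ≠ y.1 → y.1 ∉ Sw → (F y).1 ∉ Sw →
      (GG μ0 μ1 Sw).Adj y.1 (F y).1 := by
    rintro ⟨v, τ⟩ h1 h2 h3
    refine ⟨h1.symm, h2, h3, ?_⟩
    rw [hFd]
    cases τ
    · exact Or.inl ⟨rfl, i0 v⟩
    · exact Or.inr ⟨rfl, i1 v⟩
  refine ⟨Sw, hmid, ?_, ?_, ?_⟩
  · intro v hv w hw hvw
    rw [hSw] at hv hw
    obtain ⟨x, rfl⟩ := hv
    obtain ⟨y, rfl⟩ := hw
    exact hfC x y (fun h => hvw (congrArg f h))
  · -- separation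
    have key : ∀ v w, (GG μ0 μ1 Sw).Adj v w →
        (h v ≤ a ∨ (a < h v ∧ h v < b ∧ v ∉ Sw ∧ ∃ (τ : Bool) (n : ℕ),
          H (F^[n] (v, τ)) ≤ a ∧ ∀ i < n, a < H (F^[i] (v, τ)) ∧ H (F^[i] (v, τ)) < b ∧
            (F^[i] (v, τ)).1 ∉ Sw)) →
        (h w ≤ a ∨ (a < h w ∧ h w < b ∧ w ∉ Sw ∧ ∃ (τ : Bool) (n : ℕ),
          H (F^[n] (w, τ)) ≤ a ∧ ∀ i < n, a < H (F^[i] (w, τ)) ∧ H (F^[i] (w, τ)) < b ∧
            (F^[i] (w, τ)).1 ∉ Sw)) := by
      rintro v w ⟨hvw, hv, hw, hcase⟩ hP
      obtain ⟨σ, hσ, hσ'⟩ : ∃ σ, F (v, σ) = (w, !σ) ∧ F (w, σ) = (v, !σ) := by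
        rcases hcase with ⟨e1, e2⟩ | ⟨e1, e2⟩
        · exact ⟨false, by rw [hFd]; exact Prod.ext e1 rfl, by rw [hFd]; exact Prod.ext e2 rfl⟩
        · exact ⟨true, by rw [hFd]; exact Prod.ext e1 rfl, by rw [hFd]; exact Prod.ext e2 rfl⟩
      rcases Nat.lt_or_ge a (h w) with hwa | hwa
      swap
      · exact Or.inl hwa
      right
      rcases hP with hva | ⟨hva, hvb, _, τ, n, hn, hi⟩
      · -- from below
        have h1 : Γ.Adj v w := by
          have := adjG (v, σ) (lt_of_le_of_lt hva hlt) (by rw [hσ]; exact hvw.symm)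
          rw [hσ] at this
          exact this
        have h2 := hh w v h1.symm
        have hwb : h w < b := by omega
        refine ⟨hwa, hwb, hw, σ, 1, ?_, ?_⟩
        · show H (F (w, σ)) ≤ a
          rw [hσ', hHd]
          exact hva
        · intro i hi
          have : i = 0 := by omega
          subst this
          show a < H (w, σ) ∧ H (w, σ) < b ∧ (w, σ).1 ∉ Sw
          rw [hHd]
          exact ⟨hwa, hwb, hw⟩
      · have hn0 : 0 < n := by
          rcases Nat.eq_zero_or_pos n with h0 | h0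
          · rw [h0] at hn
            have : H (v, τ) ≤ a := hn
            rw [hHd] at this
            exact absurd hva (by simpa using this)
          · exact h0
        obtain ⟨n', rfl⟩ : ∃ n', n = n' + 1 := ⟨n - 1, by omega⟩
        by_cases hστ : σ = τ
        · -- towards the low side
          subst hστ
          have e : ∀ i, F^[i + 1] (v, σ) = F^[i] (w, !σ) := by
            intro i
            rw [Function.iterate_succ_apply, hσ]
          have h0 : h w < b := by
            rcases Nat.eq_zero_or_pos n' with h0 | h0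
            · rw [h0, e 0] at hn
              have : H (w, !σ) ≤ a := hn
              rw [hHd] at this
              exact lt_of_le_of_lt this hlt
            · have := (hi 1 (by omega)).2.1
              rw [e 0] at this
              have h2 : H (w, !σ) < b := this
              rw [hHd] at h2
              exact h2
          refine ⟨hwa, h0, hw, !σ, n', ?_, ?_⟩
          · rw [← e]
            exact hn
          · intro i hi'
            have := hi (i + 1) (by omega)
            rw [e] at this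
            exact this
        · -- away from the low side
          have hτ : τ = !σ := W2a_bool hστ
          have e : ∀ i, F^[i + 1] (w, σ) = F^[i] (v, τ) := by
            intro i
            rw [Function.iterate_succ_apply, hσ', hτ]
          rcases Nat.lt_or_ge (h w) b with hwb | hwb
          · refine ⟨hwa, hwb, hw, σ, n' + 1 + 1, ?_, ?_⟩
            · rw [e]
              exact hn
            · intro i hi'
              rcases Nat.eq_zero_or_pos i with h0 | h0
              · subst h0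
                show a < H (w, σ) ∧ H (w, σ) < b ∧ (w, σ).1 ∉ Sw
                rw [hHd]
                exact ⟨hwa, hwb, hw⟩
              · obtain ⟨i', rfl⟩ : ∃ i', i = i' + 1 := ⟨i - 1, by omega⟩
                rw [e]
                exact hi i' (by omega)
          · -- a crossing which avoids `Sw`
            exfalso
            have hback : ∀ i, i ≤ n' + 1 →
                F^[i] (R (F^[n' + 1] (v, τ))) = R (F^[n' + 1 - i] (v, τ)) :=
              fun i hi => W2a_iter2 hF hi _
            have hlast : F^[n' + 1 + 1] (R (F^[n' + 1] (v, τ))) = (w, τ) := by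
              rw [Function.iterate_succ_apply', hback _ le_rfl, Nat.sub_self]
              show F (R (v, τ)) = (w, τ)
              rw [hRd]
              show F (v, !τ) = (w, τ)
              rw [hτ, Bool.not_not, hσ]
            have hc : W2a_Cr F H a b (R (F^[n' + 1] (v, τ))) (n' + 1 + 1) := by
              refine ⟨by rw [hH]; exact hn, ?_, ?_⟩
              · rw [hlast, hHd]
                exact hwb
              · intro i h0 hi'
                rw [hback i (by omega), hH]
                have := hi (n' + 1 - i) (by omega)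
                exact ⟨this.1, this.2.1⟩
            obtain ⟨i, h0, hi', he⟩ := hs _ _ hc
            rw [hback i (by omega), hRd] at he
            have h1 := (hi (n' + 1 - i) (by omega)).2.2
            apply h1
            have h2 := congrArg Prod.fst he
            rw [show (F^[n' + 1 - i] (v, τ)).1 = _ from h2, hSw]
            exact ⟨_, rfl⟩
    intro v w hvw hva
    have hP : ∀ w, (GG μ0 μ1 Sw).Reachable v w →
        (h w ≤ a ∨ (a < h w ∧ h w < b ∧ w ∉ Sw ∧ ∃ (τ : Bool) (n : ℕ),
          H (F^[n] (w, τ)) ≤ a ∧ ∀ i < n, a < H (F^[i] (w, τ)) ∧ H (F^[i] (w, τ)) < b ∧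
            (F^[i] (w, τ)).1 ∉ Sw)) := by
      intro w hvw
      obtain ⟨p⟩ := hvw
      have : ∀ {x y : W} (p : (GG μ0 μ1 Sw).Walk x y),
          (h x ≤ a ∨ (a < h x ∧ h x < b ∧ x ∉ Sw ∧ ∃ (τ : Bool) (n : ℕ),
            H (F^[n] (x, τ)) ≤ a ∧ ∀ i < n, a < H (F^[i] (x, τ)) ∧ H (F^[i] (x, τ)) < b ∧
              (F^[i] (x, τ)).1 ∉ Sw)) →
          (h y ≤ a ∨ (a < h y ∧ h y < b ∧ y ∉ Sw ∧ ∃ (τ : Bool) (n : ℕ),
            H (F^[n] (y, τ)) ≤ a ∧ ∀ i < n, a < H (F^[i] (y, τ)) ∧ H (F^[i] (y, τ)) < b ∧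
              (F^[i] (y, τ)).1 ∉ Sw)) := by
        intro x y p
        induction p with
        | nil => exact id
        | cons hadj q ih => exact fun hx => ih (key _ _ hadj hx)
      exact this p (Or.inl hva)
    rcases hP w hvw with h1 | h1
    · exact lt_of_le_of_lt h1 hlt
    · exact h1.2.1
  · intro s hsS
    have hsS' := hsS
    rw [hSw] at hsS'
    obtain ⟨⟨x, m, hc⟩, hfs⟩ := hsS'
    obtain ⟨i, h0, hi, he⟩ := hs x m hc
    rw [hfs] at he
    have hout : ∀ j, j ≤ m → j ≠ i → (F^[j] x).1 ∉ Sw := by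
      intro j hj hji hjS
      rcases Nat.lt_or_ge j m with hjm | hjm
      · have h1 := hinner x m hc j hjm hjS
        rw [hfs] at h1
        have h2 : (F^[i] x).1 = s := by rw [he]
        exact hji (vdist x m hc j i hj hi.le (h1.trans h2.symm))
      · have : j = m := le_antisymm hj hjm
        rw [this] at hjS
        have h1 := (hmid _ hjS).2.2
        have h2 := hc.2.1
        rw [hHd] at h2
        omega
    have hadj : ∀ j, j < m → j ≠ i → j + 1 ≠ i →
        (GG μ0 μ1 Sw).Adj (F^[j] x).1 (F^[j + 1] x).1 := by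
      intro j hj h1 h2
      have h3 := hout j hj.le h1
      have h4 := hout (j + 1) hj h2
      rw [Function.iterate_succ_apply'] at h4 ⊢
      refine hGG _ ?_ h3 h4
      intro he
      rw [← Function.iterate_succ_apply' F j x] at he
      have := vdist x m hc _ _ hj hj.le he
      omega
    obtain ⟨i', rfl⟩ : ∃ i', i = i' + 1 := ⟨i - 1, by omega⟩
    -- the two neighbours
    have hprev : (F^[i'] x).1 = μ1 s := by
      rw [Function.iterate_succ_apply', hFd] at he
      have e1 := congrArg Prod.snd he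
      have e2 := congrArg Prod.fst he
      have e3 : (F^[i'] x).2 = true := by
        have e4 : (!(F^[i'] x).2) = false := e1
        cases hτ : (F^[i'] x).2
        · rw [hτ] at e4
          exact absurd e4 (by simp)
        · rfl
      have e5 : W2a_mu μ0 μ1 (F^[i'] x).2 (F^[i'] x).1 = s := e2
      rw [e3] at e5
      have e6 : μ1 (F^[i'] x).1 = s := e5
      rw [← e6, i1]
    have hnext : (F^[i' + 1 + 1] x).1 = μ0 s := by
      rw [Function.iterate_succ_apply', he, hFd]
      rfl
    refine ⟨⟨x.1, ?_, ?_⟩, ?_, ⟨(F^[m] x).1, ?_, ?_⟩, ?_⟩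
    · have := hc.1
      rwa [hHd] at this
    · rw [← hprev]
      have : ∀ j, j ≤ i' → (GG μ0 μ1 Sw).Reachable x.1 (F^[j] x).1 := by
        intro j
        induction j with
        | zero => intro _; exact SimpleGraph.Reachable.refl _
        | succ j ih =>
          intro hj
          exact (ih (by omega)).trans (hadj j (by omega) (by omega) (by omega)).reachable
      exact this i' le_rfl
    · rw [← hprev]
      exact hout i' (by omega) (by omega)
    · have := hc.2.1
      rwa [hHd] at this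
    · rw [← hnext]
      have : ∀ d, i' + 1 + 1 + d ≤ m →
          (GG μ0 μ1 Sw).Reachable (F^[i' + 1 + 1] x).1 (F^[i' + 1 + 1 + d] x).1 := by
        intro d
        induction d with
        | zero => intro _; exact SimpleGraph.Reachable.refl _
        | succ d ih =>
          intro hd
          exact (ih (by omega)).trans
            (hadj (i' + 1 + 1 + d) (by omega) (by omega) (by omega)).reachable
      have h1 := this (m - (i' + 1 + 1)) (by omega)
      rwa [show i' + 1 + 1 + (m - (i' + 1 + 1)) = m by omega] at h1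
    · rw [← hnext]
      exact hout (i' + 1 + 1) (by omega) (by omega)

end Pool.MP405d56
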