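import Pool.Agent.Lib.MP_405d56_lc.O2.W2a

/-!
# MP_405d56_lc, outer process: gluing two matchings (row W2b)
-/

open Set

namespace Pool.MP405d56

variable {W : Type}

theorem glue [Finite W] (Γ : SimpleGraph W) (h : W → ℕ)
    (hh : ∀ v w, Γ.Adj v w → h v ≤ h w + 1) (μ0 μ1 : W → W) (i0 : ∀ v, μ0 (μ0 v) = v)
    (a b : ℕ) (m0 : ∀ v, h v < b → μ0 v ≠ v → Γ.Adj v (μ0 v)) (m1 : IsInv Γ μ1)
    (Cf : SimpleGraph W) (Dc : ℕ) (hCf : ∀ v, {w | Cf.Adj v w}.ncard ≤ Dc)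
    (Cand : Set W) (k : ℕ) (hk : 1 ≤ k)
    (rich : ∀ p : ℕ → W, (∀ i i', i ≤ 2 * k → i' ≤ 2 * k → p i = p i' → i = i') →
      (∀ i ≤ 2 * k, a < h (p i) ∧ h (p i) < b) →
      (∀ i < k, μ1 (p (2 * i)) = p (2 * i + 1)) → (∀ i < k, μ0 (p (2 * i + 1)) = p (2 * i + 2)) →
      ∃ i < k, p (2 * i + 1) ∈ Cand)
    (hab : a + (2 * k + 2) * (4 * Dc + 4) + 4 ≤ b) :
    ∃ (μ : W → W) (Sw : Set W), IsInv Γ μ ∧ (∀ v, h v ≤ a → μ v = μ0 v) ∧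
      (∀ v, b ≤ h v → μ v = μ1 v) ∧
      (∀ v, v ∉ Sw → (μ v = μ0 v ∧ h v < b) ∨ (μ v = μ1 v ∧ a < h v)) ∧
      (∀ v ∈ Sw, v ∈ Cand ∧ a < h v ∧ h v < b ∧ μ v = v) ∧
      ∀ v ∈ Sw, ∀ w ∈ Sw, v ≠ w → ¬ Cf.Adj v w := by
  classical
  obtain ⟨Sw, hS1, hS2, sep, hS4⟩ :=
    exists_switch Γ h hh μ0 μ1 i0 a b m0 m1 Cf Dc hCf Cand k hk rich hab
  -- the part governed by the first involution
  obtain ⟨T, hT⟩ : ∃ T : Set W, ∀ z, z ∈ T ↔ z ∉ Sw ∧ ∃ v, h v ≤ a ∧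
      (GG μ0 μ1 Sw).Reachable v z :=
    ⟨{z | z ∉ Sw ∧ ∃ v, h v ≤ a ∧ (GG μ0 μ1 Sw).Reachable v z}, fun z => Iff.rfl⟩
  have hTb : ∀ z ∈ T, h z < b := by
    intro z hz
    obtain ⟨_, v, hv, hr⟩ := (hT z).1 hz
    exact sep v z hr hv
  have hTS : ∀ z ∈ T, z ∉ Sw := fun z hz => ((hT z).1 hz).1
  have hA : ∀ v ∈ T, μ0 v ∈ T := by
    intro v hv
    obtain ⟨hvS, u, hu, hr⟩ := (hT v).1 hv
    by_cases hne : μ0 v = v
    · rw [hne]; exact hv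
    by_cases hS : μ0 v ∈ Sw
    · exfalso
      obtain ⟨-, -, ⟨w, hw, hr'⟩, -⟩ := hS4 _ hS
      rw [i0] at hr'
      have := sep u w (hr.trans hr') hu
      omega
    · refine (hT _).2 ⟨hS, u, hu, hr.trans (SimpleGraph.Adj.reachable ?_)⟩
      exact ⟨fun h => hne h.symm, hvS, hS, Or.inl ⟨rfl, i0 v⟩⟩
  have hB : ∀ v, v ∉ T → v ∉ Sw → μ1 v ∉ T ∧ μ1 v ∉ Sw := by
    intro v hvT hvS
    constructor
    · intro h1
      obtain ⟨h2, u, hu, hr⟩ := (hT _).1 h1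
      by_cases hne : μ1 v = v
      · rw [hne] at h1; exact hvT h1
      · refine hvT ((hT v).2 ⟨hvS, u, hu, hr.trans (SimpleGraph.Adj.reachable ?_)⟩)
        exact ⟨hne, h2, hvS, Or.inr ⟨m1.inv v, rfl⟩⟩
    · intro h1
      obtain ⟨⟨u, hu, hr⟩, -⟩ := hS4 _ h1
      rw [m1.inv] at hr
      exact hvT ((hT v).2 ⟨hvS, u, hu, hr⟩)
  have hlow : ∀ v, h v ≤ a → v ∈ T := by
    intro v hv
    refine (hT v).2 ⟨fun hs => ?_, v, hv, SimpleGraph.Reachable.refl v⟩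
    have := (hS1 v hs).2.1
    omega
  obtain ⟨μ, e1, e2, e3⟩ : ∃ μ : W → W, (∀ v ∈ T, μ v = μ0 v) ∧ (∀ v ∈ Sw, μ v = v) ∧
      ∀ v, v ∉ T → v ∉ Sw → μ v = μ1 v := by
    refine ⟨fun v => if v ∈ T then μ0 v else if v ∈ Sw then v else μ1 v, ?_, ?_, ?_⟩
    · intro v hv
      simp only [if_pos hv]
    · intro v hv
      have h1 : v ∉ T := fun h => hTS v h hv
      simp only [if_neg h1, if_pos hv]
    · intro v h1 h2
      simp only [if_neg h1, if_neg h2]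
  refine ⟨μ, Sw, ⟨?_, ?_⟩, ?_, ?_, ?_, ?_, hS2⟩
  · intro v
    by_cases h1 : v ∈ T
    · rw [e1 v h1, e1 _ (hA v h1), i0]
    · by_cases h2 : v ∈ Sw
      · rw [e2 v h2, e2 v h2]
      · obtain ⟨h3, h4⟩ := hB v h1 h2
        rw [e3 v h1 h2, e3 _ h3 h4, m1.inv]
  · intro v hv
    by_cases h1 : v ∈ T
    · rw [e1 v h1] at hv ⊢
      exact m0 v (hTb v h1) hv
    · by_cases h2 : v ∈ Sw
      · exact absurd (e2 v h2) hv
      · rw [e3 v h1 h2] at hv ⊢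
        exact m1.adj v hv
  · intro v hv
    exact e1 v (hlow v hv)
  · intro v hv
    refine e3 v (fun h1 => ?_) (fun h1 => ?_)
    · have := hTb v h1
      omega
    · have := (hS1 v h1).2.2
      omega
  · intro v hv
    by_cases h1 : v ∈ T
    · exact Or.inl ⟨e1 v h1, hTb v h1⟩
    · refine Or.inr ⟨e3 v h1 hv, ?_⟩
      by_contra h2
      exact h1 (hlow v (by omega))
  · intro v hv
    obtain ⟨h1, h2, h3⟩ := hS1 v hv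
    exact ⟨h1, h2, h3, e2 v hv⟩

end Pool.MP405d56
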