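import Pool.Agent.Lib.MP_405d56_lc.O2.W2b

/-!
# MP_405d56_lc, outer process, row W3: candidates on alternating paths of the gadget graph
-/

open Set

namespace Pool.MP405d56

variable {V : Type}

section W3

theorem W3_edge {J : Inp V} {j : ℕ} {a b : V ⊕ V} (hab : (J.gad j).Adj a b) :
    (∃ x y, a = Sum.inl x ∧ b = Sum.inl y ∧ J.H.Adj x y) ∨
      (J.E (prj a) (prj b) ∧ ¬ ((∃ x, a = Sum.inl x) ∧ ∃ y, b = Sum.inl y)) := by
  rcases a with x | y <;> rcases b with x' | y'
  · exact Or.inl ⟨x, x', rfl, rfl, hab⟩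
  · have h1 : J.abs j x y' := hab
    refine Or.inr ⟨h1.2.1.1, ?_⟩
    rintro ⟨-, y, hy⟩
    exact Sum.inr_ne_inl hy
  · have h1 : J.abs j x' y := hab
    refine Or.inr ⟨J.eqv.symm h1.2.1.1, ?_⟩
    rintro ⟨⟨y, hy⟩, -⟩
    exact Sum.inr_ne_inl hy
  · exact absurd hab (fun h => h)

theorem W3_near {J : Inp V} {j : ℕ} {a b : V ⊕ V} (hab : (J.gad j).Adj a b) :
    J.near 1 (prj a) (prj b) := by
  rcases W3_edge hab with ⟨x, y, rfl, rfl, h⟩ | ⟨h, -⟩
  · exact Inp.near_adj h
  · exact Inp.near_E h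

theorem W3_class_card [Finite V] {J : Inp V} {N : ℕ} (hN : J.Sz N) (c : V) :
    {a : V ⊕ V | J.E c (prj a)}.ncard ≤ 2 * N := by
  have h1 : {a : V ⊕ V | J.E c (prj a)} ⊆ (Sum.inl '' {y | J.E c y}) ∪ (Sum.inr '' {y | J.E c y}) := by
    rintro (x | y) h
    · exact Or.inl ⟨x, h, rfl⟩
    · exact Or.inr ⟨y, h, rfl⟩
  have h2 := Set.ncard_le_ncard h1 (Set.toFinite _)
  have h3 := Set.ncard_union_le (Sum.inl '' {y | J.E c y} : Set (V ⊕ V)) (Sum.inr '' {y | J.E c y})
  have h4 : (Sum.inl '' {y | J.E c y} : Set (V ⊕ V)).ncard ≤ N :=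
    (Set.ncard_image_le (Set.toFinite _)).trans (hN c)
  have h5 : (Sum.inr '' {y | J.E c y} : Set (V ⊕ V)).ncard ≤ N :=
    (Set.ncard_image_le (Set.toFinite _)).trans (hN c)
  omega

/-- every window of `2N` steps contains a real edge -/
theorem W3_window [Finite V] {J : Inp V} {j N k : ℕ} (hN : J.Sz N) (p : ℕ → V ⊕ V)
    (hinj : ∀ i i', i ≤ 2 * k → i' ≤ 2 * k → p i = p i' → i = i')
    (hadj : ∀ l < 2 * k, (J.gad j).Adj (p l) (p (l + 1))) (l : ℕ) (hl : l + 2 * N ≤ 2 * k) :
    ∃ l', l ≤ l' ∧ l' < l + 2 * N ∧ (∃ x, p l' = Sum.inl x) ∧ ∃ y, p (l' + 1) = Sum.inl y := by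
  by_contra hcon
  push Not at hcon
  have hE : ∀ i ≤ 2 * N, J.E (prj (p l)) (prj (p (l + i))) := by
    intro i
    induction i with
    | zero => intro _; exact J.eqv.refl _
    | succ i ih =>
      intro hi
      have h1 := ih (by omega)
      rcases W3_edge (hadj (l + i) (by omega)) with ⟨x, y, hx, hy, -⟩ | ⟨h, -⟩
      · exact absurd hy (hcon (l + i) (by omega) (by omega) ⟨x, hx⟩ y)
      · exact J.eqv.trans h1 h
  have h1 : (Finset.range (2 * N + 1)).card ≤ {a : V ⊕ V | J.E (prj (p l)) (prj a)}.ncard := by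
    have h2 : ((fun i => p (l + i)) '' (Finset.range (2 * N + 1) : Set ℕ)).ncard
        = (Finset.range (2 * N + 1)).card := by
      rw [Set.InjOn.ncard_image, Set.ncard_coe_finset]
      intro i hi i' hi' h
      have hi2 : i < 2 * N + 1 := by simpa using hi
      have hi3 : i' < 2 * N + 1 := by simpa using hi'
      have := hinj (l + i) (l + i') (by omega) (by omega) h
      omega
    rw [← h2]
    apply Set.ncard_le_ncard _ (Set.toFinite _)
    rintro _ ⟨i, hi, rfl⟩
    have hi2 : i < 2 * N + 1 := by simpa using hi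
    exact hE i (by omega)
  have h2 := W3_class_card hN (prj (p l))
  rw [Finset.card_range] at h1
  omega

theorem rich_gad [Finite V] {J : Inp V} {j R N b k : ℕ} (hle : ∀ x, J.w x ≤ j + 1)
    (hN : J.Sz N) (h : V ⊕ V → ℕ) (μ0 μ1 : V ⊕ V → V ⊕ V)
    (hμ0 : ∀ v, h v < b → μ0 v ≠ v → (J.gad j).Adj v (μ0 v)) (hμ1 : IsInv (J.gad j) μ1)
    (Z : Set V) (hZ : ∀ z ∈ Z, ∀ z' ∈ Z, J.near (2 * R + 9) z z' → J.E z z')
    (hk : (2 * N + 6) * ((N + (j + 1) + 1) ^ (R + 4) + 3) ≤ k)
    (p : ℕ → V ⊕ V) (hinj : ∀ i i', i ≤ 2 * k → i' ≤ 2 * k → p i = p i' → i = i')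
    (hzone : ∀ i ≤ 2 * k, h (p i) < b)
    (h1 : ∀ i < k, μ1 (p (2 * i)) = p (2 * i + 1))
    (h0 : ∀ i < k, μ0 (p (2 * i + 1)) = p (2 * i + 2)) :
    ∃ i < k, ∃ x, p (2 * i + 1) = Sum.inl x ∧ ∀ z ∈ Z, ¬ J.near (R + 3) x z := by
  by_contra hcon
  push Not at hcon
  -- all steps are edges of the gadget graph
  have hadj : ∀ l < 2 * k, (J.gad j).Adj (p l) (p (l + 1)) := by
    intro l hl
    obtain ⟨i, hi | hi⟩ : ∃ i, l = 2 * i ∨ l = 2 * i + 1 := ⟨l / 2, by omega⟩
    · subst hi
      have h2 := h1 i (by omega)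
      have h3 : μ1 (p (2 * i)) ≠ p (2 * i) := by
        rw [h2]
        intro h4
        have := hinj _ _ (by omega) (by omega) h4
        omega
      have h4 := hμ1.adj _ h3
      rwa [h2] at h4
    · subst hi
      have h2 := h0 i (by omega)
      have h3 : μ0 (p (2 * i + 1)) ≠ p (2 * i + 1) := by
        rw [h2]
        intro h4
        have := hinj _ _ (by omega) (by omega) h4
        omega
      have h4 := hμ0 _ (hzone _ (by omega)) h3
      rwa [h2] at h4
  set B := (N + (j + 1) + 1) ^ (R + 4) with hB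
  -- good indices
  have hgood : ∀ q ≤ B, ∃ i, q * (N + 2) ≤ i ∧ i < q * (N + 2) + N ∧ i < k ∧
      ∃ x, p (2 * i + 1) = Sum.inl x := by
    intro q hq
    have hqB : q * (N + 2) ≤ B * (N + 2) := Nat.mul_le_mul_right _ hq
    have hk2 : B * (N + 2) + N + 1 ≤ k := by nlinarith
    obtain ⟨l', h2, h3, ⟨x, hx⟩, y, hy⟩ := W3_window hN p hinj hadj (2 * (q * (N + 2)))
      (by omega)
    obtain ⟨i, hi | hi⟩ : ∃ i, l' = 2 * i ∨ l' = 2 * i + 1 := ⟨l' / 2, by omega⟩
    · subst hi
      exact ⟨i, by omega, by omega, by omega, y, hy⟩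
    · subst hi
      exact ⟨i, by omega, by omega, by omega, x, hx⟩
  have : Nonempty V := ⟨prj (p 0)⟩
  choose! f hf1 hf2 hf3 g hg using hgood
  -- the first good index
  obtain ⟨z0, hz0, hn0⟩ := hcon (f 0) (hf3 0 (Nat.zero_le _)) (g 0) (hg 0 (Nat.zero_le _))
  have key : ∀ m, f 0 ≤ m → m < k → ∃ i ≤ m, ∃ x, p (2 * i + 1) = Sum.inl x ∧
      (∃ z ∈ Z, J.near (R + 3) x z ∧ J.E z0 z) ∧
      ((∃ x, p (2 * m + 1) = Sum.inl x) → i = m) ∧
      (i = m ∨ J.E (prj (p (2 * i + 2))) (prj (p (2 * m + 1)))) := by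
    intro m hm
    induction m, hm using Nat.le_induction with
    | base =>
      intro _
      exact ⟨f 0, le_rfl, g 0, hg 0 (Nat.zero_le _), ⟨z0, hz0, hn0, J.eqv.refl _⟩,
        fun _ => rfl, Or.inl rfl⟩
    | succ m hm ih =>
      intro hmk
      obtain ⟨i, hi, x, hx, ⟨z, hz, hn, hzz⟩, hlast, hE⟩ := ih (by omega)
      -- the step from `2m+1` to `2m+2` is a gadget edge unless `i = m`
      have hE2 : J.near 1 (prj (p (2 * i + 2))) (prj (p (2 * m + 2))) ∧
          (i = m ∨ J.E (prj (p (2 * i + 2))) (prj (p (2 * m + 2)))) := by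
        rcases hE with rfl | hE
        · exact ⟨Inp.near_refl J _ _, Or.inl rfl⟩
        · rcases W3_edge (hadj (2 * m + 1) (by omega)) with ⟨u, v, hu, hv, -⟩ | ⟨he, -⟩
          · have := hlast ⟨u, hu⟩
            subst this
            exact ⟨Inp.near_refl J _ _, Or.inl rfl⟩
          · have h2 := J.eqv.trans hE he
            exact ⟨Inp.near_E h2, Or.inr h2⟩
      by_cases hgd : ∃ x', p (2 * (m + 1) + 1) = Sum.inl x'
      · obtain ⟨x', hx'⟩ := hgd
        refine ⟨m + 1, le_rfl, x', hx', ?_, fun _ => rfl, Or.inl rfl⟩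
        obtain ⟨z', hz', hn'⟩ := hcon (m + 1) hmk x' hx'
        have a1 : J.near 1 (prj (p (2 * i + 1))) (prj (p (2 * i + 2))) :=
          W3_near (hadj (2 * i + 1) (by omega))
        have a2 : J.near 1 (prj (p (2 * m + 2))) (prj (p (2 * m + 3))) :=
          W3_near (hadj (2 * m + 2) (by omega))
        have a3 := Inp.near_trans (Inp.near_trans a1 hE2.1) a2
        rw [hx] at a3
        have hx'' : p (2 * m + 3) = Sum.inl x' := hx'
        rw [hx''] at a3
        have a4 : J.near 3 x x' := a3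
        have a5 := Inp.near_trans (Inp.near_trans (Inp.near_symm hn) a4) hn'
        have a6 : J.near (2 * R + 9) z z' := Inp.near_mono (by omega) a5
        exact ⟨z', hz', hn', J.eqv.trans hzz (hZ z hz z' hz' a6)⟩
      · refine ⟨i, by omega, x, hx, ⟨z, hz, hn, hzz⟩, fun h => absurd h hgd, Or.inr ?_⟩
        rcases W3_edge (hadj (2 * m + 2) (by omega)) with ⟨u, v, hu, hv, -⟩ | ⟨he, -⟩
        · exact absurd ⟨v, hv⟩ hgd
        · rcases hE2.2 with rfl | h2
          · exact he
          · exact J.eqv.trans h2 he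
  -- all good vertices are close to `z0`
  have hball : ∀ q ≤ B, J.near (R + 4) z0 (g q) := by
    intro q hq
    have hle2 : f 0 ≤ f q := by
      rcases Nat.eq_zero_or_pos q with rfl | hq0
      · exact le_rfl
      · have h2 := hf2 0 (Nat.zero_le _)
        have h3 := hf1 q hq
        have h4 : 1 * (N + 2) ≤ q * (N + 2) := Nat.mul_le_mul_right _ hq0
        omega
    obtain ⟨i, hi, x, hx, ⟨z, hz, hn, hzz⟩, hlast, -⟩ := key (f q) hle2 (hf3 q hq)
    have h2 := hlast ⟨g q, hg q hq⟩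
    subst h2
    have h3 : x = g q := Sum.inl_injective (hx.symm.trans (hg q hq))
    rw [← h3]
    exact Inp.near_mono (by omega) (Inp.near_trans (Inp.near_E hzz) (Inp.near_symm hn))
  have hcard := ball_card (n := R + 4) hN (fun x => (dg_le_w J x).trans (hle x)) z0
  have h2 : (Finset.range (B + 1)).card ≤ {y | J.near (R + 4) z0 y}.ncard := by
    have h3 : (g '' (Finset.range (B + 1) : Set ℕ)).ncard = (Finset.range (B + 1)).card := by
      rw [Set.InjOn.ncard_image, Set.ncard_coe_finset]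
      intro q hq q' hq' hqq
      have hq2 : q < B + 1 := by simpa using hq
      have hq3 : q' < B + 1 := by simpa using hq'
      have e1 := hg q (by omega)
      have e2 := hg q' (by omega)
      rw [hqq, ← e2] at e1
      have k1 := hf3 q (by omega)
      have k2 := hf3 q' (by omega)
      have e3 := hinj _ _ (by omega) (by omega) e1
      have e4 : f q = f q' := by omega
      have m1 := hf1 q (by omega)
      have m2 := hf2 q (by omega)
      have m3 := hf1 q' (by omega)
      have m4 := hf2 q' (by omega)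
      rw [e4] at m1 m2
      by_contra hne
      rcases Nat.lt_or_gt_of_ne hne with hlt | hlt
      · have : (q + 1) * (N + 2) ≤ q' * (N + 2) := Nat.mul_le_mul_right _ hlt
        have h5 : (q + 1) * (N + 2) = q * (N + 2) + (N + 2) := by ring
        omega
      · have : (q' + 1) * (N + 2) ≤ q * (N + 2) := Nat.mul_le_mul_right _ hlt
        have h5 : (q' + 1) * (N + 2) = q' * (N + 2) + (N + 2) := by ring
        omega
    rw [← h3]
    apply Set.ncard_le_ncard _ (Set.toFinite _)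
    rintro _ ⟨q, hq, rfl⟩
    have hq2 : q < B + 1 := by simpa using hq
    exact hball q (by omega)
  rw [Finset.card_range] at h2
  have h3 := h2.trans hcard
  rw [← hB] at h3
  omega

end W3

end Pool.MP405d56
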