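import Pool.Agent.Lib.MP_405d56_lc.O2.W3

/-!
# MP_405d56_lc, outer process, row W4: heights
-/

open Set

namespace Pool.MP405d56

variable {V : Type}

section W4

theorem W4_finite (J : Inp V) (A : Set V) (b : ℕ) (x : V) :
    {n : ℕ | n < b ∧ x ∉ J.nbd n A}.Finite :=
  (Set.finite_Iio b).subset fun _ hn => hn.1

theorem W4_ncard_Iio (b : ℕ) : (Set.Iio b : Set ℕ).ncard = b := by
  rw [← Finset.coe_Iio, Set.ncard_coe_finset]
  simp

theorem hgt_le (J : Inp V) (A : Set V) (b : ℕ) (x : V) : hgt J A b x ≤ b := by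
  unfold hgt
  calc {n : ℕ | n < b ∧ x ∉ J.nbd n A}.ncard ≤ (Set.Iio b : Set ℕ).ncard :=
        Set.ncard_le_ncard (fun _ hn => hn.1) (Set.finite_Iio b)
    _ = b := W4_ncard_Iio b

/-- PROOF: the set is `{n | n < min b dist}`: `J.nbd` is increasing in `n`. -/
theorem hgt_lt_iff (J : Inp V) (A : Set V) {b n : ℕ} (hn : n < b) (x : V) :
    hgt J A b x ≤ n ↔ x ∈ J.nbd n A := by
  constructor
  · intro h
    by_contra hx
    have hsub : (Set.Iio (n + 1) : Set ℕ) ⊆ {m : ℕ | m < b ∧ x ∉ J.nbd m A} := by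
      intro m hm
      have hm' : m ≤ n := Nat.lt_succ_iff.1 hm
      exact ⟨lt_of_le_of_lt hm' hn, fun hxm => hx (Inp.nbd_mono hm' subset_rfl hxm)⟩
    have h1 := Set.ncard_le_ncard hsub (W4_finite J A b x)
    rw [W4_ncard_Iio] at h1
    have h2 : {m : ℕ | m < b ∧ x ∉ J.nbd m A}.ncard ≤ n := h
    omega
  · intro hx
    have hsub : {m : ℕ | m < b ∧ x ∉ J.nbd m A} ⊆ (Set.Iio n : Set ℕ) := by
      intro m hm
      by_contra hmn
      rw [Set.mem_Iio, not_lt] at hmn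
      exact hm.2 (Inp.nbd_mono hmn subset_rfl hx)
    have h1 := Set.ncard_le_ncard hsub (Set.finite_Iio n)
    rw [W4_ncard_Iio] at h1
    exact h1

theorem hgt_step (J : Inp V) (A : Set V) (b : ℕ) {x y : V} (h : J.near 1 x y) :
    hgt J A b x ≤ hgt J A b y + 1 := by
  unfold hgt
  have hsub : {n : ℕ | n < b ∧ x ∉ J.nbd n A} ⊆
      insert 0 (Nat.succ '' {n : ℕ | n < b ∧ y ∉ J.nbd n A}) := by
    intro n hn
    cases n with
    | zero => exact Set.mem_insert _ _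
    | succ n =>
      refine Set.mem_insert_of_mem _ ⟨n, ⟨?_, ?_⟩, rfl⟩
      · have := hn.1
        omega
      · intro hy
        exact hn.2 (Inp.mem_nbd_of_near hy (Inp.near_symm h))
  have hfin : (Nat.succ '' {n : ℕ | n < b ∧ y ∉ J.nbd n A}).Finite :=
    (W4_finite J A b y).image _
  calc {n : ℕ | n < b ∧ x ∉ J.nbd n A}.ncard
      ≤ (insert 0 (Nat.succ '' {n : ℕ | n < b ∧ y ∉ J.nbd n A})).ncard :=
        Set.ncard_le_ncard hsub (hfin.insert _)
    _ ≤ (Nat.succ '' {n : ℕ | n < b ∧ y ∉ J.nbd n A}).ncard + 1 := Set.ncard_insert_le _ _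
    _ ≤ {n : ℕ | n < b ∧ y ∉ J.nbd n A}.ncard + 1 :=
        Nat.add_le_add_right (Set.ncard_image_le (W4_finite J A b y)) 1

end W4

end Pool.MP405d56
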