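import Pool.Agent.Lib.MP_405d56_lc.O2.W4

open Set

namespace Pool.MP405d56

variable {V : Type}

/-- removing a matching -/
theorem W5_sub_w [Finite V] (J : Inp V) {M : SimpleGraph V} (hM : M ≤ J.H) (y : V) :
    (J.sub M).w y + cnt J.E M y = J.w y := by
  show cnt J.E (J.H \ M) y + cnt J.E M y = cnt J.E J.H y
  unfold cnt
  rw [← Set.ncard_union_eq]
  · congr 1
    ext ⟨a, b⟩
    simp only [Set.mem_union, Set.mem_ofPred_eq, SimpleGraph.sdiff_adj]
    constructor
    · rintro (⟨h1, h2, _⟩ | ⟨h1, h2⟩)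
      · exact ⟨h1, h2⟩
      · exact ⟨h1, hM h2⟩
    · rintro ⟨h1, h2⟩
      by_cases h : M.Adj a b
      · exact Or.inr ⟨h1, h⟩
      · exact Or.inl ⟨h1, h2, h⟩
  · rw [Set.disjoint_left]
    rintro ⟨a, b⟩ ⟨_, h1⟩ ⟨_, h2⟩
    exact h1.2 h2

theorem W5_cnt {J J' : Inp V} {M : SimpleGraph V} {y : V} (h : ∀ z, J.E y z ↔ J'.E y z) :
    cnt J.E M y = cnt J'.E M y := by
  unfold cnt
  congr 1
  ext ⟨a, b⟩
  show (J.E y a ∧ M.Adj a b) ↔ (J'.E y a ∧ M.Adj a b)
  rw [h a]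

/-- the conditions translate to the other input -/
theorem W5_trans [Finite V] {J J' : Inp V} {M' : SimpleGraph V} {A : Set V} {j m n : ℕ}
    (hM : M' ≤ J'.H) (hA : Agree J J' (J.nbd (n + 1) A)) (hmn : m ≤ n) {x : V}
    (hx : x ∈ J.nbd n A) (hFb : x ∈ fbSet J M' j m A) :
    (J'.sub M').w x = j ∨ J'.w x = j + 1 := by
  have hA' : Agree J J' (J.nbd 1 (J.nbd n A)) := hA.mono (Inp.nbd_nbd A)
  have hAx : Agree J J' (J.nbd n A) := hA'.mono (Inp.subset_nbd 1 _)
  rcases hFb with h | ⟨y, hxy, hy, hc⟩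
  · right
    rw [← hA'.w hx]
    exact h
  · left
    have hy' : y ∈ J.nbd n A := Inp.nbd_mono hmn le_rfl hy
    have h1 : J.w y = J'.w y := hA'.w hy'
    have h2 : cnt J.E M' y = cnt J'.E M' y := W5_cnt fun z => (hAx y hy' z).2
    have h3 := W5_sub_w J' hM y
    have h4 : (J'.sub M').w x = (J'.sub M').w y := w_congr (J'.sub M') ((hAx x hx y).2.1 hxy)
    omega

theorem W5_main [Finite V] {j t L Rs m : ℕ} {I I' : Inp V} {F F' : Set (Set V)}
    {M' : SimpleGraph V} {A : Set V}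
    (hRs : T0 j t ≤ Rs) (hV : Valid Rs L j I' F' M')
    (hA : Agree (I.plus F) (I'.plus F') ((I.plus F).nbd (m + T0 j t + 5) A)) {x y : V}
    (hx : ∃ z, (I.plus F).E x z ∧ z ∈ (I.plus F).nbd m A ∧
      cnt (I.plus F).E M' z + j = (I.plus F).w z)
    (hy : y ∈ fbSet (I.plus F) M' j m A) (h : (I.plus F).near (T0 j t) x y) :
    (I.plus F).E x y := by
  obtain ⟨z, hxz, hz, hc⟩ := hx
  have hxm : x ∈ (I.plus F).nbd (m + 1) A :=
    Inp.mem_nbd_of_near hz (Inp.near_E ((I.plus F).eqv.symm hxz))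
  have hx' : x ∈ (I.plus F).nbd (m + T0 j t + 4) A := Inp.nbd_mono (by omega) le_rfl hxm
  have hy' : y ∈ (I.plus F).nbd (m + T0 j t + 4) A :=
    Inp.nbd_mono (by omega) le_rfl (Inp.mem_nbd_of_near hxm h)
  have h1 := W5_trans (j := j) (m := m) hV.mat.sub hA (by omega) hx'
    (Or.inr ⟨z, hxz, hz, hc⟩)
  have h2 := W5_trans (j := j) (m := m) hV.mat.sub hA (by omega) hy' hy
  have h3 : Agree (I.plus F) (I'.plus F') ((I.plus F).nbd (T0 j t) {x}) := by
    refine hA.mono ?_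
    rintro u ⟨a, ha, hu⟩
    rw [Set.mem_singleton_iff] at ha
    subst ha
    exact Inp.nbd_mono (by omega) le_rfl (Inp.mem_nbd_of_near hxm hu)
  have h4 : (I'.plus F').near (T0 j t) x y := (h3.near rfl (Nat.le_succ _) y).1 h
  have h5 := hV.far x y h1 h2 (Inp.near_mono hRs h4)
  exact (hA x (Inp.nbd_mono (by omega) le_rfl hx') y).2.2 h5

theorem hyp_fb [Finite V] {j t L RI Rs m : ℕ} {I I' : Inp V} {F F' : Set (Set V)}
    {M' : SimpleGraph V} {A : Set V} (hj : 2 ≤ j) (hL : L0 j t ≤ L) (hRI : T1 j t L ≤ RI)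
    (hRs : T0 j t ≤ Rs) (hI : Inv RI j I) (hF : Fam L j I F) (hV : Valid Rs L j I' F' M')
    (hA : Agree (I.plus F) (I'.plus F') ((I.plus F).nbd (m + T0 j t + 5) A)) :
    Hyp j t L I F (fbSet (I.plus F) M' j m A) := by
  have hT1 : L ≤ T1 j t L := by
    unfold T1
    nlinarith [Nat.zero_le (T0 j t), Nat.zero_le (L * T0 j t)]
  have hT1' : (L + 2) * T0 j t ≤ T1 j t L := by
    unfold T1
    nlinarith [Nat.zero_le (T0 j t), Nat.zero_le (L * T0 j t)]
  have hfar : ∀ x y, I.w x = j + 1 → I.w y = j + 1 → I.near L x y → I.E x y :=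
    fun x y hx hy h => hI.far x y hx hy (Inp.near_mono (hT1.trans hRI) h)
  refine ⟨hj, hL, hF, hI.le, fun x y hx hy h => hI.far x y hx hy (Inp.near_mono hRI h),
    fun x hx => Or.inl hx, ?_, ?_⟩
  · rintro x y hxy (hx | ⟨z, hxz, hz, hc⟩)
    · left
      rw [← w_congr _ hxy]
      exact hx
    · exact Or.inr ⟨z, (I.plus F).eqv.trans ((I.plus F).eqv.symm hxy) hxz, hz, hc⟩
  · intro x hx y hy h
    rcases hx with hx' | hx'
    · rcases hy with hy' | hy'
      · have e1 := plus_free hF (free_of_must hF hI.le hfar (x := x) (by omega))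
        have e2 := plus_free hF (free_of_must hF hI.le hfar (x := y) (by omega))
        have e3 : I.near ((L + 2) * T0 j t) x y := plus_near hF h
        have e4 : I.E x y := hI.far x y (by rw [← e1.2.2]; exact hx') (by rw [← e2.2.2]; exact hy')
          (Inp.near_mono (hT1'.trans hRI) e3)
        exact (e1.1 y).2 e4
      · exact (I.plus F).eqv.symm (W5_main hRs hV hA hy' (Or.inl hx') (Inp.near_symm h))
    · exact W5_main hRs hV hA hx' hy h

end Pool.MP405d56
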