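import Pool.Agent.Lib.MP_405d56_lc.O2.W5

open Set

namespace Pool.MP405d56

variable {V : Type}

theorem W6_cnt_congr (J : Inp V) (M : SimpleGraph V) {x y : V} (h : J.E x y) :
    cnt J.E M x = cnt J.E M y := by
  unfold cnt
  congr 1
  ext ⟨a, b⟩
  constructor
  · rintro ⟨ha, hb⟩
    exact ⟨J.eqv.trans (J.eqv.symm h) ha, hb⟩
  · rintro ⟨ha, hb⟩
    exact ⟨J.eqv.trans h ha, hb⟩

theorem W6_sub_w [Finite V] (J : Inp V) {M : SimpleGraph V} (hM : M ≤ J.H) (x : V) :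
    (J.sub M).w x + cnt J.E M x = J.w x := by
  unfold Inp.w cnt
  rw [← Set.ncard_union_eq]
  · congr 1
    ext ⟨a, b⟩
    simp only [Set.mem_union, Set.mem_ofPred_eq]
    constructor
    · rintro (⟨h1, h2⟩ | ⟨h1, h2⟩)
      · exact ⟨h1, ((SimpleGraph.sdiff_adj _ _ _ _).1 (show (J.H \ M).Adj a b from h2)).1⟩
      · exact ⟨h1, hM h2⟩
    · rintro ⟨h1, h2⟩
      by_cases h3 : M.Adj a b
      · exact Or.inr ⟨h1, h3⟩
      · refine Or.inl ⟨h1, ?_⟩
        show (J.H \ M).Adj a b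
        exact (SimpleGraph.sdiff_adj _ _ _ _).2 ⟨h2, h3⟩
  · rw [Set.disjoint_left]
    rintro ⟨a, b⟩ ⟨_, h1⟩ ⟨_, h2⟩
    exact ((SimpleGraph.sdiff_adj _ _ _ _).1 (show (J.H \ M).Adj a b from h1)).2 h2

theorem W6_near {J : Inp V} {M : SimpleGraph V} {n : ℕ} {x y : V}
    (h : (J.sub M).near n x y) : J.near n x y := by
  have h1 : ∀ x y, (J.sub M).Q.Adj x y → J.near 1 x y := by
    rintro a b ⟨hab, h | h⟩
    · exact Inp.near_adj ((SimpleGraph.sdiff_adj _ _ _ _).1 (show (J.H \ M).Adj a b from h)).1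
    · exact Inp.near_E (show J.E a b from h)
  have h2 := Inp.near_iff_mono h1 h
  rwa [one_mul] at h2

theorem W6_pos_nonempty {J : Inp V} {x : V} (h : J.w x ≠ 0) : ∃ a, a ∈ J.pos x := by
  unfold Inp.w cnt at h
  obtain ⟨p, hp⟩ := Set.nonempty_of_ncard_ne_zero h
  exact ⟨p.1, hp.1, p.2, hp.2⟩

/-- an uncovered vertex of the class -/
theorem W6_uncov [Finite V] {J : Inp V} {j : ℕ} (hj : 2 ≤ j) {μ : V ⊕ V → V ⊕ V}
    (hμ : IsInv (J.gad j) μ)
    (hreq : ∀ y, Sum.inr y ∈ J.req j → μ (Sum.inr y) ≠ Sum.inr y) {x : V} (hx : j ≤ J.w x)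
    (h0 : cnt J.E (rl μ) x = 0) :
    ∃ y, J.E x y ∧ Sum.inl y ∈ J.req j ∧ μ (Sum.inl y) = Sum.inl y := by
  obtain ⟨a, ha⟩ := W6_pos_nonempty (J := J) (x := x) (by omega)
  have hE : J.E x a := ha.1
  have hpa : J.pos x = J.pos a := pos_congr hE
  by_contra hcon
  have h1 := (gad_down J j μ hμ hreq).2 a (hpa ▸ ha) (w_congr J hE ▸ hx) (by
    intro y hy hyy
    rw [← hpa] at hy
    refine hcon ⟨y, hy.1, ⟨?_, ?_⟩, hyy⟩
    · rw [← pos_congr hy.1]
      exact hy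
    · rw [← w_congr J hy.1]
      exact hx)
  rw [← W6_cnt_congr J _ hE] at h1
  omega

theorem glue_good [Finite V] {J : Inp V} {j R : ℕ} (hj : 2 ≤ j) (hle : ∀ x, J.w x ≤ j + 1)
    {μ : V ⊕ V → V ⊕ V} (hμ : IsInv (J.gad j) μ) {Sw : Set (V ⊕ V)} {Fb Z : Set V}
    (hspec : ∀ x, J.w x = j + 1 → x ∈ Fb) (hcls : ∀ x y, J.E x y → x ∈ Fb → y ∈ Fb)
    (hFb : ∀ x ∈ Fb, ∀ y ∈ Fb, J.near R x y → J.E x y)
    (hZZ : ∀ z ∈ Z, ∀ z' ∈ Z, J.near (R + 2) z z' → z = z')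
    (hZF : ∀ z ∈ Z, ∀ f ∈ Fb, ¬ J.near (R + 2) z f)
    (hcand : ∀ s ∈ Sw, ∃ x, s = Sum.inl x ∧ (∀ z ∈ Z, ¬ J.near (R + 3) x z) ∧
      ∀ f ∈ Fb, ¬ J.near (R + 3) x f)
    (hSw : ∀ x y, Sum.inl x ∈ Sw → Sum.inl y ∈ Sw → x ≠ y → ¬ J.near (R + 2) x y)
    (hreq : ∀ y, Sum.inr y ∈ J.req j → μ (Sum.inr y) ≠ Sum.inr y)
    (hreal : ∀ y, Sum.inl y ∈ J.req j → μ (Sum.inl y) = Sum.inl y →
      Sum.inl y ∈ Sw ∨ y ∈ Z ∨ (y ∈ Fb ∧ J.w y ≠ j + 1)) :
    IsMat J (rl μ) ∧ Inv R (j - 1) (J.sub (rl μ)) := by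
  have hM := (gad_down J j μ hμ hreq).1
  have hw : ∀ x, (J.sub (rl μ)).w x + cnt J.E (rl μ) x = J.w x := W6_sub_w J hM.sub
  have hcand' : ∀ x, Sum.inl x ∈ Sw → (∀ z ∈ Z, ¬ J.near (R + 3) x z) ∧
      ∀ f ∈ Fb, ¬ J.near (R + 3) x f := by
    intro x hx
    obtain ⟨x', h1, h2⟩ := hcand _ hx
    obtain rfl : x = x' := Sum.inl_injective h1
    exact h2
  have hle' : ∀ x, (J.sub (rl μ)).w x ≤ j := by
    intro x
    by_contra hcon
    have h1 := hw x
    have h2 := hle x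
    have hx : J.w x = j + 1 := by omega
    obtain ⟨y, hy, hyr, hyy⟩ := W6_uncov hj hμ hreq (x := x) (by omega) (by omega)
    have hyF : y ∈ Fb := hcls x y hy (hspec x hx)
    rcases hreal y hyr hyy with h | h | h
    · exact (hcand' y h).2 y hyF (Inp.near_refl J _ y)
    · exact hZF y h y hyF (Inp.near_refl J _ y)
    · exact h.2 (by rw [← w_congr J hy]; exact hx)
  have hP : ∀ x, (J.sub (rl μ)).w x = j →
      x ∈ Fb ∨ ∃ y, J.E x y ∧ (y ∈ Z ∨ Sum.inl y ∈ Sw) := by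
    intro x hx
    by_cases hx1 : J.w x = j + 1
    · exact Or.inl (hspec x hx1)
    · have h1 := hw x
      have h2 := hle x
      obtain ⟨y, hy, hyr, hyy⟩ := W6_uncov hj hμ hreq (x := x) (by omega) (by omega)
      rcases hreal y hyr hyy with h | h | h
      · exact Or.inr ⟨y, hy, Or.inr h⟩
      · exact Or.inr ⟨y, hy, Or.inl h⟩
      · exact Or.inl (hcls y x (J.eqv.symm hy) h.1)
  have hj1 : j - 1 + 1 = j := by omega
  refine ⟨hM, ⟨fun x => ?_, fun x y hx hy hn => ?_⟩⟩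
  · rw [hj1]
    exact hle' x
  · rw [hj1] at hx hy
    show J.E x y
    have hn' : J.near R x y := W6_near hn
    -- one in `Fb`, the other one not
    have key : ∀ x y, x ∈ Fb → (∃ y', J.E y y' ∧ (y' ∈ Z ∨ Sum.inl y' ∈ Sw)) →
        ¬ J.near R x y := by
      rintro x y hx ⟨y', hy', h⟩ hxy
      have h1 : J.near (R + 1) x y' := Inp.near_trans hxy (Inp.near_E hy')
      rcases h with h | h
      · exact hZF y' h x hx (Inp.near_mono (by omega) (Inp.near_symm h1))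
      · exact (hcand' y' h).2 x hx (Inp.near_mono (by omega) (Inp.near_symm h1))
    rcases hP x hx with hx' | ⟨x', hxx', hx'⟩
    · rcases hP y hy with hy' | hy'
      · exact hFb x hx' y hy' hn'
      · exact absurd hn' (key x y hx' hy')
    · rcases hP y hy with hy' | ⟨y', hyy', hy'⟩
      · exact absurd (Inp.near_symm hn') (key y x hy' ⟨x', hxx', hx'⟩)
      · have h1 : J.near (R + 2) x' y' := by
          have := Inp.near_trans (Inp.near_trans (Inp.near_symm (Inp.near_E hxx')) hn')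
            (Inp.near_E hyy')
          exact Inp.near_mono (by omega) this
        have h2 : x' = y' := by
          rcases hx' with hx' | hx'
          · rcases hy' with hy' | hy'
            · exact hZZ x' hx' y' hy' h1
            · exact absurd (Inp.near_mono (by omega) (Inp.near_symm h1))
                ((hcand' y' hy').1 x' hx')
          · rcases hy' with hy' | hy'
            · exact absurd (Inp.near_mono (by omega) h1) ((hcand' x' hx').1 y' hy')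
            · by_contra hne
              exact hSw x' y' hx' hy' hne h1
        rw [h2] at hxx'
        exact J.eqv.trans hxx' (J.eqv.symm hyy')


end Pool.MP405d56
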