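import Pool.Agent.Lib.MP_405d56_lc.O2.W6

open Set

namespace Pool.MP405d56

variable {V : Type}

/-- conflict graph of the switching vertices -/
def W7_Cf (J : Inp V) (R : ℕ) : SimpleGraph (V ⊕ V) where
  Adj a b := a ≠ b ∧ (∃ x, a = Sum.inl x) ∧ (∃ y, b = Sum.inl y) ∧ J.near R (prj a) (prj b)
  symm := ⟨fun _ _ h => ⟨h.1.symm, h.2.2.1, h.2.1, Inp.near_symm h.2.2.2⟩⟩
  loopless := ⟨fun _ h => h.1 rfl⟩

theorem W7_Cf_card [Finite V] {J : Inp V} {N d R : ℕ} (hN : J.Sz N) (hd : ∀ x, dg J.H x ≤ d)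
    (v : V ⊕ V) : {w | (W7_Cf J R).Adj v w}.ncard ≤ (N + d + 1) ^ R := by
  have h1 : {w | (W7_Cf J R).Adj v w} ⊆ Sum.inl '' {y | J.near R (prj v) y} := by
    rintro w ⟨_, _, ⟨y, rfl⟩, h⟩
    exact ⟨y, h, rfl⟩
  calc {w | (W7_Cf J R).Adj v w}.ncard ≤ (Sum.inl '' {y | J.near R (prj v) y}).ncard :=
        Set.ncard_le_ncard h1 (Set.toFinite _)
    _ ≤ {y | J.near R (prj v) y}.ncard := Set.ncard_image_le (Set.toFinite _)
    _ ≤ _ := ball_card hN hd _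

theorem weak_level (j R L Rs RI : ℕ) (hj : 2 ≤ j) (hL : L0 j (2 * R + 9) ≤ L)
    (hRs : T0 j (2 * R + 9) ≤ Rs) (hRI : T1 j (2 * R + 9) L ≤ RI) (N r0 : ℕ) :
    ∃ r, ∀ (V : Type) [Finite V] (I I' : Inp V) (Ω : Set V) (F' : Set (Set V))
      (M' : SimpleGraph V), I.Sz N → Inv RI j I → Valid Rs L j I' F' M' →
      Agree I I' (I.nbd r Ω) →
      ∃ (F : Set (Set V)) (M : SimpleGraph V), Fam L j I F ∧ IsMat (I.plus F) M ∧
        Inv R (j - 1) ((I.plus F).sub M) ∧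
        ∀ x ∈ I.nbd r0 Ω, (∀ D, x ∈ D → (D ∈ F ↔ D ∈ F')) ∧ ∀ y, M.Adj x y ↔ M'.Adj x y := by
  obtain ⟨t, ht⟩ : ∃ t, t = 2 * R + 9 := ⟨_, rfl⟩
  obtain ⟨N', hN'⟩ : ∃ N', N' = N * (N + (j + 1) + 1) ^ L + N := ⟨_, rfl⟩
  obtain ⟨Dc, hDc⟩ : ∃ Dc, Dc = (N' + (j + 1) + 1) ^ (R + 2) := ⟨_, rfl⟩
  obtain ⟨k, hk⟩ : ∃ k, k = (2 * N' + 6) * ((N' + (j + 1) + 1) ^ (R + 4) + 3) := ⟨_, rfl⟩
  obtain ⟨b, hb⟩ : ∃ b, b = 0 + (2 * k + 2) * (4 * Dc + 4) + 4 := ⟨_, rfl⟩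
  obtain ⟨m, hm⟩ : ∃ m, m = b + 2 := ⟨_, rfl⟩
  obtain ⟨r2, hr2⟩ : ∃ r2, r2 = r0 + (L + 2) * (m + T0 j t + 10) := ⟨_, rfl⟩
  have hk1 : 1 ≤ k := by
    rw [hk]
    have : 0 < (2 * N' + 6) * ((N' + (j + 1) + 1) ^ (R + 4) + 3) := by positivity
    exact this
  refine ⟨(r2 + L + 3) + 4 * L + 10, ?_⟩
  intro V _ I I' Ω F' M' hSz hI hV hA
  rw [← ht] at hL hRs hRI
  -- step 1: the family
  obtain ⟨F, hF, hFF⟩ := fam_ext (r := r2 + L + 3) hV.fam hA
  have hJJ0 : Agree (I.plus F) (I'.plus F') (I.nbd r2 Ω) :=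
    plus_agree hF hV.fam (hA.mono (Inp.nbd_mono (by omega) subset_rfl)) hFF
  obtain ⟨J, hJ⟩ : ∃ J, J = I.plus F := ⟨_, rfl⟩
  obtain ⟨J', hJ'⟩ : ∃ J', J' = I'.plus F' := ⟨_, rfl⟩
  obtain ⟨A, hAdef⟩ : ∃ A, A = I.nbd r0 Ω := ⟨_, rfl⟩
  have hsub : ∀ n, J.nbd n A ⊆ I.nbd (r0 + (L + 2) * n) Ω := by
    intro n x hx
    obtain ⟨a, ha, hax⟩ := hx
    rw [hJ] at hax
    rw [hAdef] at ha
    exact Inp.mem_nbd_of_near ha (plus_near hF hax)
  have hJJ : Agree J J' (J.nbd (m + T0 j t + 5) A) := by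
    rw [hJ, hJ']
    refine hJJ0.mono ?_
    rw [← hJ]
    refine (hsub _).trans (Inp.nbd_mono ?_ subset_rfl)
    rw [hr2]
    have : (L + 2) * (m + T0 j t + 5) ≤ (L + 2) * (m + T0 j t + 10) := by gcongr; omega
    omega
  -- step 2: Hyp, the matchings
  have hyp : Hyp j t L I F (fbSet J M' j m A) := by
    rw [hJ]
    rw [hJ, hJ'] at hJJ
    exact hyp_fb hj hL hRI hRs hI hF hV hJJ
  obtain ⟨μ1, Z, hμ1, hcov1, hZZ, hZF⟩ := level_matching hyp
  obtain ⟨μ0, hμ0, hM0, habs0, hreal0⟩ := gad_up J' j M' (by rw [hJ']; exact hV.mat)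
  obtain ⟨Fb, hFb⟩ : ∃ Fb, Fb = fbSet J M' j m A := ⟨_, rfl⟩
  rw [← hFb] at hyp hZF
  rw [← hJ] at hμ1 hcov1 hZZ hZF
  have hsp := hyp.spec
  have hcls := hyp.cls
  have hsparse := hyp.sparse
  rw [← hJ] at hsp hcls hsparse
  have hLRI : L ≤ RI := by
    refine le_trans ?_ hRI
    unfold T1
    have : 0 ≤ (L + 2) * (T0 j t + 1) := Nat.zero_le _
    omega
  have hfarL : ∀ x y, I.w x = j + 1 → I.w y = j + 1 → I.near L x y → I.E x y :=
    fun x y hx hy h => hI.far x y hx hy (Inp.near_mono hLRI h)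
  have hle : ∀ x, J.w x ≤ j + 1 := by
    rw [hJ]
    exact plus_w_le hF hI.le hfarL
  have hdI : ∀ x, dg I.H x ≤ j + 1 := fun x => (dg_le_w I x).trans (hI.le x)
  have hdJ : ∀ x, dg J.H x ≤ j + 1 := fun x => (dg_le_w J x).trans (hle x)
  have hSzJ : J.Sz N' := by
    rw [hJ, hN']
    exact plus_size hF hSz hdI
  -- step 3: heights
  obtain ⟨h, hh0⟩ : ∃ h : V ⊕ V → ℕ, h = fun v => hgt J A b (prj v) := ⟨_, rfl⟩
  have hh : ∀ v w, (J.gad j).Adj v w → h v ≤ h w + 1 := by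
    intro v w hvw
    rw [hh0]
    exact hgt_step J A b (gad_near hvw)
  have hz : ∀ v, h v < b → prj v ∈ J.nbd b A := by
    intro v hv
    have h1 : prj v ∈ J.nbd (h v) A := by
      rw [← hgt_lt_iff J A hv, hh0]
    exact Inp.nbd_mono hv.le subset_rfl h1
  have hJb : Agree J J' (J.nbd 1 (J.nbd b A)) :=
    hJJ.mono ((Inp.nbd_nbd A).trans (Inp.nbd_mono (by omega) subset_rfl))
  have hga := fun {x : V} (hx : x ∈ J.nbd b A) => gad_agree hJb hx j
  have m0 : ∀ v, h v < b → μ0 v ≠ v → (J.gad j).Adj v (μ0 v) := by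
    intro v hv hne
    have h1 := hμ0.adj v hne
    have h2 := hz v hv
    cases v with
    | inl x => exact ((hga h2).2.1 _).2 h1
    | inr x => exact ((hga h2).2.2.1 _).2 h1
  -- step 4: candidates
  have hZ3 : ∀ z ∈ Fb ∪ Z, ∀ z' ∈ Fb ∪ Z, J.near (2 * R + 9) z z' → J.E z z' := by
    have hT0 : t ≤ T0 j t := by
      unfold T0 rho
      have : 0 ≤ 4 * ((j + 2) * (2 * (4 * (t + 3) + 10) + 10)) := Nat.zero_le _
      omega
    rintro z (hz | hz) z' (hz' | hz') hzz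
    · exact hsparse z hz z' hz' (Inp.near_mono (by omega) hzz)
    · exact absurd (Inp.near_mono (by omega) (Inp.near_symm hzz)) (hZF z' hz' z hz)
    · exact absurd (Inp.near_mono (by omega) hzz) (hZF z hz z' hz')
    · rw [hZZ z hz z' hz' (Inp.near_mono (by omega) hzz)]
      exact J.eqv.refl _
  obtain ⟨μ, Sw, hμ, hlow, hhigh, hmid, hSw, hSwC⟩ :=
    glue (J.gad j) h hh μ0 μ1 hμ0.inv 0 b m0 hμ1 (W7_Cf J (R + 2)) Dc
      (fun v => by rw [hDc]; exact W7_Cf_card hSzJ hdJ v)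
      {v | ∃ x, v = Sum.inl x ∧ ∀ z ∈ Fb ∪ Z, ¬ J.near (R + 3) x z} k hk1
      (by
        intro p hinj hzone h1 h0
        obtain ⟨i, hi, x, hx, hxz⟩ := rich_gad hle hSzJ h μ0 μ1 m0 hμ1 (Fb ∪ Z) hZ3 (le_of_eq hk.symm) p
          hinj (fun i hi => (hzone i hi).2) h1 h0
        exact ⟨i, hi, x, hx, hxz⟩) (le_of_eq hb.symm)
  have hT0R : R + 3 ≤ T0 j t := by
    unfold T0 rho
    have : 0 ≤ 4 * ((j + 2) * (2 * (4 * (t + 3) + 10) + 10)) := Nat.zero_le _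
    omega
  have hV' : ∀ x, (J'.sub M').w x ≤ j := by
    rw [hJ']; exact hV.le
  have good := glue_good (R := R) hj hle hμ (Sw := Sw) (Fb := Fb) (Z := Z) hsp hcls
    (fun x hx y hy hxy => hsparse x hx y hy (Inp.near_mono (by omega) hxy))
    (fun z hz z' hz' hzz => hZZ z hz z' hz' (Inp.near_mono (by omega) hzz))
    (fun z hz f hf hzf => hZF z hz f hf (Inp.near_mono (by omega) hzf))
    (by
      intro s hs
      obtain ⟨x, hx, hxz⟩ := (hSw s hs).1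
      exact ⟨x, hx, fun z hz => hxz z (Or.inr hz), fun f hf => hxz f (Or.inl hf)⟩)
    (by
      intro x y hx hy hxy hnear
      refine hSwC _ hx _ hy (fun h => hxy (Sum.inl.inj h)) ?_
      exact ⟨fun h => hxy (Sum.inl.inj h), ⟨x, rfl⟩, ⟨y, rfl⟩, hnear⟩)
    (by
      intro y hy hμy
      by_cases hs : Sum.inr y ∈ Sw
      · obtain ⟨x, hx, _⟩ := (hSw _ hs).1
        exact absurd hx (by simp)
      rcases hmid _ hs with ⟨h1, h2⟩ | ⟨h1, h2⟩
      · have h3 := hz _ h2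
        have h4 : Sum.inr y ∈ J'.req j := ((hga h3).2.2.2.2).1 hy
        exact habs0 y h4 (h1.symm.trans hμy)
      · obtain ⟨z, _, hz2⟩ := hcov1 _ hy (h1.symm.trans hμy)
        exact absurd hz2 (by simp))
    (by
      intro y hy hμy
      by_cases hs : Sum.inl y ∈ Sw
      · exact Or.inl hs
      right
      rcases hmid _ hs with ⟨h1, h2⟩ | ⟨h1, h2⟩
      · right
        have h3 : y ∈ J.nbd b A := hz _ h2
        have h4 : Sum.inl y ∈ J'.req j := ((hga h3).2.2.2.1).1 hy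
        have h5 : cnt J'.E M' y = 0 := hreal0 y h4 (h1.symm.trans hμy)
        have h6 : J.w y = J'.w y := hJb.w h3
        have h7 : (J'.sub M').w y = J'.w y := by
          unfold Inp.w cnt
          congr 1
          ext ⟨u, v⟩
          constructor
          · rintro ⟨hu, hv⟩
            exact ⟨hu, hv.1⟩
          · rintro ⟨hu, hv⟩
            refine ⟨hu, hv, fun hM => ?_⟩
            unfold cnt at h5
            rw [Set.ncard_eq_zero (Set.toFinite _)] at h5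
            have : (u, v) ∈ ({p : V × V | J'.E y p.1 ∧ M'.Adj p.1 p.2}) := ⟨hu, hM⟩
            rw [h5] at this
            exact this
        have h8 := hV' y
        have h9 : j ≤ J.w y := hy.2
        have h10 : J.w y = j := by omega
        have h11 : cnt J.E M' y = 0 := by
          rw [← h5]
          unfold cnt
          congr 1
          ext ⟨u, v⟩
          have := (hJb y (Inp.subset_nbd 1 _ h3) u).2
          exact and_congr_left fun _ => this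
        refine ⟨?_, by omega⟩
        rw [hFb]
        right
        exact ⟨y, J.eqv.refl y, Inp.nbd_mono (by omega) subset_rfl h3, by omega⟩
      · left
        obtain ⟨z, hz1, hz2⟩ := hcov1 _ hy (h1.symm.trans hμy)
        rw [Sum.inl.inj hz2]
        exact hz1)
  refine ⟨F, rl μ, hF, by rw [← hJ]; exact good.1, by rw [← hJ]; exact good.2, ?_⟩
  intro x hx
  refine ⟨hFF x (Inp.nbd_mono (by omega) subset_rfl hx), fun y => ?_⟩
  have hx0 : h (Sum.inl x) ≤ 0 := by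
    have hb0 : 0 < b := by rw [hb]; positivity
    rw [hh0]
    show hgt J A b x ≤ 0
    rw [hgt_lt_iff J A hb0]
    exact Inp.subset_nbd 0 A (by rw [hAdef]; exact hx)
  have hμx : μ (Sum.inl x) = μ0 (Sum.inl x) := hlow _ hx0
  rw [hM0 x y]
  constructor
  · rintro ⟨h1, h2, h3⟩
    have h4 : μ0 (Sum.inl x) = Sum.inl y := hμx.symm.trans h2
    exact ⟨h1, h4, by rw [← h4]; exact hμ0.inv _⟩
  · rintro ⟨h1, h2, h3⟩
    have h4 : μ (Sum.inl x) = Sum.inl y := hμx.trans h2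
    exact ⟨h1, h4, by rw [← h4]; exact hμ.inv _⟩

end Pool.MP405d56
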