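import Pool.Agent.Lib.MP_405d56_lc.O2.W7

open Set

namespace Pool.MP405d56

variable {V : Type}

/-- darts of the rest plus darts of the matching -/
theorem W8a_w_sub [Finite V] {J : Inp V} {M : SimpleGraph V} (hM : M ≤ J.H) (x : V) :
    (J.sub M).w x + cnt J.E M x = J.w x := by
  unfold Inp.w cnt
  rw [← Set.ncard_union_eq ?_ (Set.toFinite _) (Set.toFinite _)]
  · congr 1
    ext ⟨a, b⟩
    constructor
    · rintro (h | h)
      · exact ⟨h.1, h.2.1⟩
      · exact ⟨h.1, hM h.2⟩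
    · intro h
      by_cases hab : M.Adj a b
      · exact Or.inr ⟨h.1, hab⟩
      · exact Or.inl ⟨h.1, h.2, hab⟩
  · rw [Set.disjoint_left]
    rintro ⟨a, b⟩ h1 h2
    exact h1.2.2 h2.2

theorem W8a_cnt_congr (J : Inp V) (M : SimpleGraph V) {x y : V} (h : J.E x y) :
    cnt J.E M x = cnt J.E M y := by
  unfold cnt
  congr 1
  ext ⟨a, b⟩
  constructor
  · rintro ⟨ha, hb⟩
    exact ⟨J.eqv.trans (J.eqv.symm h) ha, hb⟩
  · rintro ⟨ha, hb⟩
    exact ⟨J.eqv.trans h ha, hb⟩

/-- an obligatory class without a dart of the matching contains an uncovered required vertex -/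
theorem W8a_unc [Finite V] {J : Inp V} {j : ℕ} (hj : 2 ≤ j) {μ : V ⊕ V → V ⊕ V}
    (hdown : ∀ x, x ∈ J.pos x → j ≤ J.w x →
      (∀ y ∈ J.pos x, μ (Sum.inl y) ≠ Sum.inl y) → 1 ≤ cnt J.E (rl μ) x)
    {Z : Set V} (hreq : ∀ a ∈ J.req j, μ a = a → ∃ z ∈ Z, a = Sum.inl z) {x : V}
    (hw : j ≤ J.w x) (h0 : cnt J.E (rl μ) x = 0) : ∃ z ∈ Z, J.E x z := by
  have hpos : {p : V × V | J.E x p.1 ∧ J.H.Adj p.1 p.2}.Nonempty := by
    rw [Set.nonempty_iff_ne_empty]
    intro he
    have h1 : J.w x = 0 := by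
      unfold Inp.w cnt
      rw [he, Set.ncard_empty]
    omega
  obtain ⟨⟨a, b⟩, hab⟩ := hpos
  have hxa : J.E x a := hab.1
  have haa : a ∈ J.pos a := ⟨J.eqv.refl a, b, hab.2⟩
  have hwa : J.w a = J.w x := (w_congr J hxa).symm
  have hca : cnt J.E (rl μ) a = 0 := by rw [← W8a_cnt_congr J (rl μ) hxa]; exact h0
  by_contra hcon
  have h1 := hdown a haa (by omega) (by
    intro y hy hyy
    apply hcon
    have hyreq : (Sum.inl y : V ⊕ V) ∈ J.req j := by
      refine ⟨⟨J.eqv.refl y, hy.2⟩, ?_⟩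
      rw [← w_congr J (J.eqv.trans hxa hy.1)]
      exact hw
    obtain ⟨z, hz, hyz⟩ := hreq _ hyreq hyy
    have hyz' : y = z := Sum.inl.inj hyz
    exact ⟨z, hz, hyz' ▸ J.eqv.trans hxa hy.1⟩)
  omega

theorem W8a_arith (j R L : ℕ) : R ≤ T0 j (R + 3) ∧ (L + 2) * T0 j (R + 3) ≤ T1 j (R + 3) L ∧
    L ≤ T1 j (R + 3) L := by
  refine ⟨?_, ?_, ?_⟩
  · unfold T0 rho
    omega
  · unfold T1
    have : (L + 2) * T0 j (R + 3) ≤ (L + 2) * (T0 j (R + 3) + 1) :=
      Nat.mul_le_mul_left _ (Nat.le_succ _)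
    omega
  · unfold T1
    omega

theorem strong_level [Finite V] {j R L RI : ℕ} (hj : 2 ≤ j) (hL : L0 j (R + 3) ≤ L)
    (hRI : T1 j (R + 3) L ≤ RI) {I : Inp V} (hI : Inv RI j I) :
    ∃ F M, Valid R L j I F M := by
  obtain ⟨F, hF⟩ := fam_exists L j I
  obtain ⟨hR0, hT01, hLT1⟩ := W8a_arith j R L
  have hfarL : ∀ x y, I.w x = j + 1 → I.w y = j + 1 → I.near L x y → I.E x y :=
    fun x y hx hy hn => hI.far x y hx hy (Inp.near_mono (hLT1.trans hRI) hn)
  have hJle : ∀ x, (I.plus F).w x ≤ j + 1 := plus_w_le hF hI.le hfarL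
  have hsparse : ∀ x y, (I.plus F).w x = j + 1 → (I.plus F).w y = j + 1 →
      (I.plus F).near (T0 j (R + 3)) x y → (I.plus F).E x y := by
    intro x y hx hy hn
    have hfx := free_of_must hF hI.le hfarL (x := x) (by omega)
    have hfy := free_of_must hF hI.le hfarL (x := y) (by omega)
    obtain ⟨hE, _, hwx⟩ := plus_free hF hfx
    obtain ⟨_, _, hwy⟩ := plus_free hF hfy
    have h1 := plus_near hF hn
    exact (hE y).2 (hI.far x y (by omega) (by omega) (Inp.near_mono (hT01.trans hRI) h1))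
  have hyp : Hyp j (R + 3) L I F {x | (I.plus F).w x = j + 1} :=
    { hj := hj
      hL := hL
      fam := hF
      le := hI.le
      far := fun x y hx hy hn => hI.far x y hx hy (Inp.near_mono hRI hn)
      spec := fun x hx => hx
      cls := fun x y hxy hx => by
        show (I.plus F).w y = j + 1
        rw [← w_congr (I.plus F) hxy]
        exact hx
      sparse := fun x hx y hy hn => hsparse x y hx hy hn }
  obtain ⟨μ, Z, hμ, hreq, hZZ, hZF⟩ := level_matching hyp
  obtain ⟨hmat, hdown⟩ := gad_down (I.plus F) j μ hμ (by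
    intro y hy hyy
    obtain ⟨z, _, hz⟩ := hreq _ hy hyy
    exact absurd hz (by simp))
  have hsub := W8a_w_sub (J := I.plus F) (M := rl μ) hmat.sub
  have hunc : ∀ x, j ≤ (I.plus F).w x → cnt (I.plus F).E (rl μ) x = 0 →
      ∃ z ∈ Z, (I.plus F).E x z := fun x hw h0 => W8a_unc hj hdown hreq hw h0
  have hP : ∀ x, (((I.plus F).sub (rl μ)).w x = j ∨ (I.plus F).w x = j + 1) →
      (I.plus F).w x = j + 1 ∨ ∃ z ∈ Z, (I.plus F).E x z := by
    intro x hx
    by_cases hw : (I.plus F).w x = j + 1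
    · exact Or.inl hw
    · right
      have h1 := hsub x
      have h2 := hJle x
      rcases hx with hx | hx
      · exact hunc x (by omega) (by omega)
      · exact absurd hx hw
  refine ⟨F, rl μ, hF, hmat, ?_, ?_⟩
  · intro x
    have h1 := hsub x
    have h2 := hJle x
    by_contra hcon
    have hw : (I.plus F).w x = j + 1 := by omega
    obtain ⟨z, hz, hxz⟩ := hunc x (by omega) (by omega)
    exact hZF z hz x hw (Inp.near_mono (by omega) (Inp.near_symm (Inp.near_E hxz)))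
  · intro x y hx hy hn
    rcases hP x hx with hx' | ⟨z, hz, hxz⟩
    · rcases hP y hy with hy' | ⟨z', hz', hyz⟩
      · exact hsparse x y hx' hy' (Inp.near_mono hR0 hn)
      · exact absurd (Inp.near_mono (by omega)
          (Inp.near_symm (Inp.near_trans hn (Inp.near_E hyz)))) (hZF z' hz' x hx')
    · rcases hP y hy with hy' | ⟨z', hz', hyz⟩
      · exact absurd (Inp.near_mono (by omega)
          (Inp.near_trans (Inp.near_symm (Inp.near_E hxz)) hn)) (hZF z hz y hy')
      · have h3 : z = z' := hZZ z hz z' hz' (Inp.near_mono (by omega)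
          (Inp.near_trans (Inp.near_trans (Inp.near_symm (Inp.near_E hxz)) hn)
            (Inp.near_E hyz)))
        rw [← h3] at hyz
        exact (I.plus F).eqv.trans hxz ((I.plus F).eqv.symm hyz)

end Pool.MP405d56
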